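import Pool.Agent.Helper23.Feas.Defs

set_option autoImplicit false

namespace Pool.Agent.Helper23.Feas

open Filter Topology

theorem perm_val_eq {k : ℕ} (π : Pm k) (a : Fin k) :
    (π a).val = (Finset.univ.filter (fun b => π b < π a)).card := by
  have h : (Finset.univ.filter (fun b => π b < π a)).map π.toEmbedding = Finset.Iio (π a) := by
    ext x
    simp only [Finset.mem_map, Finset.mem_filter, Finset.mem_univ, true_and, Finset.mem_Iio]
    constructor
    · rintro ⟨b, hb, rfl⟩; exact hb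
    · intro hx; exact ⟨π.symm x, by simpa using hx, by simp⟩
  rw [← Finset.card_map, h, Fin.card_Iio]

theorem perm_ext_lt {k : ℕ} {π ρ : Pm k} (h : ∀ a b, π a < π b ↔ ρ a < ρ b) : π = ρ := by
  ext a
  rw [perm_val_eq, perm_val_eq]
  congr 1
  ext b
  simp [h]

/-- it suffices to compare for `a < b` -/
theorem perm_ext_lt' {k : ℕ} {π ρ : Pm k} (h : ∀ a b, a < b → (π a < π b ↔ ρ a < ρ b)) :
    π = ρ := by
  apply perm_ext_lt
  intro a b
  rcases lt_trichotomy a b with hab | hab | hab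
  · exact h a b hab
  · subst hab; simp
  · have h1 := h b a hab
    have h2 : π b ≠ π a := fun he => hab.ne (π.injective he)
    have h3 : ρ b ≠ ρ a := fun he => hab.ne (ρ.injective he)
    constructor
    · intro h4
      rcases lt_or_gt_of_ne h3 with h5 | h5
      · exact absurd (h1.2 h5) (not_lt.2 h4.le)
      · exact h5
    · intro h4
      rcases lt_or_gt_of_ne h2 with h5 | h5
      · exact absurd (h1.1 h5) (not_lt.2 h4.le)
      · exact h5

theorem exists_perm {n : ℕ} (f : Fin n → ℤ) (hf : Function.Injective f) :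
    ∃ σ : Pm n, ∀ a b, σ a < σ b ↔ f a < f b := by
  have hs : StrictMono (f ∘ Tuple.sort f) :=
    (Tuple.monotone_sort f).strictMono_of_injective (hf.comp (Tuple.sort f).injective)
  refine ⟨(Tuple.sort f)⁻¹, fun a b => ?_⟩
  have h := hs.lt_iff_lt (a := (Tuple.sort f)⁻¹ a) (b := (Tuple.sort f)⁻¹ b)
  have e : ∀ x, (Tuple.sort f) ((Tuple.sort f)⁻¹ x) = x := fun x =>
    (Tuple.sort f).apply_symm_apply x
  simp only [Function.comp_apply, e] at h
  exact h.symm

theorem OccAt.le {n k : ℕ} {π : Pm k} {σ : Pm n} {i : ℕ} (h : OccAt π σ i) : i + k ≤ n := h.1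

theorem OccAt.unique {n k : ℕ} {π ρ : Pm k} {σ : Pm n} {i : ℕ} (h : OccAt π σ i)
    (h' : OccAt ρ σ i) : π = ρ := by
  obtain ⟨_, h1⟩ := h
  obtain ⟨_, h2⟩ := h'
  exact perm_ext_lt (fun a b => (h1 a b).symm.trans (h2 a b))

theorem exists_occ {n k : ℕ} (σ : Pm n) (i : ℕ) (h : i + k ≤ n) : ∃ π : Pm k, OccAt π σ i := by
  obtain ⟨π, hπ⟩ := exists_perm (n := k) (fun a =>
    ((σ ⟨i + a.1, lt_of_lt_of_le (Nat.add_lt_add_left a.2 i) h⟩).val : ℤ)) (by
      intro a b hab
      simp only [Nat.cast_inj] at hab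
      have := σ.injective (Fin.ext hab)
      simp only [Fin.mk.injEq] at this
      exact Fin.ext (by omega))
  refine ⟨π, h, fun a b => ?_⟩
  rw [hπ, Fin.lt_def]
  exact Nat.cast_lt.symm

theorem occ_finite {n k : ℕ} (π : Pm k) (σ : Pm n) : {i : ℕ | OccAt π σ i}.Finite :=
  (Set.finite_Iic n).subset (fun i hi => by
    have := OccAt.le hi
    simp only [Set.mem_Iic]; omega)

open Classical in
theorem cocc_eq {n k : ℕ} (π : Pm k) (σ : Pm n) :
    cocc π σ = ((Finset.range (n + 1)).filter (fun i => OccAt π σ i)).card := by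
  unfold cocc
  rw [← Set.ncard_coe_finset]
  congr 1
  ext i
  simp only [Set.mem_ofPred_eq, Finset.coe_filter, Finset.mem_range]
  constructor
  · intro h; exact ⟨by have := h.le; omega, h⟩
  · intro h; exact h.2

/-- the total number of windows -/
theorem sum_cocc {n k : ℕ} (σ : Pm n) : ∑ π : Pm k, cocc π σ = n + 1 - k := by
  classical
  simp_rw [cocc_eq]
  rw [← Finset.card_biUnion]
  · have : (Finset.univ.biUnion (fun π : Pm k =>
        (Finset.range (n + 1)).filter (fun i => OccAt π σ i))) = Finset.range (n + 1 - k) := by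
      ext i
      simp only [Finset.mem_biUnion, Finset.mem_univ, true_and, Finset.mem_filter,
        Finset.mem_range]
      constructor
      · rintro ⟨π, _, h⟩
        have := h.le
        omega
      · intro hi
        obtain ⟨π, hπ⟩ := exists_occ (k := k) σ i (by omega)
        exact ⟨π, by omega, hπ⟩
    rw [this, Finset.card_range]
  · intro π _ ρ _ hne
    rw [Function.onFun, Finset.disjoint_left]
    intro i hi hi'
    exact hne ((Finset.mem_filter.1 hi).2.unique (Finset.mem_filter.1 hi').2)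

theorem sum_cocc_le {n k : ℕ} (σ : Pm n) (hk : 1 ≤ k) : ∑ π : Pm k, cocc π σ ≤ n := by
  rw [sum_cocc]; omega

/-- A criterion for membership in the feasible region: asymptotic lower bounds suffice. -/
theorem feas_of_lower {B : Set (Pm 3)} {k : ℕ} (hk : 1 ≤ k) (v : Pm k → ℝ) (hv0 : ∀ π, 0 ≤ v π)
    (hv1 : ∑ π, v π = 1)
    (h : ∀ ε : ℝ, 0 < ε → ∀ N : ℕ, ∃ n, N ≤ n ∧ ∃ σ : Pm n, Avoids B σ ∧
      ∀ π, (v π - ε) * n ≤ cocc π σ) : v ∈ feasibleRegion B k := by
  classical
  have hle1 : ∀ π, v π ≤ 1 := fun π => by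
    rw [← hv1]; exact Finset.single_le_sum (fun ρ _ => hv0 ρ) (Finset.mem_univ π)
  have hpos : ∀ m : ℕ, (0 : ℝ) < 1 / ((m : ℝ) + 1) := fun m => by positivity
  choose n hn σ hσ hc using fun m : ℕ => h (1 / ((m : ℝ) + 1)) (hpos m) (m + 1)
  refine ⟨fun π => ⟨hv0 π, hle1 π⟩, n, σ, fun m => ⟨le_trans (by omega) (hn m), hσ m⟩, ?_, ?_⟩
  · exact tendsto_atTop_mono (fun m => le_trans (Nat.le_succ m) (hn m)) tendsto_id
  · intro π
    have hnpos : ∀ m, (0 : ℝ) < n m := fun m => by
      have : 0 < n m := lt_of_lt_of_le (Nat.succ_pos m) (hn m)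
      exact_mod_cast this
    have hlow : ∀ (m : ℕ) ρ, v ρ - 1 / ((m : ℝ) + 1) ≤ (cocc ρ (σ m) : ℝ) / n m := by
      intro m ρ
      rw [le_div_iff₀ (hnpos m)]
      exact hc m ρ
    have hsum : ∀ m : ℕ, ∑ ρ : Pm k, (cocc ρ (σ m) : ℝ) / n m ≤ 1 := by
      intro m
      rw [← Finset.sum_div, div_le_one (hnpos m), ← Nat.cast_sum]
      exact_mod_cast sum_cocc_le (σ m) hk
    have hup : ∀ m : ℕ, (cocc π (σ m) : ℝ) / n m ≤
        v π + (Fintype.card (Pm k) : ℝ) * (1 / ((m : ℝ) + 1)) := by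
      intro m
      have h1 := hsum m
      rw [← Finset.add_sum_erase _ _ (Finset.mem_univ π)] at h1
      have h2 : ∑ ρ ∈ Finset.univ.erase π, (v ρ - 1 / ((m : ℝ) + 1)) ≤
          ∑ ρ ∈ Finset.univ.erase π, (cocc ρ (σ m) : ℝ) / n m :=
        Finset.sum_le_sum (fun ρ _ => hlow m ρ)
      rw [Finset.sum_sub_distrib] at h2
      have h3 : v π + ∑ ρ ∈ Finset.univ.erase π, v ρ = 1 := by
        rw [Finset.add_sum_erase _ _ (Finset.mem_univ π), hv1]
      have h4 : ∑ ρ ∈ (Finset.univ : Finset (Pm k)).erase π, 1 / ((m : ℝ) + 1) ≤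
          (Fintype.card (Pm k) : ℝ) * (1 / ((m : ℝ) + 1)) := by
        rw [Finset.sum_const, nsmul_eq_mul]
        apply mul_le_mul_of_nonneg_right _ (hpos m).le
        rw [← Finset.card_univ]
        exact_mod_cast Finset.card_le_card (Finset.erase_subset _ _)
      linarith
    have hlim : Tendsto (fun m : ℕ => 1 / ((m : ℝ) + 1)) atTop (𝓝 0) :=
      tendsto_one_div_add_atTop_nhds_zero_nat
    refine tendsto_of_tendsto_of_tendsto_of_le_of_le (g := fun m : ℕ => v π - 1 / ((m : ℝ) + 1))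
      (h := fun m : ℕ => v π + (Fintype.card (Pm k) : ℝ) * (1 / ((m : ℝ) + 1))) ?_ ?_
      (fun m => hlow m π) hup
    · simpa using tendsto_const_nhds.sub hlim
    · simpa using tendsto_const_nhds.add (hlim.const_mul (Fintype.card (Pm k) : ℝ))

/-- Linear inequalities that hold up to a bounded error pass to the feasible region. -/
theorem lin_le {B : Set (Pm 3)} {k : ℕ} (c : Pm k → ℝ) (d C : ℝ)
    (h : ∀ (n : ℕ) (σ : Pm n), Avoids B σ → ∑ π, c π * cocc π σ ≤ d * n + C)
    {v : Pm k → ℝ} (hv : v ∈ feasibleRegion B k) : ∑ π, c π * v π ≤ d := by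
  obtain ⟨_, n, σ, h1, h2, h3⟩ := hv
  have hL : Tendsto (fun m => ∑ π, c π * ((cocc π (σ m) : ℝ) / (n m : ℝ))) atTop
      (𝓝 (∑ π, c π * v π)) :=
    tendsto_finsetSum _ (fun π _ => (h3 π).const_mul (c π))
  have hn : Tendsto (fun m => (n m : ℝ)) atTop atTop :=
    tendsto_natCast_atTop_atTop.comp h2
  have hR : Tendsto (fun m => d + C / (n m : ℝ)) atTop (𝓝 (d + 0)) :=
    tendsto_const_nhds.add (hn.const_div_atTop C)
  rw [add_zero] at hR
  refine le_of_tendsto_of_tendsto' hL hR (fun m => ?_)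
  have hpos : (0 : ℝ) < n m := by
    have := (h1 m).1
    exact_mod_cast this
  have h4 := h (n m) (σ m) (h1 m).2
  have h5 : ∑ π, c π * ((cocc π (σ m) : ℝ) / (n m : ℝ)) =
      (∑ π, c π * (cocc π (σ m) : ℝ)) / (n m : ℝ) := by
    rw [Finset.sum_div]
    exact Finset.sum_congr rfl (fun π _ => by ring)
  rw [h5, div_le_iff₀ hpos]
  have h6 : (d + C / (n m : ℝ)) * (n m : ℝ) = d * n m + C := by
    field_simp
  linarith

end Pool.Agent.Helper23.Feas
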