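import Mathlib

set_option autoImplicit false

namespace Pool.Agent.Helper23.Feas

open Filter Topology

/-- Permutations of size `n`, as bijections of `Fin n`; `σ i` is the entry at position `i`. -/
abbrev Pm (n : ℕ) := Equiv.Perm (Fin n)

/-- `σ` contains `τ` (classically). -/
def Contains {n j : ℕ} (σ : Pm n) (τ : Pm j) : Prop :=
  ∃ f : Fin j → Fin n, StrictMono f ∧ ∀ a b : Fin j, σ (f a) < σ (f b) ↔ τ a < τ b

/-- `σ ∈ Av(B)`. -/
def Avoids {n : ℕ} (B : Set (Pm 3)) (σ : Pm n) : Prop := ∀ τ ∈ B, ¬ Contains σ τ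

/-- `i` is a consecutive occurrence of `π` in `σ` (positions start at `0`). -/
def OccAt {n k : ℕ} (π : Pm k) (σ : Pm n) (i : ℕ) : Prop :=
  ∃ h : i + k ≤ n, ∀ a b : Fin k,
    σ ⟨i + a.1, lt_of_lt_of_le (Nat.add_lt_add_left a.2 i) h⟩ <
      σ ⟨i + b.1, lt_of_lt_of_le (Nat.add_lt_add_left b.2 i) h⟩ ↔ π a < π b

/-- The number of consecutive occurrences of `π` in `σ`. -/
noncomputable def cocc {n k : ℕ} (π : Pm k) (σ : Pm n) : ℕ := {i : ℕ | OccAt π σ i}.ncard

/-- The feasible region of `Av(B)` for consecutive patterns of size `k`. -/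
def feasibleRegion (B : Set (Pm 3)) (k : ℕ) : Set (Pm k → ℝ) :=
  {v | (∀ π, v π ∈ Set.Icc (0 : ℝ) 1) ∧
    ∃ (n : ℕ → ℕ) (σ : ∀ m, Pm (n m)), (∀ m, 1 ≤ n m ∧ Avoids B (σ m)) ∧
      Tendsto n atTop atTop ∧
      ∀ π, Tendsto (fun m => (cocc π (σ m) : ℝ) / (n m : ℝ)) atTop (𝓝 (v π))}

/-- The first `K` entries of `π` are order-isomorphic to `ρ`. -/
def Beg {K : ℕ} (π : Pm (K + 1)) (ρ : Pm K) : Prop :=
  ∀ a b : Fin K, π a.castSucc < π b.castSucc ↔ ρ a < ρ b

/-- The last `K` entries of `π` are order-isomorphic to `ρ`. -/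
def End {K : ℕ} (π : Pm (K + 1)) (ρ : Pm K) : Prop :=
  ∀ a b : Fin K, π a.succ < π b.succ ↔ ρ a < ρ b

open Classical in
/-- The flow polytope of the overlap graph of `Av(B)`: probability vectors on the permutations of
size `K + 1` in `Av(B)` that satisfy the conservation law at every permutation of size `K`. -/
def flowPolytope (B : Set (Pm 3)) (K : ℕ) : Set (Pm (K + 1) → ℝ) :=
  {v | (∀ π, 0 ≤ v π) ∧ (∀ π, ¬ Avoids B π → v π = 0) ∧ ∑ π, v π = 1 ∧
    ∀ ρ : Pm K, ∑ π, (if Beg π ρ then v π else 0) = ∑ π, (if End π ρ then v π else 0)}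

/-- The six permutations of size three; the first list is the one-line notation (with entries
`0, 1, 2`), the second list is the inverse. -/
def p123 : Pm 3 := ⟨![0, 1, 2], ![0, 1, 2], by decide, by decide⟩
def p132 : Pm 3 := ⟨![0, 2, 1], ![0, 2, 1], by decide, by decide⟩
def p213 : Pm 3 := ⟨![1, 0, 2], ![1, 0, 2], by decide, by decide⟩
def p231 : Pm 3 := ⟨![1, 2, 0], ![2, 0, 1], by decide, by decide⟩
def p312 : Pm 3 := ⟨![2, 0, 1], ![1, 2, 0], by decide, by decide⟩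
def p321 : Pm 3 := ⟨![2, 1, 0], ![2, 1, 0], by decide, by decide⟩

/-- The unit vector at the increasing permutation `1 2 ... k`. -/
def eInc (k : ℕ) : Pm k → ℝ := Pi.single 1 1

/-- The unit vector at the decreasing permutation `k ... 2 1`. -/
def eDec (k : ℕ) : Pm k → ℝ := Pi.single Fin.revPerm 1

open Classical in
/-- The explicit description of the feasible region of `Av(B)` for patterns of size `K + 1`. -/
noncomputable def region (B : Set (Pm 3)) (K : ℕ) : Set (Pm (K + 1) → ℝ) :=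
  if p123 ∈ B ∧ p321 ∈ B then ∅
  else if p123 ∈ B then
    if p231 ∈ B ∨ p312 ∈ B then {eDec (K + 1)}
    else if p132 ∈ B then
      {v ∈ flowPolytope B K | v (Fin.revPerm * finRotate (K + 1)) ≤ v Fin.revPerm}
    else {v ∈ flowPolytope B K | v (finRotate (K + 1) * Fin.revPerm) ≤ v Fin.revPerm}
  else if p321 ∈ B then
    if p132 ∈ B ∨ p213 ∈ B then {eInc (K + 1)}
    else if p231 ∈ B then {v ∈ flowPolytope B K | v ((finRotate (K + 1))⁻¹) ≤ v 1}
    else {v ∈ flowPolytope B K | v (finRotate (K + 1)) ≤ v 1}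
  else if p132 ∈ B ∧ p213 ∈ B ∧ p231 ∈ B ∧ p312 ∈ B then {eInc (K + 1), eDec (K + 1)}
  else if (p132 ∈ B ∧ p231 ∈ B) ∨ (p213 ∈ B ∧ p312 ∈ B) then
    segment ℝ (eInc (K + 1)) (eDec (K + 1))
  else flowPolytope B K

end Pool.Agent.Helper23.Feas
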