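import Pool.Agent.Helper23.Feas.Upper

set_option autoImplicit false

namespace Pool.Agent.Helper23.Feas

open Filter Topology

/-- entries as natural numbers -/
def ent {n : ℕ} (σ : Pm n) (r : ℕ) : ℕ := if h : r < n then (σ ⟨r, h⟩).val else n + r

theorem ent_of_lt {n : ℕ} (σ : Pm n) {r : ℕ} (h : r < n) : ent σ r = (σ ⟨r, h⟩).val := by
  simp [ent, h]

theorem ent_lt_iff {n : ℕ} (σ : Pm n) {r s : ℕ} (hr : r < n) (hs : s < n) :
    ent σ r < ent σ s ↔ σ ⟨r, hr⟩ < σ ⟨s, hs⟩ := by
  rw [ent_of_lt σ hr, ent_of_lt σ hs, Fin.lt_def]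

theorem ent_inj {n : ℕ} (σ : Pm n) {r s : ℕ} (hr : r < n) (hs : s < n) (h : ent σ r = ent σ s) :
    r = s := by
  rw [ent_of_lt σ hr, ent_of_lt σ hs] at h
  have := σ.injective (Fin.ext h)
  simpa using this

theorem occ_iff {n k : ℕ} {π : Pm k} {σ : Pm n} {i : ℕ} :
    OccAt π σ i ↔ i + k ≤ n ∧ ∀ a b : Fin k, ent σ (i + a) < ent σ (i + b) ↔ π a < π b := by
  constructor
  · rintro ⟨h, h1⟩
    refine ⟨h, fun a b => ?_⟩
    rw [ent_lt_iff σ (by have := a.2; omega) (by have := b.2; omega)]
    exact h1 a b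
  · rintro ⟨h, h1⟩
    refine ⟨h, fun a b => ?_⟩
    rw [← h1 a b, ent_lt_iff σ (by have := a.2; omega) (by have := b.2; omega)]

theorem contains3 {n : ℕ} {σ : Pm n} (τ : Pm 3) {i j l : ℕ} (hij : i < j) (hjl : j < l)
    (hl : l < n) (h01 : ent σ i < ent σ j ↔ τ 0 < τ 1) (h02 : ent σ i < ent σ l ↔ τ 0 < τ 2)
    (h12 : ent σ j < ent σ l ↔ τ 1 < τ 2) : Contains σ τ := by
  have hi : i < n := by omega
  have hj : j < n := by omega
  rw [ent_lt_iff σ hi hj] at h01
  rw [ent_lt_iff σ hi hl] at h02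
  rw [ent_lt_iff σ hj hl] at h12
  have n01 : σ ⟨i, hi⟩ ≠ σ ⟨j, hj⟩ := fun h => by
    have := σ.injective h; simp only [Fin.mk.injEq] at this; omega
  have n02 : σ ⟨i, hi⟩ ≠ σ ⟨l, hl⟩ := fun h => by
    have := σ.injective h; simp only [Fin.mk.injEq] at this; omega
  have n12 : σ ⟨j, hj⟩ ≠ σ ⟨l, hl⟩ := fun h => by
    have := σ.injective h; simp only [Fin.mk.injEq] at this; omega
  have m01 : τ 0 ≠ τ 1 := fun h => by have := τ.injective h; simp at this
  have m02 : τ 0 ≠ τ 2 := fun h => by have := τ.injective h; simp at this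
  have m12 : τ 1 ≠ τ 2 := fun h => by have := τ.injective h; simp at this
  refine ⟨![⟨i, hi⟩, ⟨j, hj⟩, ⟨l, hl⟩], ?_, ?_⟩
  · intro a b hab
    fin_cases a <;> fin_cases b <;> (simp_all; try omega)
  · have flip : ∀ {x y : Fin n} {x' y' : Fin 3}, x ≠ y → x' ≠ y' → (x < y ↔ x' < y') →
        (y < x ↔ y' < x') := by
      intro x y x' y' h1 h2 h3
      constructor
      · intro h
        rcases lt_or_gt_of_ne h2 with h4 | h4
        · exact absurd (h3.2 h4) (not_lt.2 h.le)
        · exact h4
      · intro h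
        rcases lt_or_gt_of_ne h1 with h4 | h4
        · exact absurd (h3.1 h4) (not_lt.2 h.le)
        · exact h4
    intro a b
    fin_cases a <;> fin_cases b
    · simp
    · exact h01
    · exact h02
    · exact flip n01 m01 h01
    · simp
    · exact h12
    · exact flip n02 m02 h02
    · exact flip n12 m12 h12
    · simp

section
variable {n : ℕ} {B : Set (Pm 3)} {σ : Pm n}

theorem av123 (h : Avoids B σ) (hB : p123 ∈ B) {i j l : ℕ} (hij : i < j) (hjl : j < l)
    (hl : l < n) (h1 : ent σ i < ent σ j) (h2 : ent σ j < ent σ l) : False := by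
  refine h _ hB (contains3 p123 hij hjl hl (iff_of_true h1 (by decide))
    (iff_of_true (h1.trans h2) (by decide)) (iff_of_true h2 (by decide)))

theorem av132 (h : Avoids B σ) (hB : p132 ∈ B) {i j l : ℕ} (hij : i < j) (hjl : j < l)
    (hl : l < n) (h1 : ent σ i < ent σ l) (h2 : ent σ l < ent σ j) : False := by
  refine h _ hB (contains3 p132 hij hjl hl (iff_of_true (h1.trans h2) (by decide))
    (iff_of_true h1 (by decide)) (iff_of_false (not_lt.2 h2.le) (by decide)))

theorem av213 (h : Avoids B σ) (hB : p213 ∈ B) {i j l : ℕ} (hij : i < j) (hjl : j < l)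
    (hl : l < n) (h1 : ent σ j < ent σ i) (h2 : ent σ i < ent σ l) : False := by
  refine h _ hB (contains3 p213 hij hjl hl (iff_of_false (not_lt.2 h1.le) (by decide))
    (iff_of_true h2 (by decide)) (iff_of_true (h1.trans h2) (by decide)))

theorem av231 (h : Avoids B σ) (hB : p231 ∈ B) {i j l : ℕ} (hij : i < j) (hjl : j < l)
    (hl : l < n) (h1 : ent σ l < ent σ i) (h2 : ent σ i < ent σ j) : False := by
  refine h _ hB (contains3 p231 hij hjl hl (iff_of_true h2 (by decide))
    (iff_of_false (not_lt.2 h1.le) (by decide))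
    (iff_of_false (not_lt.2 (h1.trans h2).le) (by decide)))

theorem av312 (h : Avoids B σ) (hB : p312 ∈ B) {i j l : ℕ} (hij : i < j) (hjl : j < l)
    (hl : l < n) (h1 : ent σ j < ent σ l) (h2 : ent σ l < ent σ i) : False := by
  refine h _ hB (contains3 p312 hij hjl hl
    (iff_of_false (not_lt.2 (h1.trans h2).le) (by decide))
    (iff_of_false (not_lt.2 h2.le) (by decide)) (iff_of_true h1 (by decide)))

theorem av321 (h : Avoids B σ) (hB : p321 ∈ B) {i j l : ℕ} (hij : i < j) (hjl : j < l)
    (hl : l < n) (h1 : ent σ l < ent σ j) (h2 : ent σ j < ent σ i) : False := by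
  refine h _ hB (contains3 p321 hij hjl hl (iff_of_false (not_lt.2 h2.le) (by decide))
    (iff_of_false (not_lt.2 (h1.trans h2).le) (by decide))
    (iff_of_false (not_lt.2 h1.le) (by decide)))

end

/-- Conversely, the absence of triples of the given shape gives avoidance. -/
theorem not_contains3 {n : ℕ} {σ : Pm n} (τ : Pm 3)
    (h : ∀ i j l : ℕ, i < j → j < l → l < n → ¬ ((ent σ i < ent σ j ↔ τ 0 < τ 1) ∧
      (ent σ i < ent σ l ↔ τ 0 < τ 2) ∧ (ent σ j < ent σ l ↔ τ 1 < τ 2))) : ¬ Contains σ τ := by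
  rintro ⟨f, hf, h1⟩
  refine h (f 0) (f 1) (f 2) (hf (by decide)) (hf (by decide)) (f 2).2 ⟨?_, ?_, ?_⟩
  · rw [← h1, ent_lt_iff σ (f 0).2 (f 1).2]
  · rw [← h1, ent_lt_iff σ (f 0).2 (f 2).2]
  · rw [← h1, ent_lt_iff σ (f 1).2 (f 2).2]

/-- windows that are not decreasing contain an ascent -/
theorem exists_asc {n k : ℕ} {π : Pm k} {σ : Pm n} {i : ℕ} (h : OccAt π σ i)
    (hπ : π ≠ Fin.revPerm) : ∃ r, i ≤ r ∧ r + 1 < i + k ∧ ent σ r < ent σ (r + 1) := by
  by_contra hc
  push Not at hc
  rw [occ_iff] at h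
  apply hπ
  have hdec : ∀ d a : ℕ, a + d + 1 < k → ent σ (i + (a + d + 1)) < ent σ (i + a) := by
    intro d
    induction d with
    | zero =>
      intro a ha
      have h1 := hc (i + a) (by omega) (by omega)
      have h2 : ent σ (i + a) ≠ ent σ (i + a + 1) := fun he => by
        have := ent_inj σ (by omega) (by omega) he
        omega
      have e : i + (a + 0 + 1) = i + a + 1 := by omega
      rw [e]; omega
    | succ d ih =>
      intro a ha
      have h0 := ih a (by omega)
      have h1 := hc (i + (a + d + 1)) (by omega) (by omega)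
      have h2 : ent σ (i + (a + d + 1)) ≠ ent σ (i + (a + d + 1) + 1) := fun he => by
        have := ent_inj σ (by omega) (by omega) he
        omega
      have e : i + (a + (d + 1) + 1) = i + (a + d + 1) + 1 := by omega
      rw [e]; omega
  apply perm_ext_lt'
  intro a b hab
  refine iff_of_false ?_ ?_
  · rw [← h.2 a b]
    have := hdec (b.1 - a.1 - 1) a.1 (by have := b.2; rw [Fin.lt_def] at hab; omega)
    have e : a.1 + (b.1 - a.1 - 1) + 1 = b.1 := by rw [Fin.lt_def] at hab; omega
    rw [e] at this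
    omega
  · simp only [Fin.revPerm_apply, Fin.rev_lt_rev, not_lt]
    exact hab.le

/-- windows that are not increasing contain a descent -/
theorem exists_desc {n k : ℕ} {π : Pm k} {σ : Pm n} {i : ℕ} (h : OccAt π σ i)
    (hπ : π ≠ 1) : ∃ r, i ≤ r ∧ r + 1 < i + k ∧ ent σ (r + 1) < ent σ r := by
  by_contra hc
  push Not at hc
  rw [occ_iff] at h
  apply hπ
  have hdec : ∀ d a : ℕ, a + d + 1 < k → ent σ (i + a) < ent σ (i + (a + d + 1)) := by
    intro d
    induction d with
    | zero =>
      intro a ha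
      have h1 := hc (i + a) (by omega) (by omega)
      have h2 : ent σ (i + a) ≠ ent σ (i + a + 1) := fun he => by
        have := ent_inj σ (by omega) (by omega) he
        omega
      have e : i + (a + 0 + 1) = i + a + 1 := by omega
      rw [e]; omega
    | succ d ih =>
      intro a ha
      have h0 := ih a (by omega)
      have h1 := hc (i + (a + d + 1)) (by omega) (by omega)
      have h2 : ent σ (i + (a + d + 1)) ≠ ent σ (i + (a + d + 1) + 1) := fun he => by
        have := ent_inj σ (by omega) (by omega) he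
        omega
      have e : i + (a + (d + 1) + 1) = i + (a + d + 1) + 1 := by omega
      rw [e]; omega
  apply perm_ext_lt'
  intro a b hab
  refine iff_of_true ?_ ?_
  · rw [← h.2 a b]
    have := hdec (b.1 - a.1 - 1) a.1 (by have := b.2; rw [Fin.lt_def] at hab; omega)
    have e : a.1 + (b.1 - a.1 - 1) + 1 = b.1 := by rw [Fin.lt_def] at hab; omega
    rw [e] at this
    exact this
  · simpa using hab

/-- if all occurrences lie in an interval of length `k`, there are at most `k` of them -/
theorem cocc_le_of_interval {n k : ℕ} {π : Pm k} {σ : Pm n} (r : ℕ)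
    (h : ∀ i, OccAt π σ i → i ≤ r ∧ r < i + k) : cocc π σ ≤ k := by
  unfold cocc
  have hsub : {i : ℕ | OccAt π σ i} ⊆ ((Finset.Icc (r + 1 - k) r : Finset ℕ) : Set ℕ) := by
    intro i hi
    have := h i hi
    simp only [Finset.coe_Icc, Set.mem_Icc]
    omega
  refine le_trans (Set.ncard_le_ncard hsub (Finset.finite_toSet _)) ?_
  rw [Set.ncard_coe_finset, Nat.card_Icc]
  omega

end Pool.Agent.Helper23.Feas
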