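import Pool.Agent.Helper23.Feas.Words

set_option autoImplicit false

namespace Pool.Agent.Helper23.Feas

open Filter Topology

theorem coupling {X Γ : Type} [Fintype X] [Fintype Γ] [DecidableEq Γ] (v : X → ℝ)
    (hv0 : ∀ a, 0 ≤ v a) (γ : X → Γ) (u : Γ → X → ℝ) (hu0 : ∀ c b, 0 ≤ u c b)
    (h1 : ∀ c, ∑ b, u c b = ∑ a, (if γ a = c then v a else 0)) (h2 : ∀ b, ∑ c, u c b = v b) :
    ∃ Q : X → X → ℝ, (∀ a b, 0 ≤ Q a b) ∧ (∀ a, ∑ b, Q a b = v a) ∧ (∀ b, ∑ a, Q a b = v b) ∧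
      ∀ a b, 0 < Q a b → 0 < u (γ a) b := by
  set V : Γ → ℝ := fun c => ∑ a, (if γ a = c then v a else 0) with hV
  have hV0 : ∀ c, 0 ≤ V c := fun c => Finset.sum_nonneg (fun a _ => by
    split_ifs
    exacts [hv0 a, le_rfl])
  have hle : ∀ a, v a ≤ V (γ a) := by
    intro a
    have := Finset.single_le_sum (f := fun x => if γ x = γ a then v x else 0)
      (fun x _ => by split_ifs; exacts [hv0 x, le_rfl]) (Finset.mem_univ a)
    simpa using this
  have huz : ∀ c b, V c = 0 → u c b = 0 := by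
    intro c b hc
    have h3 : ∑ b, u c b = V c := h1 c
    rw [hc] at h3
    exact (Finset.sum_eq_zero_iff_of_nonneg (fun x _ => hu0 c x)).1 h3 b (Finset.mem_univ b)
  refine ⟨fun a b => v a * u (γ a) b / V (γ a), ?_, ?_, ?_, ?_⟩
  · intro a b; exact div_nonneg (mul_nonneg (hv0 a) (hu0 _ _)) (hV0 _)
  · intro a
    change ∑ b, v a * u (γ a) b / V (γ a) = v a
    rw [← Finset.sum_div, ← Finset.mul_sum, show ∑ b, u (γ a) b = V (γ a) from h1 _]
    by_cases h : V (γ a) = 0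
    · have : v a = 0 := le_antisymm (h ▸ hle a) (hv0 a)
      rw [this]; simp
    · exact mul_div_cancel_right₀ _ h
  · intro b
    rw [← h2 b]
    have h3 : ∀ a, v a * u (γ a) b / V (γ a) =
        ∑ c, (if γ a = c then v a else 0) * (u c b / V c) := by
      intro a
      simp [ite_mul, mul_div_assoc]
    change ∑ a, v a * u (γ a) b / V (γ a) = _
    simp_rw [h3]
    rw [Finset.sum_comm]
    apply Finset.sum_congr rfl
    intro c _
    rw [← Finset.sum_mul]
    change V c * (u c b / V c) = _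
    by_cases h : V c = 0
    · rw [huz c b h]; simp
    · field_simp
  · intro a b h
    by_contra hc
    have h3 : u (γ a) b = 0 := le_antisymm (not_lt.1 hc) (hu0 _ _)
    simp only at h
    rw [h3] at h; simp at h

theorem exists_beg {K : ℕ} (π : Pm (K + 1)) : ∃ ρ : Pm K, Beg π ρ := by
  obtain ⟨ρ, hρ⟩ := exists_perm (n := K) (fun a => ((π a.castSucc).val : ℤ)) (by
    intro a b hab
    simp only [Nat.cast_inj] at hab
    have := π.injective (Fin.ext hab)
    simpa using this)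
  exact ⟨ρ, fun a b => by rw [hρ, Fin.lt_def]; exact Nat.cast_lt.symm⟩

theorem exists_end {K : ℕ} (π : Pm (K + 1)) : ∃ ρ : Pm K, End π ρ := by
  obtain ⟨ρ, hρ⟩ := exists_perm (n := K) (fun a => ((π a.succ).val : ℤ)) (by
    intro a b hab
    simp only [Nat.cast_inj] at hab
    have := π.injective (Fin.ext hab)
    simpa using this)
  exact ⟨ρ, fun a b => by rw [hρ, Fin.lt_def]; exact Nat.cast_lt.symm⟩

noncomputable def begP {K : ℕ} (π : Pm (K + 1)) : Pm K := (exists_beg π).choose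
noncomputable def endP {K : ℕ} (π : Pm (K + 1)) : Pm K := (exists_end π).choose

theorem begP_spec {K : ℕ} (π : Pm (K + 1)) : Beg π (begP π) := (exists_beg π).choose_spec
theorem endP_spec {K : ℕ} (π : Pm (K + 1)) : End π (endP π) := (exists_end π).choose_spec

theorem beg_iff_eq {K : ℕ} {π : Pm (K + 1)} {ρ : Pm K} : Beg π ρ ↔ begP π = ρ := by
  constructor
  · intro h
    exact perm_ext_lt (fun a b => (begP_spec π a b).symm.trans (h a b))
  · rintro rfl; exact begP_spec π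

theorem end_iff_eq {K : ℕ} {π : Pm (K + 1)} {ρ : Pm K} : End π ρ ↔ endP π = ρ := by
  constructor
  · intro h
    exact perm_ext_lt (fun a b => (endP_spec π a b).symm.trans (h a b))
  · rintro rfl; exact endP_spec π

theorem flow_eq {B : Set (Pm 3)} {K : ℕ} {v : Pm (K + 1) → ℝ} (hv : v ∈ flowPolytope B K)
    (ρ : Pm K) : ∑ π, (if begP π = ρ then v π else 0) = ∑ π, (if endP π = ρ then v π else 0) := by
  classical
  have h := hv.2.2.2 ρ
  simp only [beg_iff_eq, end_iff_eq] at h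
  convert h

theorem ov_of_eq {K : ℕ} {a b : Pm (K + 1)} (h : begP b = endP a) : Ov a b :=
  ov_of (endP_spec a) (h ▸ begP_spec b)

theorem ov_ext {K m : ℕ} (f : Fin (m + 1) → Pm (K + 1)) (P : Pm (K + 1) → Pm (K + 1) → Prop)
    (h : ∀ i : Fin m, P (f i.castSucc) (f i.succ)) : ∀ i, i < m → P (ext f i) (ext f (i + 1)) := by
  intro i hi
  have h1 := h ⟨i, hi⟩
  have e1 : ext f i = f (Fin.castSucc ⟨i, hi⟩) := ext_eq f (Fin.castSucc ⟨i, hi⟩)
  have e2 : ext f (i + 1) = f (Fin.succ ⟨i, hi⟩) := ext_eq f (Fin.succ ⟨i, hi⟩)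
  rw [e1, e2]; exact h1

theorem walk3 {K m : ℕ} (f : Fin (m + 1) → Pm (K + 1))
    (hov : ∀ i, i < m → Ov (ext f i) (ext f (i + 1))) (hav : ∀ i, Avoids {p231, p312} (f i)) :
    ∀ i : Fin (m + 1), MatchAt RA3 (f i) (mkw (gAsc f) (m + 1 + K)) i.1 := by
  intro i
  have hi := i.2
  refine ⟨by rw [mkw_length]; omega, fun a b hab => ?_⟩
  rw [Fin.lt_def] at hab
  have hb := b.2
  have h1 := struct3 (hav i) a.1 b.1 hab hb
  rw [ent_lt_iff (f i) a.2 b.2] at h1
  refine Iff.trans ?_ h1.symm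
  have h2 := gAsc_spec f hov (m - i.1) i.1 (by omega)
  rw [ext_eq] at h2
  unfold RA3
  constructor
  · rintro ⟨r, hr1, hr2, hr3⟩
    rw [mkw_get _ _ _ (by omega)] at hr3
    refine ⟨r - i.1, by omega, by omega, ?_⟩
    rw [← h2 (r - i.1) (by omega)]
    have e : i.1 + (r - i.1) = r := by omega
    rw [e]
    simpa using hr3
  · rintro ⟨r, hr1, hr2, hr3⟩
    refine ⟨i.1 + r, by omega, by omega, ?_⟩
    rw [mkw_get _ _ _ (by omega), (h2 r (by omega)).2 hr3]

theorem walk5 {K m : ℕ} (f : Fin (m + 1) → Pm (K + 1))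
    (hov : ∀ i, i < m → Ov (ext f i) (ext f (i + 1))) (hav : ∀ i, Avoids {p213, p231} (f i)) :
    ∀ i : Fin (m + 1), MatchAt RA5 (f i) (mkw (gAsc f) (m + 1 + K)) i.1 := by
  intro i
  have hi := i.2
  refine ⟨by rw [mkw_length]; omega, fun a b hab => ?_⟩
  rw [Fin.lt_def] at hab
  have hb := b.2
  have h1 := struct5 (hav i) a.1 b.1 hab hb
  rw [ent_lt_iff (f i) a.2 b.2] at h1
  refine Iff.trans ?_ h1.symm
  have h2 := gAsc_spec f hov (m - i.1) i.1 (by omega)
  rw [ext_eq] at h2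
  unfold RA5
  rw [mkw_get _ _ _ (by omega), ← h2 a.1 (by omega)]
  simp

theorem flow_coupling {B : Set (Pm 3)} {K : ℕ} {v : Pm (K + 1) → ℝ} (hv : v ∈ flowPolytope B K) :
    ∃ Q : Pm (K + 1) → Pm (K + 1) → ℝ, (∀ a b, 0 ≤ Q a b) ∧ (∀ a, ∑ b, Q a b = v a) ∧
      (∀ b, ∑ a, Q a b = v b) ∧ ∀ a b, 0 < Q a b → Ov a b := by
  obtain ⟨Q, h1, h2, h3, h4⟩ := coupling v hv.1 (fun a => endP a)
    (fun ρ b => if begP b = ρ then v b else 0)
    (fun c b => by split_ifs; exacts [hv.1 b, le_rfl])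
    (fun c => flow_eq hv c) (fun b => by simp)
  refine ⟨Q, h1, h2, h3, fun a b hab => ov_of_eq ?_⟩
  by_contra hc
  have := h4 a b hab
  simp only [if_neg hc] at this
  exact lt_irrefl _ this

theorem avoids_of_pos {B : Set (Pm 3)} {K : ℕ} {v : Pm (K + 1) → ℝ} (hv : v ∈ flowPolytope B K)
    {π : Pm (K + 1)} (h : 0 < v π) : Avoids B π := by
  by_contra hc
  rw [hv.2.1 π hc] at h
  exact lt_irrefl _ h

theorem lower3 {K : ℕ} : flowPolytope {p231, p312} K ⊆ feasibleRegion {p231, p312} (K + 1) := by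
  intro v hv
  obtain ⟨Q, h1, h2, h3, h4⟩ := flow_coupling hv
  refine machine v hv.1 hv.2.2.1 Q h1 h2 h3 RA3 loc3 (fun _ => True) trivial
    (fun _ _ _ _ => trivial) (fun l _ => real3 l) ?_
  intro m f hf hpos
  refine ⟨mkw (gAsc f) (m + 1 + K), trivial, mkw_length _ _, walk3 f ?_ ?_⟩
  · exact ov_ext f Ov (fun i => h4 _ _ (hf i))
  · intro i; exact avoids_of_pos hv (hpos i)

theorem lower5 {K : ℕ} : flowPolytope {p213, p231} K ⊆ feasibleRegion {p213, p231} (K + 1) := by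
  intro v hv
  obtain ⟨Q, h1, h2, h3, h4⟩ := flow_coupling hv
  refine machine v hv.1 hv.2.2.1 Q h1 h2 h3 RA5 loc5 (fun _ => True) trivial
    (fun _ _ _ _ => trivial) (fun l _ => real5 l) ?_
  intro m f hf hpos
  refine ⟨mkw (gAsc f) (m + 1 + K), trivial, mkw_length _ _, walk5 f ?_ ?_⟩
  · exact ov_ext f Ov (fun i => h4 _ _ (hf i))
  · intro i; exact avoids_of_pos hv (hpos i)

end Pool.Agent.Helper23.Feas
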