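import Pool.Agent.Helper23.Feas.Lower

set_option autoImplicit false

namespace Pool.Agent.Helper23.Feas

open Filter Topology

open Classical in
/-- `true` at right-to-left maxima -/
noncomputable def topL {K : ℕ} (x : Pm (K + 1)) (a : ℕ) : Bool :=
  decide (∀ b, a < b → b < K + 1 → ent x b < ent x a)

theorem ent_ne {n : ℕ} (x : Pm n) {p q : ℕ} (hpq : p < q) (hq : q < n) : ent x p ≠ ent x q := by
  intro he
  have := ent_inj x (by omega) hq he
  omega

theorem topL_true {K : ℕ} {x : Pm (K + 1)} {a : ℕ} :
    topL x a = true ↔ ∀ b, a < b → b < K + 1 → ent x b < ent x a := by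
  simp [topL]

theorem topL_false {K : ℕ} {x : Pm (K + 1)} {a : ℕ} :
    topL x a = false ↔ ∃ b, a < b ∧ b < K + 1 ∧ ent x a < ent x b := by
  rw [← Bool.not_eq_true, topL_true]
  push Not
  constructor
  · rintro ⟨b, h1, h2, h3⟩
    exact ⟨b, h1, h2, lt_of_le_of_ne h3 (ent_ne x h1 h2)⟩
  · rintro ⟨b, h1, h2, h3⟩
    exact ⟨b, h1, h2, h3.le⟩

theorem struct1 {K : ℕ} {x : Pm (K + 1)} (hx : Avoids {p123, p132} x) (a b : ℕ) (hab : a < b)
    (hb : b < K + 1) : ent x a < ent x b ↔
      (∀ r, a ≤ r → r < b → topL x r = false) ∧ topL x b = true := by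
  constructor
  · intro h
    constructor
    · intro r hr1 hr2
      rw [topL_false]
      rcases Nat.eq_or_lt_of_le hr1 with h1 | h1
      · subst h1; exact ⟨b, hab, hb, h⟩
      · refine ⟨b, hr2, hb, ?_⟩
        by_contra hc
        have := ent_ne x hr2 hb
        exact av132 hx (by simp) h1 hr2 hb h (by omega)
    · rw [topL_true]
      intro c hc1 hc2
      by_contra hc
      have := ent_ne x hc1 hc2
      exact av123 hx (by simp) hab hc1 hc2 h (by omega)
  · rintro ⟨h1, h2⟩
    by_contra hc
    have hba : ent x b < ent x a := by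
      have := ent_ne x hab hb
      omega
    obtain ⟨c, hc1, hc2, hc3⟩ := topL_false.1 (h1 a le_rfl hab)
    rcases lt_trichotomy c b with h4 | h4 | h4
    · obtain ⟨d, hd1, hd2, hd3⟩ := topL_false.1 (h1 c hc1.le h4)
      exact av123 hx (by simp) hc1 hd1 hd2 hc3 hd3
    · subst h4; omega
    · have := topL_true.1 h2 c h4 hc2
      omega

noncomputable def gTop {K m : ℕ} (f : Fin (m + 1) → Pm (K + 1)) (r : ℕ) : Bool :=
  if r < m then topL (ext f r) 0 else topL (ext f m) (r - m)

theorem gTop_zero {K m : ℕ} (f : Fin (m + 1) → Pm (K + 1)) {r : ℕ} (hr : r ≤ m) :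
    gTop f r = topL (ext f r) 0 := by
  unfold gTop
  rcases Nat.eq_or_lt_of_le hr with h | h
  · subst h; rw [if_neg (by omega), Nat.sub_self]
  · rw [if_pos h]

theorem gTop_last {K m : ℕ} (f : Fin (m + 1) → Pm (K + 1)) (r : ℕ) :
    gTop f (m + r) = topL (ext f m) r := by
  unfold gTop
  rw [if_neg (by omega)]
  congr 1
  omega

theorem gTop_spec {K m : ℕ} (hK : 1 ≤ K) (f : Fin (m + 1) → Pm (K + 1))
    (hov : ∀ i, i < m → Ov (ext f i) (ext f (i + 1)))
    (hforb : ∀ i, i < m → ¬ (ent (ext f i) 0 < ent (ext f i) 1 ∧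
      ent (ext f (i + 1)) 0 < ent (ext f (i + 1)) K))
    (hav : ∀ i, Avoids {p123, p132} (ext f i)) :
    ∀ d i, i + d = m → ∀ a b, a < b → b < K + 1 →
      (ent (ext f i) a < ent (ext f i) b ↔
        (∀ r, a ≤ r → r < b → gTop f (i + r) = false) ∧ gTop f (i + b) = true) := by
  intro d
  induction d with
  | zero =>
    intro i hi a b hab hb
    have hi' : i = m := by omega
    subst hi'
    simp only [gTop_last]
    exact struct1 (hav i) a b hab hb
  | succ d ih =>
    intro i hi a b hab hb
    rcases Nat.eq_zero_or_pos a with h0 | h0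
    · subst h0
      have hg0 : gTop f (i + 0) = topL (ext f i) 0 := gTop_zero f (by omega)
      -- the forward direction
      have fwd : ∀ b, 0 < b → b < K + 1 → ent (ext f i) 0 < ent (ext f i) b →
          (∀ r, 0 ≤ r → r < b → gTop f (i + r) = false) ∧ gTop f (i + b) = true := by
        intro b hb0 hb h
        have hg : gTop f (i + 0) = false := by
          rw [hg0, topL_false]; exact ⟨b, hb0, hb, h⟩
        rcases Nat.lt_or_ge 1 b with h1 | h1
        · have h2 : ent (ext f i) 1 < ent (ext f i) b := by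
            by_contra hc
            have := ent_ne (ext f i) h1 hb
            exact av132 (hav i) (by simp) Nat.zero_lt_one h1 hb h (by omega)
          have h3 := hov i (by omega) 0 (b - 1) (by omega) (by omega)
          have e : b - 1 + 1 = b := by omega
          rw [e, Nat.zero_add] at h3
          have h4 := (ih (i + 1) (by omega) 0 (b - 1) (by omega) (by omega)).1 (h3.1 h2)
          have e2 : i + 1 + (b - 1) = i + b := by omega
          rw [e2] at h4
          refine ⟨fun r _ hr2 => ?_, h4.2⟩
          rcases Nat.eq_zero_or_pos r with h5 | h5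
          · subst h5; exact hg
          · have h6 := h4.1 (r - 1) (Nat.zero_le _) (by omega)
            have e3 : i + 1 + (r - 1) = i + r := by omega
            rwa [e3] at h6
        · have hb1 : b = 1 := by omega
          subst hb1
          refine ⟨fun r _ hr2 => ?_, ?_⟩
          · have : r = 0 := by omega
            subst this; exact hg
          · by_contra hc
            rw [Bool.not_eq_true, gTop_zero f (by omega), topL_false] at hc
            obtain ⟨c, hc1, hc2, hc3⟩ := hc
            rcases Nat.lt_or_ge c K with h5 | h5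
            · have h6 := hov i (by omega) 0 c (by omega) h5
              rw [Nat.zero_add] at h6
              exact av123 (hav i) (by simp) Nat.zero_lt_one (show 1 < c + 1 by omega)
                (by omega) h (h6.2 hc3)
            · have : c = K := by omega
              subst this
              exact hforb i (by omega) ⟨h, hc3⟩
      constructor
      · exact fwd b hab hb
      · rintro ⟨h1, h2⟩
        have h3 := h1 0 le_rfl hab
        rw [hg0, topL_false] at h3
        obtain ⟨b0, hb1, hb2, hb3⟩ := h3
        obtain ⟨h4, h5⟩ := fwd b0 hb1 hb2 hb3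
        rcases lt_trichotomy b b0 with h6 | h6 | h6
        · rw [h4 b (Nat.zero_le _) h6] at h2
          exact absurd h2 (by simp)
        · subst h6; exact hb3
        · rw [h1 b0 (Nat.zero_le _) h6] at h5
          exact absurd h5 (by simp)
    · have h3 := hov i (by omega) (a - 1) (b - 1) (by omega) (by omega)
      have e1 : a - 1 + 1 = a := by omega
      have e2 : b - 1 + 1 = b := by omega
      rw [e1, e2] at h3
      rw [h3, ih (i + 1) (by omega) (a - 1) (b - 1) (by omega) (by omega)]
      have e3 : i + 1 + (b - 1) = i + b := by omega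
      rw [e3]
      constructor
      · rintro ⟨h4, h5⟩
        refine ⟨fun r hr1 hr2 => ?_, h5⟩
        have h6 := h4 (r - 1) (by omega) (by omega)
        have e4 : i + 1 + (r - 1) = i + r := by omega
        rwa [e4] at h6
      · rintro ⟨h4, h5⟩
        refine ⟨fun r hr1 hr2 => ?_, h5⟩
        have h6 := h4 (r + 1) (by omega) (by omega)
        have e4 : i + (r + 1) = i + 1 + r := by omega
        rwa [e4] at h6

theorem walk1 {K m : ℕ} (hK : 1 ≤ K) (f : Fin (m + 1) → Pm (K + 1))
    (hov : ∀ i, i < m → Ov (ext f i) (ext f (i + 1)))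
    (hforb : ∀ i, i < m → ¬ (ent (ext f i) 0 < ent (ext f i) 1 ∧
      ent (ext f (i + 1)) 0 < ent (ext f (i + 1)) K))
    (hav : ∀ i, Avoids {p123, p132} (ext f i)) :
    ∀ i : Fin (m + 1), MatchAt RA1 (f i) (mkw (gTop f) (m + 1 + K)) i.1 := by
  intro i
  have hi := i.2
  refine ⟨by rw [mkw_length]; omega, fun a b hab => ?_⟩
  rw [Fin.lt_def] at hab
  have hb := b.2
  have h2 := gTop_spec hK f hov hforb hav (m - i.1) i.1 (by omega) a.1 b.1 hab hb
  rw [ext_eq, ent_lt_iff (f i) a.2 b.2] at h2
  refine Iff.trans ?_ h2.symm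
  unfold RA1
  rw [mkw_get _ _ _ (by omega)]
  constructor
  · rintro ⟨h3, h4⟩
    refine ⟨fun r hr1 hr2 => ?_, by simpa using h4⟩
    have h5 := h3 (i.1 + r) (by omega) (by omega)
    rw [mkw_get _ _ _ (by omega)] at h5
    simpa using h5
  · rintro ⟨h3, h4⟩
    refine ⟨fun r hr1 hr2 => ?_, by simpa using h4⟩
    have h5 := h3 (r - i.1) (by omega) (by omega)
    have e : i.1 + (r - i.1) = r := by omega
    rw [mkw_get _ _ _ (by omega), ← e, h5]

theorem noFF_walk {K m : ℕ} (hK : 1 ≤ K) (f : Fin (m + 1) → Pm (K + 1))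
    (hov : ∀ i, i < m → Ov (ext f i) (ext f (i + 1)))
    (hforb : ∀ i, i < m → ¬ (ent (ext f i) 0 < ent (ext f i) 1 ∧
      ent (ext f (i + 1)) 0 < ent (ext f (i + 1)) K))
    (hav : ∀ i, Avoids {p123, p132, p213} (ext f i)) :
    NoFF (mkw (gTop f) (m + 1 + K)) := by
  have hav' : ∀ i, Avoids {p123, p132} (ext f i) := by
    intro i τ hτ
    refine hav i τ ?_
    rcases hτ with h | h
    · left; exact h
    · right; left; exact h
  -- non-tops are followed by their unique larger element
  have next : ∀ i a, topL (ext f i) a = false → a + 1 < K + 1 ∧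
      ent (ext f i) a < ent (ext f i) (a + 1) := by
    intro i a h
    obtain ⟨b, hb1, hb2, hb3⟩ := topL_false.1 h
    refine ⟨by omega, ?_⟩
    rcases Nat.lt_or_ge (a + 1) b with h1 | h1
    · by_contra hc
      have := ent_ne (ext f i) (show a < a + 1 by omega) (by omega)
      exact av213 (hav i) (by simp) (show a < a + 1 by omega) h1 hb2 (by omega) hb3
    · have : a + 1 = b := by omega
      rw [this]; exact hb3
  intro r hr
  have hlen : r < m + 1 + K := by
    by_contra hc
    rw [List.getElem?_eq_none (by rw [mkw_length]; omega)] at hr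
    simp at hr
  rw [mkw_get _ _ _ hlen] at hr
  have hr' : gTop f r = false := by simpa using hr
  rcases Nat.lt_or_ge r m with h | h
  · rw [gTop_zero f h.le] at hr'
    obtain ⟨h1, h2⟩ := next r 0 hr'
    have h3 := (gTop_spec hK f hov hforb hav' (m - r) r (by omega) 0 1 Nat.zero_lt_one
      (by omega)).1 h2
    rw [mkw_get _ _ _ (by omega), h3.2]
  · obtain ⟨s, rfl⟩ : ∃ s, r = m + s := ⟨r - m, by omega⟩
    rw [gTop_last] at hr'
    obtain ⟨h1, h2⟩ := next m s hr'
    have h3 := (struct1 (hav' m) s (s + 1) (by omega) h1).1 h2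
    rw [mkw_get _ _ _ (by omega), Nat.add_assoc, gTop_last, h3.2]

/-! ### the coupling for the class `Av(123, 132)` -/

theorem rot_lt {K : ℕ} {a : ℕ} (ha : a < K) : (finRotate (K + 1)) ⟨a, by omega⟩ =
    ⟨a + 1, by omega⟩ := finRotate_of_lt ha

theorem rot_last {K : ℕ} : (finRotate (K + 1)) ⟨K, by omega⟩ = ⟨0, by omega⟩ := finRotate_last'

/-- comparisons in `(k-1) ... 2 1 k` -/
theorem e2_lt {K : ℕ} {a b : ℕ} (hab : a < b) (hb : b < K + 1) :
    ent (Fin.revPerm * finRotate (K + 1)) a < ent (Fin.revPerm * finRotate (K + 1)) b ↔ b = K := by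
  rw [ent_lt_iff _ (by omega) hb]
  simp only [Equiv.Perm.coe_mul, Function.comp_apply, Fin.revPerm_apply, Fin.rev_lt_rev]
  rw [rot_lt (show a < K by omega)]
  rcases Nat.lt_or_ge b K with h | h
  · rw [rot_lt h]
    exact iff_of_false (by simp only [Fin.mk_lt_mk]; omega) (by omega)
  · have : b = K := by omega
    subst this
    rw [rot_last]
    exact iff_of_true (by simp only [Fin.mk_lt_mk]; omega) rfl

theorem rev_ent {n : ℕ} {a b : ℕ} (hab : a < b) (hb : b < n) :
    ¬ ent (Fin.revPerm : Pm n) a < ent (Fin.revPerm : Pm n) b := by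
  rw [ent_lt_iff _ (by omega) hb]
  simp only [Fin.revPerm_apply, Fin.rev_lt_rev, Fin.mk_lt_mk]
  omega

theorem e2_ne {K : ℕ} (hK : 1 ≤ K) : (Fin.revPerm * finRotate (K + 1) : Pm (K + 1)) ≠
    Fin.revPerm := by
  intro h
  have h1 := (e2_lt (K := K) (a := 0) (b := K) (by omega) (by omega)).2 rfl
  rw [h] at h1
  exact rev_ent (by omega) (by omega) h1

theorem beg_of_dec {K : ℕ} {x : Pm (K + 1)}
    (h : ∀ a b : ℕ, a < b → b < K → ¬ ent x a < ent x b) : Beg x Fin.revPerm := by
  intro a b
  simp only [Fin.revPerm_apply, Fin.rev_lt_rev]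
  have key : x a.castSucc < x b.castSucc ↔ ent x a.1 < ent x b.1 :=
    (ent_lt_iff x (by omega) (by omega)).symm
  rw [key]
  rcases lt_trichotomy a.1 b.1 with h1 | h1 | h1
  · exact iff_of_false (h _ _ h1 b.2) (by rw [Fin.lt_def]; omega)
  · have : a = b := Fin.ext h1
    subst this; simp
  · have h2 := h _ _ h1 a.2
    have h3 := ent_ne x h1 (by omega)
    exact iff_of_true (by omega) h1

theorem end_of_dec {K : ℕ} {x : Pm (K + 1)}
    (h : ∀ a b : ℕ, a < b → b < K → ¬ ent x (a + 1) < ent x (b + 1)) : End x Fin.revPerm := by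
  intro a b
  simp only [Fin.revPerm_apply, Fin.rev_lt_rev]
  have key : x a.succ < x b.succ ↔ ent x (a.1 + 1) < ent x (b.1 + 1) :=
    (ent_lt_iff x (by omega) (by omega)).symm
  rw [key]
  rcases lt_trichotomy a.1 b.1 with h1 | h1 | h1
  · exact iff_of_false (h _ _ h1 b.2) (by rw [Fin.lt_def]; omega)
  · have : a = b := Fin.ext h1
    subst this; simp
  · have h2 := h _ _ h1 a.2
    have h3 := ent_ne x (show b.1 + 1 < a.1 + 1 by omega) (by omega)
    exact iff_of_true (by omega) h1

theorem begP_e2 {K : ℕ} : begP (Fin.revPerm * finRotate (K + 1) : Pm (K + 1)) = Fin.revPerm :=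
  beg_iff_eq.1 (beg_of_dec (fun a b hab hb => by
    rw [e2_lt hab (by omega)]; omega))

theorem begP_rev {K : ℕ} : begP (Fin.revPerm : Pm (K + 1)) = Fin.revPerm :=
  beg_iff_eq.1 (beg_of_dec (fun a b hab hb => rev_ent hab (by omega)))

theorem endP_rev {K : ℕ} : endP (Fin.revPerm : Pm (K + 1)) = Fin.revPerm :=
  end_iff_eq.1 (end_of_dec (fun a b hab hb => rev_ent (by omega) (by omega)))

theorem eq_e2 {K : ℕ} {x : Pm (K + 1)} (hx : Avoids {p123, p132} x)
    (h : ent x 0 < ent x K) : x = Fin.revPerm * finRotate (K + 1) := by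
  have hK : 0 < K := by
    rcases Nat.eq_zero_or_pos K with h0 | h0
    · subst h0; exact absurd h (lt_irrefl _)
    · exact h0
  -- every element before the last is smaller than the last
  have hlast : ∀ a, a < K → ent x a < ent x K := by
    intro a ha
    rcases Nat.eq_zero_or_pos a with h0 | h0
    · subst h0; exact h
    · by_contra hc
      have := ent_ne x ha (by omega)
      exact av132 hx (by simp) h0 ha (by omega) h (by omega)
  apply perm_ext_lt'
  intro a b hab
  rw [Fin.lt_def] at hab
  have ha := a.2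
  have hb := b.2
  have e1 : ∀ y : Pm (K + 1), y a < y b ↔ ent y a.1 < ent y b.1 := fun y =>
    (ent_lt_iff y a.2 b.2).symm
  rw [e1, e1, e2_lt hab hb]
  constructor
  · intro h1
    by_contra hc
    exact av123 hx (by simp) hab (show b.1 < K by omega) (by omega) h1 (hlast b.1 (by omega))
  · intro h1
    rw [h1]; exact hlast a.1 (by omega)

theorem sum_ite_one {X : Type} [Fintype X] [DecidableEq X] (c : X) (g : X → ℝ) :
    ∑ b, (if b = c then g b else 0) = g c := by simp

theorem coupling1 {B : Set (Pm 3)} {K : ℕ} (hK : 1 ≤ K) {v : Pm (K + 1) → ℝ}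
    (hv : v ∈ flowPolytope B K) (h123 : p123 ∈ B) (h132 : p132 ∈ B)
    (hle : v (Fin.revPerm * finRotate (K + 1)) ≤ v Fin.revPerm) :
    ∃ Q : Pm (K + 1) → Pm (K + 1) → ℝ, (∀ a b, 0 ≤ Q a b) ∧ (∀ a, ∑ b, Q a b = v a) ∧
      (∀ b, ∑ a, Q a b = v b) ∧ ∀ a b, 0 < Q a b →
        Ov a b ∧ ¬ (ent a 0 < ent a 1 ∧ ent b 0 < ent b K) := by
  classical
  set L : Pm (K + 1) := Fin.revPerm with hL
  set E : Pm (K + 1) := Fin.revPerm * finRotate (K + 1) with hE
  have hEL : E ≠ L := e2_ne hK
  set α : Pm (K + 1) → ℝ := fun b => if b = E then v E else if b = L then v L - v E else 0 with hα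
  have hα0 : ∀ b, 0 ≤ α b := by
    intro b
    simp only [hα]
    split_ifs
    · exact hv.1 _
    · linarith
    · exact le_rfl
  have hαsum : ∑ b, α b = v L := by
    have h1 : ∀ b, α b = (if b = E then v E else 0) + (if b = L then v L - v E else 0) := by
      intro b
      simp only [hα]
      by_cases h1 : b = E
      · subst h1; simp [hEL]
      · simp [h1]
    rw [Finset.sum_congr rfl (fun b _ => h1 b), Finset.sum_add_distrib,
      sum_ite_one E (fun _ => v E), sum_ite_one L (fun _ => v L - v E)]
    ring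
  have hαle : ∀ b, α b ≤ (if begP b = (Fin.revPerm : Pm K) then v b else 0) := by
    intro b
    simp only [hα]
    by_cases h1 : b = E
    · subst h1
      rw [if_pos rfl, if_pos begP_e2]
    · rw [if_neg h1]
      by_cases h2 : b = L
      · subst h2
        rw [if_pos rfl, if_pos begP_rev]
        have := hv.1 E
        linarith
      · rw [if_neg h2]
        split_ifs
        · exact hv.1 _
        · exact le_rfl
  have hav : ∀ b, 0 < v b → Avoids {p123, p132} b := by
    intro b hb τ hτ
    refine avoids_of_pos hv hb τ ?_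
    rcases hτ with rfl | rfl
    · exact h123
    · exact h132
  obtain ⟨Q, h1, h2, h3, h4⟩ := coupling (Γ := Option (Pm K)) v hv.1
    (fun a => if a = L then none else some (endP a))
    (fun c b => match c with
      | none => α b
      | some ρ => (if begP b = ρ then v b else 0) -
          (if ρ = Fin.revPerm then α b else 0))
    (by
      intro c b
      rcases c with _ | ρ
      · exact hα0 b
      · simp only
        by_cases h1 : ρ = Fin.revPerm
        · subst h1
          rw [if_pos rfl]
          linarith [hαle b]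
        · rw [if_neg h1, sub_zero]
          split_ifs
          · exact hv.1 _
          · exact le_rfl)
    (by
      intro c
      rcases c with _ | ρ
      · simp only
        rw [hαsum]
        have h5 : ∀ a, (if (if a = L then none else some (endP a)) = (none : Option (Pm K))
            then v a else 0) = (if a = L then v a else 0) := by
          intro a
          by_cases ha : a = L
          · simp [ha]
          · simp [ha]
        rw [Finset.sum_congr rfl (fun a _ => h5 a), sum_ite_one]
      · simp only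
        rw [Finset.sum_sub_distrib, flow_eq hv ρ]
        have h5 : ∀ a, (if (if a = L then none else some (endP a)) = some ρ
            then v a else 0) = (if endP a = ρ then v a else 0) -
              (if ρ = Fin.revPerm then (if a = L then v a else 0) else 0) := by
          intro a
          by_cases ha : a = L
          · subst ha
            by_cases hρ : ρ = Fin.revPerm
            · subst hρ; simp [hL, endP_rev]
            · have : endP L ≠ ρ := fun h => hρ (by rw [← h]; exact endP_rev)
              simp [hρ, this]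
          · simp [ha]
        rw [Finset.sum_congr rfl (fun a _ => h5 a), Finset.sum_sub_distrib]
        congr 1
        by_cases hρ : ρ = Fin.revPerm
        · simp only [hρ, if_true]
          rw [hαsum, sum_ite_one]
        · simp [hρ])
    (by
      intro b
      rw [Fintype.sum_option]
      simp only
      rw [Finset.sum_sub_distrib]
      simp)
  refine ⟨Q, h1, h2, h3, fun a b hab => ?_⟩
  have h5 := h4 a b hab
  have hvb : 0 < v b := by
    rw [← h3 b]
    refine lt_of_lt_of_le hab ?_
    exact Finset.single_le_sum (f := fun a => Q a b) (fun a _ => h1 a b) (Finset.mem_univ a)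
  by_cases ha : a = L
  · subst ha
    simp only [if_true] at h5
    have hb : b = E ∨ b = L := by
      by_contra hc
      push Not at hc
      simp only [hα, if_neg hc.1, if_neg hc.2] at h5
      exact lt_irrefl _ h5
    refine ⟨ov_of_eq ?_, ?_⟩
    · rw [hL, endP_rev]
      rcases hb with h6 | h6
      · rw [h6]; exact begP_e2
      · rw [h6]; exact begP_rev
    · rintro ⟨h6, -⟩
      exact rev_ent (by omega) (by omega) h6
  · simp only [if_neg ha] at h5
    have hbeg : begP b = endP a := by
      by_contra hc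
      rw [if_neg hc] at h5
      have : 0 ≤ (if endP a = Fin.revPerm then α b else 0) := by
        split_ifs
        · exact hα0 b
        · exact le_rfl
      linarith
    refine ⟨ov_of_eq hbeg, ?_⟩
    rintro ⟨-, h6⟩
    have hbE : b = E := eq_e2 (hav b hvb) h6
    have hend : endP a = Fin.revPerm := by rw [← hbeg, hbE]; exact begP_e2
    rw [if_pos hbeg, if_pos hend] at h5
    simp only [hα, if_pos hbE] at h5
    rw [hbE] at h5
    linarith

theorem lower1 {K : ℕ} (hK : 1 ≤ K) {v : Pm (K + 1) → ℝ} (hv : v ∈ flowPolytope {p123, p132} K)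
    (hle : v (Fin.revPerm * finRotate (K + 1)) ≤ v Fin.revPerm) :
    v ∈ feasibleRegion {p123, p132} (K + 1) := by
  obtain ⟨Q, h1, h2, h3, h4⟩ := coupling1 hK hv (by simp) (by simp) hle
  refine machine v hv.1 hv.2.2.1 Q h1 h2 h3 RA1 loc1 (fun _ => True) trivial
    (fun _ _ _ _ => trivial) (fun l _ => ?_) ?_
  · obtain ⟨σ, h5, h6⟩ := real1 l
    exact ⟨σ, h5.1, h6⟩
  intro m f hf hpos
  have h5 := ov_ext f (fun a b => Ov a b ∧ ¬ (ent a 0 < ent a 1 ∧ ent b 0 < ent b K))
    (fun i => h4 _ _ (hf i))
  refine ⟨mkw (gTop f) (m + 1 + K), trivial, mkw_length _ _, walk1 hK f ?_ ?_ ?_⟩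
  · exact fun i hi => (h5 i hi).1
  · exact fun i hi => (h5 i hi).2
  · exact fun i => avoids_of_pos hv (hpos _)

theorem lower1' {K : ℕ} (hK : 1 ≤ K) {v : Pm (K + 1) → ℝ}
    (hv : v ∈ flowPolytope {p123, p132, p213} K)
    (hle : v (Fin.revPerm * finRotate (K + 1)) ≤ v Fin.revPerm) :
    v ∈ feasibleRegion {p123, p132, p213} (K + 1) := by
  obtain ⟨Q, h1, h2, h3, h4⟩ := coupling1 hK hv (by simp) (by simp) hle
  refine machine v hv.1 hv.2.2.1 Q h1 h2 h3 RA1 loc1 NoFF noFF_nil
    noFF_append (fun l hl => ?_) ?_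
  · obtain ⟨σ, h5, h6⟩ := real1 l
    exact ⟨σ, h5.2 hl, h6⟩
  intro m f hf hpos
  have h5 := ov_ext f (fun a b => Ov a b ∧ ¬ (ent a 0 < ent a 1 ∧ ent b 0 < ent b K))
    (fun i => h4 _ _ (hf i))
  have hav : ∀ i, Avoids {p123, p132, p213} (ext f i) := fun i => avoids_of_pos hv (hpos _)
  have hav' : ∀ i, Avoids {p123, p132} (ext f i) := by
    intro i τ hτ
    refine hav i τ ?_
    rcases hτ with h | h
    · left; exact h
    · right; left; exact h
  refine ⟨mkw (gTop f) (m + 1 + K), ?_, mkw_length _ _, walk1 hK f ?_ ?_ hav'⟩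
  · exact noFF_walk hK f (fun i hi => (h5 i hi).1) (fun i hi => (h5 i hi).2) hav
  · exact fun i hi => (h5 i hi).1
  · exact fun i hi => (h5 i hi).2

end Pool.Agent.Helper23.Feas
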