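import Pool.Agent.Helper23.Feas.Ent

set_option autoImplicit false

namespace Pool.Agent.Helper23.Feas

open Filter Topology

section markov
variable {X : Type} [Fintype X] [DecidableEq X]

/-- Stationary Markov measures: distributions on walks all of whose marginals are `v`. -/
theorem exists_walks (v : X → ℝ) (Q : X → X → ℝ) (hv0 : ∀ a, 0 ≤ v a)
    (hQ0 : ∀ a b, 0 ≤ Q a b) (hr : ∀ a, ∑ b, Q a b = v a) (hc : ∀ b, ∑ a, Q a b = v b) :
    ∀ m : ℕ, ∃ P : (Fin (m + 1) → X) → ℝ, (∀ f, 0 ≤ P f) ∧
      (∀ f, P f ≠ 0 → ∀ i : Fin m, 0 < Q (f i.castSucc) (f i.succ)) ∧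
      (∀ j a, ∑ f, (if f j = a then P f else 0) = v a) := by
  intro m
  induction m with
  | zero =>
    refine ⟨fun f => v (f 0), fun f => hv0 _, fun f _ i => i.elim0, fun j a => ?_⟩
    have hj : j = 0 := Fin.ext (by have := j.2; simp only [Fin.val_zero]; omega)
    subst hj
    rw [← (Equiv.funUnique (Fin 1) X).symm.sum_comp]
    simp
  | succ m ih =>
    obtain ⟨P, hP0, hPs, hPm⟩ := ih
    have hzero : ∀ f, v (f 0) = 0 → P f = 0 := by
      intro f hf
      have h1 := hPm 0 (f 0)
      rw [hf] at h1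
      have h2 := (Finset.sum_eq_zero_iff_of_nonneg (fun g _ => by
        split_ifs
        · exact hP0 g
        · exact le_refl _)).1 h1 f (Finset.mem_univ f)
      simpa using h2
    have hQz : ∀ a b, v b = 0 → Q a b = 0 := by
      intro a b hb
      have h1 := hc b
      rw [hb] at h1
      exact (Finset.sum_eq_zero_iff_of_nonneg (fun g _ => hQ0 g b)).1 h1 a (Finset.mem_univ a)
    have sum_cons : ∀ F : (Fin (m + 2) → X) → ℝ,
        ∑ f, F f = ∑ a : X, ∑ g : Fin (m + 1) → X, F (Fin.cons a g) := by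
      intro F
      rw [← (Fin.consEquiv (fun _ : Fin (m + 2) => X)).sum_comp, Fintype.sum_prod_type]
      rfl
    refine ⟨fun f => Q (f 0) (f 1) / v (f 1) * P (fun i => f i.succ), ?_, ?_, ?_⟩
    · intro f
      exact mul_nonneg (div_nonneg (hQ0 _ _) (hv0 _)) (hP0 _)
    · intro f hf i
      have h1 : P (fun i => f i.succ) ≠ 0 := right_ne_zero_of_mul hf
      have h2 : Q (f 0) (f 1) ≠ 0 := by
        intro h
        apply hf
        change Q (f 0) (f 1) / v (f 1) * P (fun i => f i.succ) = 0
        rw [h]; simp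
      refine Fin.cases ?_ (fun i => ?_) i
      · exact lt_of_le_of_ne (hQ0 _ _) (Ne.symm h2)
      · exact hPs _ h1 i
    · intro j c
      rw [sum_cons]
      refine Fin.cases ?_ (fun j => ?_) j
      · simp only [Fin.cons_zero, Fin.cons_one, Fin.cons_succ]
        rw [Finset.sum_eq_single c]
        · simp only [if_true]
          have h1 : ∀ g : Fin (m + 1) → X, Q c (g 0) / v (g 0) * P g =
              ∑ b, (Q c b / v b) * (if g 0 = b then P g else 0) := by
            intro g
            simp
          simp_rw [h1]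
          rw [Finset.sum_comm]
          simp_rw [← Finset.mul_sum, hPm]
          rw [← hr c]
          apply Finset.sum_congr rfl
          intro b _
          by_cases hb : v b = 0
          · rw [hb, hQz c b hb]; simp
          · field_simp
        · intro a _ ha
          simp [ha]
        · intro h; exact absurd (Finset.mem_univ _) h
      · simp only [Fin.cons_zero, Fin.cons_one, Fin.cons_succ]
        rw [Finset.sum_comm, ← hPm j c]
        apply Finset.sum_congr rfl
        intro g _
        by_cases hg : g j = c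
        · simp only [hg, if_true]
          rw [← Finset.sum_mul, ← Finset.sum_div, hc]
          by_cases hz : v (g 0) = 0
          · rw [hzero g hz]; simp
          · rw [div_self hz, one_mul]
        · simp [hg]

end markov

/-- `π` matches the window of the word `l` starting at `i`, for the comparison rule `Rl`. -/
def MatchAt (Rl : List Bool → ℕ → ℕ → Prop) {k : ℕ} (π : Pm k) (l : List Bool) (i : ℕ) : Prop :=
  i + k ≤ l.length ∧ ∀ a b : Fin k, a < b → (Rl l (i + a) (i + b) ↔ π a < π b)

noncomputable def cnt (Rl : List Bool → ℕ → ℕ → Prop) {k : ℕ} (π : Pm k) (l : List Bool) : ℕ :=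
  {i : ℕ | MatchAt Rl π l i}.ncard

theorem match_finite (Rl : List Bool → ℕ → ℕ → Prop) {k : ℕ} (π : Pm k) (l : List Bool) :
    {i : ℕ | MatchAt Rl π l i}.Finite :=
  (Set.finite_Iic l.length).subset (fun i hi => by
    have := hi.1
    simp only [Set.mem_Iic]; omega)

/-- locality of a comparison rule -/
structure LocalRule (Rl : List Bool → ℕ → ℕ → Prop) : Prop where
  left : ∀ (l1 l2 : List Bool) (a b : ℕ), a < b → b < l1.length →
    (Rl (l1 ++ l2) a b ↔ Rl l1 a b)
  right : ∀ (l1 l2 : List Bool) (a b : ℕ), a < b → b < l2.length →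
    (Rl (l1 ++ l2) (l1.length + a) (l1.length + b) ↔ Rl l2 a b)

theorem cnt_append {Rl : List Bool → ℕ → ℕ → Prop} (hR : LocalRule Rl) {k : ℕ} (π : Pm k)
    (l1 l2 : List Bool) (hk : 1 ≤ k) : cnt Rl π l1 + cnt Rl π l2 ≤ cnt Rl π (l1 ++ l2) := by
  unfold cnt
  have h1 : {i : ℕ | MatchAt Rl π l1 i} ∪ (fun i => l1.length + i) '' {i : ℕ | MatchAt Rl π l2 i}
      ⊆ {i : ℕ | MatchAt Rl π (l1 ++ l2) i} := by
    rintro i (hi | ⟨i, hi, rfl⟩)
    · refine ⟨by rw [List.length_append]; have := hi.1; omega, fun a b hab => ?_⟩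
      rw [hR.left _ _ _ _ (by rw [Fin.lt_def] at hab; omega) (by have := hi.1; have := b.2; omega)]
      exact hi.2 a b hab
    · refine ⟨by rw [List.length_append]; have := hi.1; simp only; omega, fun a b hab => ?_⟩
      simp only [Nat.add_assoc]
      rw [hR.right _ _ _ _ (by rw [Fin.lt_def] at hab; omega)
        (by have := hi.1; have := b.2; omega)]
      exact hi.2 a b hab
  refine le_trans (le_of_eq ?_) (Set.ncard_le_ncard h1 (match_finite Rl π _))
  rw [Set.ncard_union_eq _ (match_finite Rl π _) ((match_finite Rl π _).image _),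
    Set.ncard_image_of_injective _ (fun a b h => by simpa using h)]
  rw [Set.disjoint_left]
  rintro i hi ⟨j, hj, rfl⟩
  have := hi.1
  simp only at this
  omega

theorem cnt_flatten {Rl : List Bool → ℕ → ℕ → Prop} (hR : LocalRule Rl) {k : ℕ} (π : Pm k)
    (hk : 1 ≤ k) (L : List (List Bool)) : (L.map (fun l => cnt Rl π l)).sum ≤
      cnt Rl π L.flatten := by
  induction L with
  | nil => simp
  | cons l L ih =>
    rw [List.map_cons, List.sum_cons, List.flatten_cons]
    exact le_trans (Nat.add_le_add_left ih _) (cnt_append hR π _ _ hk)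

theorem sum_flatMap_replicate {α β : Type} (s : List α) (N : α → ℕ) (w : α → β) (g : β → ℕ) :
    ((s.flatMap (fun a => List.replicate (N a) (w a))).map g).sum =
      (s.map (fun a => N a * g (w a))).sum := by
  induction s with
  | nil => simp
  | cons a s ih =>
    rw [List.flatMap_cons, List.map_append, List.sum_append, ih]
    simp

/-- The general construction of elements of the feasible region. -/
theorem machine {B : Set (Pm 3)} {K : ℕ} (v : Pm (K + 1) → ℝ) (hv0 : ∀ π, 0 ≤ v π)
    (hv1 : ∑ π, v π = 1) (Q : Pm (K + 1) → Pm (K + 1) → ℝ) (hQ0 : ∀ a b, 0 ≤ Q a b)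
    (hr : ∀ a, ∑ b, Q a b = v a) (hc : ∀ b, ∑ a, Q a b = v b)
    (Rl : List Bool → ℕ → ℕ → Prop) (hR : LocalRule Rl) (L : List Bool → Prop) (hL0 : L [])
    (hL : ∀ l1 l2, L l1 → L l2 → L (l1 ++ l2))
    (real : ∀ l, L l → ∃ σ : Pm l.length, Avoids B σ ∧ ∀ i j, i < j → j < l.length →
      (ent σ i < ent σ j ↔ Rl l i j))
    (walk : ∀ (m : ℕ) (f : Fin (m + 1) → Pm (K + 1)),
      (∀ i : Fin m, 0 < Q (f i.castSucc) (f i.succ)) → (∀ i, 0 < v (f i)) →
      ∃ l, L l ∧ l.length = m + 1 + K ∧ ∀ i : Fin (m + 1), MatchAt Rl (f i) l i.1) :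
    v ∈ feasibleRegion B (K + 1) := by
  classical
  apply feas_of_lower (Nat.succ_pos K) v hv0 hv1
  intro ε hε N
  obtain ⟨m, hm⟩ := exists_nat_ge (2 * (K : ℝ) / ε)
  obtain ⟨P, hP0, hPs, hPm⟩ := exists_walks v Q hv0 hQ0 hr hc m
  have hPpos : ∀ f, P f ≠ 0 → ∀ i, 0 < v (f i) := by
    intro f hf i
    rw [← hPm i (f i)]
    refine lt_of_lt_of_le (lt_of_le_of_ne (hP0 f) (Ne.symm hf)) ?_
    have h1 := Finset.single_le_sum (f := fun g => if g i = f i then P g else 0)
      (fun g _ => by split_ifs; exacts [hP0 g, le_refl _]) (Finset.mem_univ f)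
    simpa using h1
  have hword : ∀ f : Fin (m + 1) → Pm (K + 1), ∃ l : List Bool, L l ∧
      (P f ≠ 0 → l.length = m + 1 + K ∧ ∀ i : Fin (m + 1), MatchAt Rl (f i) l i.1) := by
    intro f
    by_cases hf : P f = 0
    · exact ⟨[], hL0, fun h => absurd hf h⟩
    · obtain ⟨l, h1, h2, h3⟩ := walk m f (hPs f hf) (hPpos f hf)
      exact ⟨l, h1, fun _ => ⟨h2, h3⟩⟩
  choose w hwL hw using hword
  -- number of walks
  set F : ℕ := Fintype.card (Fin (m + 1) → Pm (K + 1)) with hF
  obtain ⟨T0, hT0⟩ := exists_nat_ge (2 * (F : ℝ) / ε)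
  set T : ℕ := T0 + F + N with hT
  set Nf : (Fin (m + 1) → Pm (K + 1)) → ℕ := fun f => ⌊(T : ℝ) * P f⌋₊ with hNf
  set LL : List (List Bool) := (Finset.univ : Finset (Fin (m + 1) → Pm (K + 1))).toList.flatMap
    (fun f => List.replicate (Nf f) (w f)) with hLL
  have hLflat : L LL.flatten := by
    have : ∀ M : List (List Bool), (∀ l ∈ M, L l) → L M.flatten := by
      intro M
      induction M with
      | nil => intro _; exact hL0
      | cons l M ih =>
        intro h
        rw [List.flatten_cons]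
        exact hL _ _ (h l (by simp)) (ih (fun l' hl' => h l' (by simp [hl'])))
    apply this
    intro l hl
    rw [hLL, List.mem_flatMap] at hl
    obtain ⟨f, -, hf⟩ := hl
    rw [(List.mem_replicate.1 hf).2]
    exact hwL f
  obtain ⟨σ, hσ, hcmp⟩ := real LL.flatten hLflat
  have hNz : ∀ f, P f = 0 → Nf f = 0 := fun f hf => by simp [hNf, hf]
  -- lengths
  have hlen : LL.flatten.length = ∑ f, Nf f * (m + 1 + K) := by
    rw [List.length_flatten, hLL, sum_flatMap_replicate, Finset.sum_map_toList]
    apply Finset.sum_congr rfl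
    intro f _
    by_cases hf : P f = 0
    · rw [hNz f hf]; simp
    · rw [(hw f hf).1]
  -- counts
  have hcount : ∀ π : Pm (K + 1), ∑ f, Nf f * (Finset.univ.filter (fun i => f i = π)).card ≤
      cocc π σ := by
    intro π
    have h1 : cnt Rl π LL.flatten = cocc π σ := by
      unfold cnt cocc
      congr 1
      ext i
      simp only [Set.mem_ofPred_eq]
      rw [occ_iff]
      constructor
      · rintro ⟨h1, h2⟩
        refine ⟨h1, fun a b => ?_⟩
        rcases lt_trichotomy a b with hab | hab | hab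
        · rw [← h2 a b hab, hcmp _ _ (by rw [Fin.lt_def] at hab; omega)
            (by have := b.2; omega)]
        · subst hab; simp
        · have h3 := h2 b a hab
          rw [← hcmp _ _ (by rw [Fin.lt_def] at hab; omega) (by have := a.2; omega)] at h3
          have h4 : ent σ (i + b) ≠ ent σ (i + a) := fun he => by
            have := ent_inj σ (by have := b.2; omega) (by have := a.2; omega) he
            rw [Fin.lt_def] at hab; omega
          have h5 : π b ≠ π a := fun he => hab.ne (π.injective he)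
          constructor
          · intro h6
            rcases lt_or_gt_of_ne h5 with h7 | h7
            · exact absurd (h3.2 h7) (by omega)
            · exact h7
          · intro h6
            rcases lt_or_gt_of_ne h4 with h7 | h7
            · exact absurd (h3.1 h7) (not_lt.2 h6.le)
            · exact h7
      · rintro ⟨h1, h2⟩
        refine ⟨h1, fun a b hab => ?_⟩
        rw [← h2 a b, hcmp _ _ (by rw [Fin.lt_def] at hab; omega) (by have := b.2; omega)]
    rw [← h1]
    refine le_trans ?_ (cnt_flatten hR π (Nat.succ_pos K) LL)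
    rw [hLL, sum_flatMap_replicate, Finset.sum_map_toList]
    apply Finset.sum_le_sum
    intro f _
    by_cases hf : P f = 0
    · rw [hNz f hf]; simp
    · apply Nat.mul_le_mul_left
      unfold cnt
      have h2 : ((Finset.univ.filter (fun i => f i = π)).image (fun i : Fin (m + 1) => i.1) :
          Set ℕ) ⊆ {i : ℕ | MatchAt Rl π (w f) i} := by
        intro i hi
        simp only [Finset.coe_image, Finset.coe_filter, Finset.mem_univ, true_and,
          Set.mem_image, Set.mem_ofPred_eq] at hi
        obtain ⟨j, hj, rfl⟩ := hi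
        rw [← hj]
        exact (hw f hf).2 j
      have h3 := Set.ncard_le_ncard h2 (match_finite Rl π _)
      rw [Set.ncard_coe_finset,
        Finset.card_image_of_injective _ Fin.val_injective] at h3
      exact h3
  -- sum of probabilities
  have hPsum : ∑ f, P f = 1 := by
    rw [← hv1]
    have h1 : ∀ f : Fin (m + 1) → Pm (K + 1), P f = ∑ a, (if f 0 = a then P f else 0) := by
      intro f
      rw [Finset.sum_ite_eq, if_pos (Finset.mem_univ _)]
    rw [Finset.sum_congr rfl (fun f _ => h1 f), Finset.sum_comm]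
    exact Finset.sum_congr rfl (fun a _ => hPm 0 a)
  have hNle : ∀ f, (Nf f : ℝ) ≤ T * P f := fun f =>
    Nat.floor_le (mul_nonneg (Nat.cast_nonneg _) (hP0 f))
  have hNge : ∀ f, (T : ℝ) * P f - 1 ≤ Nf f := fun f => (Nat.sub_one_lt_floor _).le
  have hTF : ∑ f : Fin (m + 1) → Pm (K + 1), ((T : ℝ) * P f - 1) = T - F := by
    rw [Finset.sum_sub_distrib, ← Finset.mul_sum, hPsum, Finset.sum_const, Finset.card_univ]
    simp [hF]
  have hn_le : (LL.flatten.length : ℝ) ≤ T * ((m : ℝ) + 1 + K) := by
    rw [hlen]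
    push_cast
    rw [← Finset.sum_mul]
    apply mul_le_mul_of_nonneg_right _ (by positivity)
    calc ∑ f, (Nf f : ℝ) ≤ ∑ f, (T : ℝ) * P f := Finset.sum_le_sum (fun f _ => hNle f)
      _ = T := by rw [← Finset.mul_sum, hPsum, mul_one]
  have hn_ge : N ≤ LL.flatten.length := by
    have h1 : (N : ℝ) ≤ LL.flatten.length := by
      rw [hlen]
      push_cast
      rw [← Finset.sum_mul]
      have h2 : (N : ℝ) ≤ ∑ f, (Nf f : ℝ) := by
        calc (N : ℝ) ≤ (T : ℝ) - F := by rw [hT]; push_cast; linarith [Nat.cast_nonneg (α := ℝ) T0]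
          _ = ∑ f : Fin (m + 1) → Pm (K + 1), ((T : ℝ) * P f - 1) := hTF.symm
          _ ≤ _ := Finset.sum_le_sum (fun f _ => hNge f)
      have h3 : (1 : ℝ) ≤ (m : ℝ) + 1 + K := by
        have := Nat.cast_nonneg (α := ℝ) m
        have := Nat.cast_nonneg (α := ℝ) K
        linarith
      have h4 : (0 : ℝ) ≤ ∑ f, (Nf f : ℝ) := Finset.sum_nonneg (fun f _ => Nat.cast_nonneg _)
      nlinarith
    exact_mod_cast h1
  refine ⟨LL.flatten.length, hn_ge, σ, hσ, fun π => ?_⟩
  by_cases hneg : v π - ε ≤ 0
  · exact le_trans (mul_nonpos_of_nonpos_of_nonneg hneg (Nat.cast_nonneg _)) (Nat.cast_nonneg _)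
  push Not at hneg
  have hcR : ∑ f, (Nf f : ℝ) * ((Finset.univ.filter (fun i => f i = π)).card : ℝ) ≤
      (cocc π σ : ℝ) := by exact_mod_cast hcount π
  refine le_trans ?_ hcR
  have hcard_le : ∀ f : Fin (m + 1) → Pm (K + 1),
      ((Finset.univ.filter (fun i => f i = π)).card : ℝ) ≤ (m : ℝ) + 1 := by
    intro f
    have := Finset.card_le_card (Finset.filter_subset (fun i => f i = π) Finset.univ)
    rw [Finset.card_univ, Fintype.card_fin] at this
    exact_mod_cast this
  have hexp : ∑ f, P f * ((Finset.univ.filter (fun i => f i = π)).card : ℝ) =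
      ((m : ℝ) + 1) * v π := by
    have h1 : ∀ f : Fin (m + 1) → Pm (K + 1),
        P f * ((Finset.univ.filter (fun i => f i = π)).card : ℝ) =
        ∑ i : Fin (m + 1), (if f i = π then P f else 0) := by
      intro f
      rw [← Finset.sum_filter, Finset.sum_const, nsmul_eq_mul, mul_comm]
    simp_rw [h1]
    rw [Finset.sum_comm]
    simp_rw [hPm]
    rw [Finset.sum_const, Finset.card_univ, Fintype.card_fin, nsmul_eq_mul]
    push_cast; ring
  have hlow : (T : ℝ) * (((m : ℝ) + 1) * v π) - F * ((m : ℝ) + 1) ≤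
      ∑ f, (Nf f : ℝ) * ((Finset.univ.filter (fun i => f i = π)).card : ℝ) := by
    calc (T : ℝ) * (((m : ℝ) + 1) * v π) - F * ((m : ℝ) + 1)
        ≤ ∑ f : Fin (m + 1) → Pm (K + 1), ((T : ℝ) * P f - 1) *
          ((Finset.univ.filter (fun i => f i = π)).card : ℝ) := by
          have h2 : ∑ f : Fin (m + 1) → Pm (K + 1), ((T : ℝ) * P f - 1) *
              ((Finset.univ.filter (fun i => f i = π)).card : ℝ) =
              T * (((m : ℝ) + 1) * v π) - ∑ f : Fin (m + 1) → Pm (K + 1),
                ((Finset.univ.filter (fun i => f i = π)).card : ℝ) := by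
            rw [← hexp, Finset.mul_sum, ← Finset.sum_sub_distrib]
            apply Finset.sum_congr rfl
            intro f _
            ring
          rw [h2]
          have h3 : ∑ f : Fin (m + 1) → Pm (K + 1),
              ((Finset.univ.filter (fun i => f i = π)).card : ℝ) ≤ F * ((m : ℝ) + 1) := by
            refine le_trans (Finset.sum_le_sum (fun f _ => hcard_le f)) ?_
            rw [Finset.sum_const, Finset.card_univ, nsmul_eq_mul]
          linarith
      _ ≤ _ := Finset.sum_le_sum (fun f _ =>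
          mul_le_mul_of_nonneg_right (hNge f) (Nat.cast_nonneg _))
  refine le_trans ?_ hlow
  have hvle : v π ≤ 1 := by
    rw [← hv1]; exact Finset.single_le_sum (fun ρ _ => hv0 ρ) (Finset.mem_univ π)
  have h5 : (v π - ε) * (LL.flatten.length : ℝ) ≤ (v π - ε) * (T * ((m : ℝ) + 1 + K)) :=
    mul_le_mul_of_nonneg_left hn_le hneg.le
  refine le_trans h5 ?_
  have hmR : 2 * (K : ℝ) ≤ ε * m := by
    rw [div_le_iff₀ hε] at hm; linarith
  have hTR : 2 * (F : ℝ) ≤ ε * T := by
    rw [div_le_iff₀ hε] at hT0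
    have h6 : (T0 : ℝ) ≤ T := by
      rw [hT]; push_cast
      have := Nat.cast_nonneg (α := ℝ) F
      have := Nat.cast_nonneg (α := ℝ) N
      linarith
    nlinarith
  have hTpos : (0 : ℝ) ≤ T := Nat.cast_nonneg _
  have hKpos : (0 : ℝ) ≤ K := Nat.cast_nonneg _
  have hmpos : (0 : ℝ) ≤ m := Nat.cast_nonneg _
  have hFpos : (0 : ℝ) ≤ F := Nat.cast_nonneg _
  have e1 : (T : ℝ) * (2 * K) ≤ T * (ε * m) := mul_le_mul_of_nonneg_left hmR hTpos
  have e2 : 2 * (F : ℝ) * ((m : ℝ) + 1) ≤ ε * T * ((m : ℝ) + 1) :=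
    mul_le_mul_of_nonneg_right hTR (by linarith)
  have e3 : v π * (T * K) ≤ 1 * (T * K) :=
    mul_le_mul_of_nonneg_right hvle (mul_nonneg hTpos hKpos)
  have e4 : 0 ≤ ε * T * K := by positivity
  have e5 : 0 ≤ ε * T := by positivity
  nlinarith [e1, e2, e3, e4, e5]

end Pool.Agent.Helper23.Feas
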