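import Pool.Agent.Helper23.Feas.Simple
import Pool.Agent.Helper23.Feas.Lower1

set_option autoImplicit false

namespace Pool.Agent.Helper23.Feas

open Filter Topology

@[simp] theorem ne_123_132 : (p123 = p132) ↔ False := by decide
@[simp] theorem ne_123_213 : (p123 = p213) ↔ False := by decide
@[simp] theorem ne_123_231 : (p123 = p231) ↔ False := by decide
@[simp] theorem ne_123_312 : (p123 = p312) ↔ False := by decide
@[simp] theorem ne_123_321 : (p123 = p321) ↔ False := by decide
@[simp] theorem ne_132_123 : (p132 = p123) ↔ False := by decide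
@[simp] theorem ne_132_213 : (p132 = p213) ↔ False := by decide
@[simp] theorem ne_132_231 : (p132 = p231) ↔ False := by decide
@[simp] theorem ne_132_312 : (p132 = p312) ↔ False := by decide
@[simp] theorem ne_132_321 : (p132 = p321) ↔ False := by decide
@[simp] theorem ne_213_123 : (p213 = p123) ↔ False := by decide
@[simp] theorem ne_213_132 : (p213 = p132) ↔ False := by decide
@[simp] theorem ne_213_231 : (p213 = p231) ↔ False := by decide
@[simp] theorem ne_213_312 : (p213 = p312) ↔ False := by decide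
@[simp] theorem ne_213_321 : (p213 = p321) ↔ False := by decide
@[simp] theorem ne_231_123 : (p231 = p123) ↔ False := by decide
@[simp] theorem ne_231_132 : (p231 = p132) ↔ False := by decide
@[simp] theorem ne_231_213 : (p231 = p213) ↔ False := by decide
@[simp] theorem ne_231_312 : (p231 = p312) ↔ False := by decide
@[simp] theorem ne_231_321 : (p231 = p321) ↔ False := by decide
@[simp] theorem ne_312_123 : (p312 = p123) ↔ False := by decide
@[simp] theorem ne_312_132 : (p312 = p132) ↔ False := by decide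
@[simp] theorem ne_312_213 : (p312 = p213) ↔ False := by decide
@[simp] theorem ne_312_231 : (p312 = p231) ↔ False := by decide
@[simp] theorem ne_312_321 : (p312 = p321) ↔ False := by decide
@[simp] theorem ne_321_123 : (p321 = p123) ↔ False := by decide
@[simp] theorem ne_321_132 : (p321 = p132) ↔ False := by decide
@[simp] theorem ne_321_213 : (p321 = p213) ↔ False := by decide
@[simp] theorem ne_321_231 : (p321 = p231) ↔ False := by decide
@[simp] theorem ne_321_312 : (p321 = p312) ↔ False := by decide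

theorem all_six (τ : Pm 3) :
    τ = p123 ∨ τ = p132 ∨ τ = p213 ∨ τ = p231 ∨ τ = p312 ∨ τ = p321 := by
  revert τ; decide

theorem set_eq {B B' : Set (Pm 3)} (h1 : p123 ∈ B ↔ p123 ∈ B') (h2 : p132 ∈ B ↔ p132 ∈ B')
    (h3 : p213 ∈ B ↔ p213 ∈ B') (h4 : p231 ∈ B ↔ p231 ∈ B') (h5 : p312 ∈ B ↔ p312 ∈ B')
    (h6 : p321 ∈ B ↔ p321 ∈ B') : B = B' := by
  ext τ
  rcases all_six τ with rfl | rfl | rfl | rfl | rfl | rfl <;> assumption

theorem set_sub {B B' : Set (Pm 3)} (h1 : p123 ∈ B → p123 ∈ B') (h2 : p132 ∈ B → p132 ∈ B')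
    (h3 : p213 ∈ B → p213 ∈ B') (h4 : p231 ∈ B → p231 ∈ B') (h5 : p312 ∈ B → p312 ∈ B')
    (h6 : p321 ∈ B → p321 ∈ B') : B ⊆ B' := by
  intro τ
  rcases all_six τ with rfl | rfl | rfl | rfl | rfl | rfl <;> assumption

def revV {k : ℕ} (v : Pm k → ℝ) : Pm k → ℝ := fun π => v (π * Fin.revPerm)
def compV {k : ℕ} (v : Pm k → ℝ) : Pm k → ℝ := fun π => v (Fin.revPerm * π)

theorem revV_revV {k : ℕ} (v : Pm k → ℝ) : revV (revV v) = v := by
  ext π; simp only [revV, mul_assoc, rev_rev, mul_one]

theorem compV_compV {k : ℕ} (v : Pm k → ℝ) : compV (compV v) = v := by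
  ext π; simp only [compV, ← mul_assoc, rev_rev, one_mul]

theorem feas_revV {B B' : Set (Pm 3)} (hB : ∀ τ, τ ∈ B' → τ * Fin.revPerm ∈ B) {k : ℕ}
    {v : Pm k → ℝ} (hv : v ∈ feasibleRegion B k) : revV v ∈ feasibleRegion B' k :=
  feas_anti hB (feas_rev hv)

theorem feas_compV {B B' : Set (Pm 3)} (hB : ∀ τ, τ ∈ B' → Fin.revPerm * τ ∈ B) {k : ℕ}
    {v : Pm k → ℝ} (hv : v ∈ feasibleRegion B k) : compV v ∈ feasibleRegion B' k :=
  feas_anti hB (feas_comp hv)

theorem flow_anti {B B' : Set (Pm 3)} (h : B' ⊆ B) {K : ℕ} :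
    flowPolytope B K ⊆ flowPolytope B' K := by
  rintro v ⟨h0, h1, h2, h3⟩
  refine ⟨h0, fun π hπ => h1 π (fun hav => hπ (fun τ hτ => hav τ (h hτ))), h2, h3⟩

theorem flow_revV {B B' : Set (Pm 3)} (hB : ∀ τ, τ ∈ B' → τ * Fin.revPerm ∈ B) {K : ℕ}
    {v : Pm (K + 1) → ℝ} (hv : v ∈ flowPolytope B K) : revV v ∈ flowPolytope B' K :=
  flow_anti hB (flow_rev hv)

theorem flow_compV {B B' : Set (Pm 3)} (hB : ∀ τ, τ ∈ B' → Fin.revPerm * τ ∈ B) {K : ℕ}
    {v : Pm (K + 1) → ℝ} (hv : v ∈ flowPolytope B K) : compV v ∈ flowPolytope B' K :=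
  flow_anti hB (flow_comp hv)

theorem lower3R {K : ℕ} : flowPolytope {p132, p213} K ⊆ feasibleRegion {p132, p213} (K + 1) := by
  intro v hv
  have h1 : revV v ∈ flowPolytope {p231, p312} K := flow_revV (by simp only [Set.mem_insert_iff, Set.mem_singleton_iff]; decide) hv
  have h2 : revV (revV v) ∈ feasibleRegion {p132, p213} (K + 1) :=
    feas_revV (by simp only [Set.mem_insert_iff, Set.mem_singleton_iff]; decide) (lower3 h1)
  rwa [revV_revV] at h2

theorem lower5R {K : ℕ} : flowPolytope {p132, p312} K ⊆ feasibleRegion {p132, p312} (K + 1) := by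
  intro v hv
  have h1 : revV v ∈ flowPolytope {p213, p231} K := flow_revV (by simp only [Set.mem_insert_iff, Set.mem_singleton_iff]; decide) hv
  have h2 : revV (revV v) ∈ feasibleRegion {p132, p312} (K + 1) :=
    feas_revV (by simp only [Set.mem_insert_iff, Set.mem_singleton_iff]; decide) (lower5 h1)
  rwa [revV_revV] at h2

theorem flow0 {B : Set (Pm 3)} {v : Pm (0 + 1) → ℝ} (hv : v ∈ flowPolytope B 0) :
    v = eInc (0 + 1) := by
  classical
  have hsub : ∀ π : Pm (0 + 1), π = 1 := by
    intro π
    ext i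
    have h1 := (π i).2
    have h2 := ((1 : Pm (0 + 1)) i).2
    omega
  have hsum := hv.2.2.1
  rw [Finset.sum_eq_single (1 : Pm (0 + 1)) (fun b _ hb => absurd (hsub b) hb)
    (fun h => absurd (Finset.mem_univ _) h)] at hsum
  ext π
  rw [hsub π, hsum]
  simp [eInc]

theorem eInc0 : eInc (0 + 1) = eDec (0 + 1) := by
  unfold eInc eDec
  rw [one_eq_rev]

theorem L1 {K : ℕ} {v : Pm (K + 1) → ℝ} (hv : v ∈ flowPolytope {p123, p132} K)
    (hle : v (Fin.revPerm * finRotate (K + 1)) ≤ v Fin.revPerm) :
    v ∈ feasibleRegion {p123, p132} (K + 1) := by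
  rcases Nat.eq_zero_or_pos K with h | h
  · subst h
    rw [flow0 hv, eInc0]
    apply eDec_lower
    simp only [Set.mem_insert_iff, Set.mem_singleton_iff]; decide
  · exact lower1 h hv hle

theorem L1' {K : ℕ} {v : Pm (K + 1) → ℝ} (hv : v ∈ flowPolytope {p123, p132, p213} K)
    (hle : v (Fin.revPerm * finRotate (K + 1)) ≤ v Fin.revPerm) :
    v ∈ feasibleRegion {p123, p132, p213} (K + 1) := by
  rcases Nat.eq_zero_or_pos K with h | h
  · subst h
    rw [flow0 hv, eInc0]
    apply eDec_lower
    simp only [Set.mem_insert_iff, Set.mem_singleton_iff]; decide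
  · exact lower1' h hv hle

theorem rev_rot_rev {K : ℕ} : Fin.revPerm * finRotate (K + 1) * Fin.revPerm =
    (finRotate (K + 1))⁻¹ := by
  apply eq_inv_of_mul_eq_one_left
  ext i
  simp only [Equiv.Perm.coe_mul, Function.comp_apply, Fin.revPerm_apply, Equiv.Perm.coe_one, id_eq]
  have hi := i.2
  rcases Nat.lt_or_ge i.1 K with h | h
  · have e1 : finRotate (K + 1) i = ⟨i.1 + 1, by omega⟩ := rot_lt h
    have e2 : Fin.rev (⟨i.1 + 1, by omega⟩ : Fin (K + 1)) = ⟨K - i.1 - 1, by omega⟩ := by
      apply Fin.ext; simp only [Fin.val_rev]; omega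
    have e3 : finRotate (K + 1) ⟨K - i.1 - 1, by omega⟩ = ⟨K - i.1 - 1 + 1, by omega⟩ :=
      rot_lt (by omega)
    rw [e1, e2, e3]
    simp only [Fin.val_rev]
    omega
  · have e0 : i = ⟨K, by omega⟩ := Fin.ext (by simp only; omega)
    have e2 : Fin.rev (⟨0, by omega⟩ : Fin (K + 1)) = ⟨K, by omega⟩ := by
      apply Fin.ext; simp only [Fin.val_rev]; omega
    rw [e0, rot_last, e2, rot_last, e2]

/-- reverse of `{123, 132}` -/
theorem L1R {K : ℕ} {v : Pm (K + 1) → ℝ} (hv : v ∈ flowPolytope {p231, p321} K)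
    (hle : v (finRotate (K + 1))⁻¹ ≤ v 1) : v ∈ feasibleRegion {p231, p321} (K + 1) := by
  have h1 : revV v ∈ flowPolytope {p123, p132} K := flow_revV (by simp only [Set.mem_insert_iff, Set.mem_singleton_iff]; decide) hv
  have h2 : revV (revV v) ∈ feasibleRegion {p231, p321} (K + 1) :=
    feas_revV (by simp only [Set.mem_insert_iff, Set.mem_singleton_iff]; decide) (L1 h1 (by
      simp only [revV, rev_rot_rev, rev_rev]; exact hle))
  rwa [revV_revV] at h2

theorem L1R' {K : ℕ} {v : Pm (K + 1) → ℝ} (hv : v ∈ flowPolytope {p231, p312, p321} K)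
    (hle : v (finRotate (K + 1))⁻¹ ≤ v 1) : v ∈ feasibleRegion {p231, p312, p321} (K + 1) := by
  have h1 : revV v ∈ flowPolytope {p123, p132, p213} K := flow_revV (by simp only [Set.mem_insert_iff, Set.mem_singleton_iff]; decide) hv
  have h2 : revV (revV v) ∈ feasibleRegion {p231, p312, p321} (K + 1) :=
    feas_revV (by simp only [Set.mem_insert_iff, Set.mem_singleton_iff]; decide) (L1' h1 (by
      simp only [revV, rev_rot_rev, rev_rev]; exact hle))
  rwa [revV_revV] at h2

/-- complement of `{123, 132}` -/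
theorem L1C {K : ℕ} {v : Pm (K + 1) → ℝ} (hv : v ∈ flowPolytope {p312, p321} K)
    (hle : v (finRotate (K + 1)) ≤ v 1) : v ∈ feasibleRegion {p312, p321} (K + 1) := by
  have h1 : compV v ∈ flowPolytope {p123, p132} K := flow_compV (by simp only [Set.mem_insert_iff, Set.mem_singleton_iff]; decide) hv
  have h2 : compV (compV v) ∈ feasibleRegion {p312, p321} (K + 1) :=
    feas_compV (by simp only [Set.mem_insert_iff, Set.mem_singleton_iff]; decide) (L1 h1 (by
      simp only [compV, ← mul_assoc, rev_rev, one_mul]; exact hle))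
  rwa [compV_compV] at h2

/-- reverse-complement of `{123, 132}` -/
theorem L1RC {K : ℕ} {v : Pm (K + 1) → ℝ} (hv : v ∈ flowPolytope {p123, p213} K)
    (hle : v (finRotate (K + 1) * Fin.revPerm) ≤ v Fin.revPerm) :
    v ∈ feasibleRegion {p123, p213} (K + 1) := by
  have h1 : revV v ∈ flowPolytope {p312, p321} K := flow_revV (by simp only [Set.mem_insert_iff, Set.mem_singleton_iff]; decide) hv
  have h2 : revV (revV v) ∈ feasibleRegion {p123, p213} (K + 1) :=
    feas_revV (by simp only [Set.mem_insert_iff, Set.mem_singleton_iff]; decide) (L1C h1 (by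
      simp only [revV, one_mul]; exact hle))
  rwa [revV_revV] at h2

/-! upper bounds -/

section upper
variable {B : Set (Pm 3)} {K : ℕ} {v : Pm (K + 1) → ℝ}

theorem mem_of_eq {τ τ' : Pm 3} (h : τ ∈ B) (e : τ' = τ) : τ' ∈ B := e ▸ h

theorem up_inc1 (h1 : p321 ∈ B) (h2 : p132 ∈ B) (hv : v ∈ feasibleRegion B (K + 1)) :
    v = eInc (K + 1) := by
  have h3 := upper_123_231 (mem_of_eq (τ' := p123 * Fin.revPerm) h1 (by decide))
    (mem_of_eq (τ' := p231 * Fin.revPerm) h2 (by decide)) (feas_rev hv)
  have h4 : revV (revV v) = revV (eDec (K + 1)) := congrArg revV h3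
  rw [revV_revV] at h4
  rw [h4]
  exact eDec_rev

theorem up_inc2 (h1 : p321 ∈ B) (h2 : p213 ∈ B) (hv : v ∈ feasibleRegion B (K + 1)) :
    v = eInc (K + 1) := by
  have h3 := upper_123_231 (mem_of_eq (τ' := Fin.revPerm * p123) h1 (by decide))
    (mem_of_eq (τ' := Fin.revPerm * p231) h2 (by decide)) (feas_comp hv)
  have h4 : compV (compV v) = compV (eDec (K + 1)) := congrArg compV h3
  rw [compV_compV] at h4
  rw [h4]
  exact eDec_comp

theorem up_dec2 (h1 : p123 ∈ B) (h2 : p312 ∈ B) (hv : v ∈ feasibleRegion B (K + 1)) :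
    v = eDec (K + 1) := by
  have h3 := up_inc2 (mem_of_eq (τ' := p321 * Fin.revPerm) h1 (by decide))
    (mem_of_eq (τ' := p213 * Fin.revPerm) h2 (by decide)) (feas_rev hv)
  have h4 : revV (revV v) = revV (eInc (K + 1)) := congrArg revV h3
  rw [revV_revV] at h4
  rw [h4]
  exact eInc_rev

theorem up_ineqR (h1 : p321 ∈ B) (hv : v ∈ feasibleRegion B (K + 1)) :
    v (finRotate (K + 1))⁻¹ ≤ v 1 := by
  have h3 := upper_ineq1 (mem_of_eq (τ' := p123 * Fin.revPerm) h1 (by decide)) (feas_rev hv)
  simp only [rev_rot_rev, rev_rev] at h3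
  exact h3

theorem up_ineqC (h1 : p321 ∈ B) (hv : v ∈ feasibleRegion B (K + 1)) :
    v (finRotate (K + 1)) ≤ v 1 := by
  have h3 := upper_ineq1 (mem_of_eq (τ' := Fin.revPerm * p123) h1 (by decide)) (feas_comp hv)
  simp only [← mul_assoc, rev_rev, one_mul] at h3
  exact h3

theorem up_ineqRC (h1 : p123 ∈ B) (hv : v ∈ feasibleRegion B (K + 1)) :
    v (finRotate (K + 1) * Fin.revPerm) ≤ v Fin.revPerm := by
  have h3 := up_ineqC (mem_of_eq (τ' := p321 * Fin.revPerm) h1 (by decide)) (feas_rev hv)
  simp only [one_mul] at h3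
  exact h3

end upper

theorem seg_revV {K : ℕ} {v : Pm (K + 1) → ℝ}
    (hv : v ∈ segment ℝ (eInc (K + 1)) (eDec (K + 1))) :
    revV v ∈ segment ℝ (eInc (K + 1)) (eDec (K + 1)) := by
  obtain ⟨s, t, hs, ht, hst, rfl⟩ := hv
  refine ⟨t, s, ht, hs, by rw [add_comm]; exact hst, ?_⟩
  have e1 : revV (s • eInc (K + 1) + t • eDec (K + 1)) =
      s • revV (eInc (K + 1)) + t • revV (eDec (K + 1)) := rfl
  have e2 : revV (eInc (K + 1)) = eDec (K + 1) := eInc_rev
  have e3 : revV (eDec (K + 1)) = eInc (K + 1) := eDec_rev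
  rw [e1, e2, e3]
  exact add_comm _ _

theorem seg_compV {K : ℕ} {v : Pm (K + 1) → ℝ}
    (hv : v ∈ segment ℝ (eInc (K + 1)) (eDec (K + 1))) :
    compV v ∈ segment ℝ (eInc (K + 1)) (eDec (K + 1)) := by
  obtain ⟨s, t, hs, ht, hst, rfl⟩ := hv
  refine ⟨t, s, ht, hs, by rw [add_comm]; exact hst, ?_⟩
  have e1 : compV (s • eInc (K + 1) + t • eDec (K + 1)) =
      s • compV (eInc (K + 1)) + t • compV (eDec (K + 1)) := rfl
  have e2 : compV (eInc (K + 1)) = eDec (K + 1) := eInc_comp
  have e3 : compV (eDec (K + 1)) = eInc (K + 1) := eDec_comp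
  rw [e1, e2, e3]
  exact add_comm _ _

theorem segR {K : ℕ} : segment ℝ (eInc (K + 1)) (eDec (K + 1)) ⊆
    feasibleRegion {p132, p231, p312} (K + 1) := by
  intro v hv
  have h2 : revV (revV v) ∈ feasibleRegion {p132, p231, p312} (K + 1) :=
    feas_revV (by simp only [Set.mem_insert_iff, Set.mem_singleton_iff]; decide) (seg_lower (seg_revV hv))
  rwa [revV_revV] at h2

theorem segC {K : ℕ} : segment ℝ (eInc (K + 1)) (eDec (K + 1)) ⊆
    feasibleRegion {p213, p231, p312} (K + 1) := by
  intro v hv
  have h2 : compV (compV v) ∈ feasibleRegion {p213, p231, p312} (K + 1) :=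
    feas_compV (by simp only [Set.mem_insert_iff, Set.mem_singleton_iff]; decide) (seg_lower (seg_compV hv))
  rwa [compV_compV] at h2

theorem segRC {K : ℕ} : segment ℝ (eInc (K + 1)) (eDec (K + 1)) ⊆
    feasibleRegion {p132, p213, p312} (K + 1) := by
  intro v hv
  have h2 : compV (compV v) ∈ feasibleRegion {p132, p213, p312} (K + 1) :=
    feas_compV (by simp only [Set.mem_insert_iff, Set.mem_singleton_iff]; decide) (segR (seg_compV hv))
  rwa [compV_compV] at h2

theorem up_seg2 {B : Set (Pm 3)} {K : ℕ} {v : Pm (K + 1) → ℝ} (h1 : p213 ∈ B) (h2 : p312 ∈ B)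
    (hv : v ∈ feasibleRegion B (K + 1)) : v ∈ segment ℝ (eInc (K + 1)) (eDec (K + 1)) := by
  have h3 := upper_132_231 (mem_of_eq (τ' := Fin.revPerm * p132) h2 (by decide))
    (mem_of_eq (τ' := Fin.revPerm * p231) h1 (by decide)) (feas_comp hv)
  have h4 : compV (compV v) ∈ segment ℝ (eInc (K + 1)) (eDec (K + 1)) := seg_compV h3
  rwa [compV_compV] at h4

/-- The main theorem. -/
theorem main (B : Set (Pm 3)) (hB : 2 ≤ B.ncard) (K : ℕ) :
    feasibleRegion B (K + 1) = region B K := by
  have hnot : ∀ τ : Pm 3, B ≠ {τ} := by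
    rintro τ rfl
    rw [Set.ncard_singleton] at hB
    omega
  have hnot0 : B ≠ ∅ := by
    rintro rfl
    rw [Set.ncard_empty] at hB
    omega
  unfold region
  split_ifs with c1 c2 c3 c4 c5 c6 c7 c8 c9
  · exact feas_empty c1.1 c1.2 _
  · -- 123 with 231 or 312
    have c321 : p321 ∉ B := fun h => c1 ⟨c2, h⟩
    apply Set.Subset.antisymm
    · intro v hv
      rcases c3 with h | h
      · exact upper_123_231 c2 h hv
      · exact up_dec2 c2 h hv
    · rintro v rfl
      exact eDec_lower c321
  · -- 123, 132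
    have c321 : p321 ∉ B := fun h => c1 ⟨c2, h⟩
    push Not at c3
    apply Set.Subset.antisymm
    · intro v hv
      exact ⟨feas_flow hv, upper_ineq1 c2 hv⟩
    · rintro v ⟨hv, hle⟩
      by_cases h213 : p213 ∈ B
      · have e : B = {p123, p132, p213} := by
          apply set_eq <;> simp [*]
        rw [e] at hv ⊢
        exact L1' hv hle
      · have e : B = {p123, p132} := by
          apply set_eq <;> simp [*]
        rw [e] at hv ⊢
        exact L1 hv hle
  · -- 123, 213
    have c321 : p321 ∉ B := fun h => c1 ⟨c2, h⟩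
    push Not at c3
    have h213 : p213 ∈ B := by
      by_contra h
      apply hnot p123
      apply set_eq <;> simp [*]
    apply Set.Subset.antisymm
    · intro v hv
      exact ⟨feas_flow hv, up_ineqRC c2 hv⟩
    · rintro v ⟨hv, hle⟩
      have e : B = {p123, p213} := by
        apply set_eq <;> simp [*]
      rw [e] at hv ⊢
      exact L1RC hv hle
  · -- 321 with 132 or 213
    apply Set.Subset.antisymm
    · intro v hv
      rcases c6 with h | h
      · exact up_inc1 c5 h hv
      · exact up_inc2 c5 h hv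
    · rintro v rfl
      exact eInc_lower c2
  · -- 321, 231
    push Not at c6
    apply Set.Subset.antisymm
    · intro v hv
      exact ⟨feas_flow hv, up_ineqR c5 hv⟩
    · rintro v ⟨hv, hle⟩
      by_cases h312 : p312 ∈ B
      · have e : B = {p231, p312, p321} := by
          apply set_eq <;> simp [*]
        rw [e] at hv ⊢
        exact L1R' hv hle
      · have e : B = {p231, p321} := by
          apply set_eq <;> simp [*]
        rw [e] at hv ⊢
        exact L1R hv hle
  · -- 321, 312
    push Not at c6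
    have h312 : p312 ∈ B := by
      by_contra h
      apply hnot p321
      apply set_eq <;> simp [*]
    apply Set.Subset.antisymm
    · intro v hv
      exact ⟨feas_flow hv, up_ineqC c5 hv⟩
    · rintro v ⟨hv, hle⟩
      have e : B = {p312, p321} := by
        apply set_eq <;> simp [*]
      rw [e] at hv ⊢
      exact L1C hv hle
  · -- all four
    obtain ⟨h1, h2, h3, h4⟩ := c8
    apply Set.Subset.antisymm
    · intro v hv
      exact upper_four h1 h2 h3 h4 hv
    · rintro v (rfl | rfl)
      · exact eInc_lower c2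
      · exact eDec_lower c5
  · -- segments
    apply Set.Subset.antisymm
    · intro v hv
      rcases c9 with h | h
      · exact upper_132_231 h.1 h.2 hv
      · exact up_seg2 h.1 h.2 hv
    · intro v hv
      by_cases h1 : p132 ∈ B
      · by_cases h2 : p213 ∈ B
        · by_cases h3 : p231 ∈ B
          · have h4 : p312 ∉ B := fun h4 => c8 ⟨h1, h2, h3, h4⟩
            refine feas_anti ?_ (seg_lower hv)
            apply set_sub <;> simp [*]
          · refine feas_anti ?_ (segRC hv)
            apply set_sub <;> simp [*]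
        · refine feas_anti ?_ (segR hv)
          apply set_sub <;> simp [*]
      · refine feas_anti ?_ (segC hv)
        apply set_sub <;> simp [*]
  · -- full polytopes
    apply Set.Subset.antisymm
    · intro v hv
      exact feas_flow hv
    · intro v hv
      by_cases h1 : p132 ∈ B
      · have h3 : p231 ∉ B := fun h => c9 (Or.inl ⟨h1, h⟩)
        by_cases h2 : p213 ∈ B
        · have h4 : p312 ∉ B := fun h => c9 (Or.inr ⟨h2, h⟩)
          have e : B = {p132, p213} := by
            apply set_eq <;> simp [*]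
          rw [e] at hv ⊢
          exact lower3R hv
        · by_cases h4 : p312 ∈ B
          · have e : B = {p132, p312} := by
              apply set_eq <;> simp [*]
            rw [e] at hv ⊢
            exact lower5R hv
          · exfalso
            apply hnot p132
            apply set_eq <;> simp [*]
      · by_cases h3 : p231 ∈ B
        · by_cases h2 : p213 ∈ B
          · have h4 : p312 ∉ B := fun h => c9 (Or.inr ⟨h2, h⟩)
            have e : B = {p213, p231} := by
              apply set_eq <;> simp [*]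
            rw [e] at hv ⊢
            exact lower5 hv
          · by_cases h4 : p312 ∈ B
            · have e : B = {p231, p312} := by
                apply set_eq <;> simp [*]
              rw [e] at hv ⊢
              exact lower3 hv
            · exfalso
              apply hnot p231
              apply set_eq <;> simp [*]
        · exfalso
          by_cases h2 : p213 ∈ B
          · have h4 : p312 ∉ B := fun h => c9 (Or.inr ⟨h2, h⟩)
            apply hnot p213
            apply set_eq <;> simp [*]
          · by_cases h4 : p312 ∈ B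
            · apply hnot p312
              apply set_eq <;> simp [*]
            · apply hnot0
              apply set_eq <;> simp [*]

end Pool.Agent.Helper23.Feas
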