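import Pool.Agent.Helper23.Feas.Sym

set_option autoImplicit false

namespace Pool.Agent.Helper23.Feas

open Filter Topology

theorem ent_ne0 {n : ℕ} (x : Pm n) {p q : ℕ} (hpq : p < q) (hq : q < n) :
    ent x p ≠ ent x q := by
  intro he
  have := ent_inj x (by omega) hq he
  omega

/-- the `j` first entries decrease from `n - 1`, the remaining ones increase from `0` -/
theorem exists_vee (n j : ℕ) : ∃ σ : Pm n, ∀ a b, a < b → b < n →
    (ent σ a < ent σ b ↔ j ≤ a) := by
  obtain ⟨σ, hσ⟩ := exists_perm (n := n)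
    (fun i => if i.1 < j then 2 * (n : ℤ) - i.1 else (i.1 : ℤ)) (by
      intro a b hab
      have ha := a.2
      have hb := b.2
      simp only at hab
      apply Fin.ext
      split_ifs at hab <;> omega)
  refine ⟨σ, fun a b hab hb => ?_⟩
  rw [ent_lt_iff σ (by omega) hb, hσ]
  simp only
  split_ifs <;> omega

theorem vee_av {n j : ℕ} {σ : Pm n} (h : ∀ a b, a < b → b < n → (ent σ a < ent σ b ↔ j ≤ a)) :
    Avoids {p132, p213, p231} σ := by
  rintro τ (rfl | rfl | rfl)
  · apply not_contains3
    rintro a b c hab hbc hc ⟨h1, h2, h3⟩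
    have g1 := (h a b hab (by omega)).1 (h1.2 (by decide))
    have g3 : ¬ j ≤ b := fun hj => absurd (h3.1 ((h b c hbc hc).2 hj)) (by decide)
    omega
  · apply not_contains3
    rintro a b c hab hbc hc ⟨h1, h2, h3⟩
    have g1 : ¬ j ≤ a := fun hj => absurd (h1.1 ((h a b hab (by omega)).2 hj)) (by decide)
    have g2 := (h a c (by omega) hc).1 (h2.2 (by decide))
    omega
  · apply not_contains3
    rintro a b c hab hbc hc ⟨h1, h2, h3⟩
    have g1 := (h a b hab (by omega)).1 (h1.2 (by decide))
    have g2 : ¬ j ≤ a := fun hj => absurd (h2.1 ((h a c (by omega) hc).2 hj)) (by decide)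
    omega

theorem vee_inc {n j k : ℕ} {σ : Pm n} (h : ∀ a b, a < b → b < n → (ent σ a < ent σ b ↔ j ≤ a)) :
    n + 1 - k - j ≤ cocc (1 : Pm k) σ := by
  unfold cocc
  have hsub : ((Finset.Ico j (n + 1 - k) : Finset ℕ) : Set ℕ) ⊆
      {i : ℕ | OccAt (1 : Pm k) σ i} := by
    intro i hi
    simp only [Finset.coe_Ico, Set.mem_Ico] at hi
    change OccAt _ _ _
    rw [occ_iff]
    refine ⟨by omega, fun a b => ?_⟩
    simp only [Equiv.Perm.coe_one, id_eq]
    have ha := a.2
    have hb := b.2
    rcases lt_trichotomy a.1 b.1 with h1 | h1 | h1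
    · rw [h (i + a) (i + b) (by omega) (by omega)]
      exact iff_of_true (by omega) h1
    · have : a = b := Fin.ext h1
      subst this; simp
    · have h2 := (h (i + b) (i + a) (by omega) (by omega)).2 (by omega)
      exact iff_of_false (by omega) (by rw [Fin.lt_def]; omega)
  have h1 := Set.ncard_le_ncard hsub (occ_finite _ _)
  rw [Set.ncard_coe_finset, Nat.card_Ico] at h1
  exact h1

theorem vee_dec {n j k : ℕ} (hj : j ≤ n) {σ : Pm n}
    (h : ∀ a b, a < b → b < n → (ent σ a < ent σ b ↔ j ≤ a)) :
    j + 1 - k ≤ cocc (Fin.revPerm : Pm k) σ := by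
  unfold cocc
  have hsub : ((Finset.range (j + 1 - k) : Finset ℕ) : Set ℕ) ⊆
      {i : ℕ | OccAt (Fin.revPerm : Pm k) σ i} := by
    intro i hi
    simp only [Finset.coe_range, Set.mem_Iio] at hi
    change OccAt _ _ _
    rw [occ_iff]
    refine ⟨by omega, fun a b => ?_⟩
    simp only [Fin.revPerm_apply, Fin.rev_lt_rev]
    have ha := a.2
    have hb := b.2
    rcases lt_trichotomy a.1 b.1 with h1 | h1 | h1
    · rw [h (i + a) (i + b) (by omega) (by omega)]
      exact iff_of_false (by omega) (by rw [Fin.lt_def]; omega)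
    · have : a = b := Fin.ext h1
      subst this; simp
    · have h2 := h (i + b) (i + a) (by omega) (by omega)
      have h3 := ent_ne0 σ (show i + b < i + a by omega) (by omega)
      exact iff_of_true (by omega) h1
  have h1 := Set.ncard_le_ncard hsub (occ_finite _ _)
  rw [Set.ncard_coe_finset, Finset.card_range] at h1
  exact h1

theorem one_ne_rev {K : ℕ} (hK : 1 ≤ K) : (1 : Pm (K + 1)) ≠ Fin.revPerm := by
  intro h
  have h1 := congrArg (fun x : Pm (K + 1) => (x 0).val) h
  simp at h1
  omega

theorem one_eq_rev : (1 : Pm (0 + 1)) = Fin.revPerm := by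
  ext i
  have h1 := ((1 : Pm (0 + 1)) i).2
  have h2 := ((Fin.revPerm : Pm (0 + 1)) i).2
  omega

/-- convex combinations of the two extreme vectors -/
theorem seg_lower {K : ℕ} : segment ℝ (eInc (K + 1)) (eDec (K + 1)) ⊆
    feasibleRegion {p132, p213, p231} (K + 1) := by
  classical
  rintro v ⟨s, t, hs, ht, hst, rfl⟩
  have hval : ∀ π, (s • eInc (K + 1) + t • eDec (K + 1)) π =
      (if π = 1 then s else 0) + (if π = Fin.revPerm then t else 0) := by
    intro π
    simp only [eInc, eDec, Pi.add_apply, Pi.smul_apply, smul_eq_mul, Pi.single_apply, mul_ite,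
      mul_one, mul_zero]
  apply feas_of_lower (Nat.succ_pos K)
  · intro π
    rw [hval]
    have h1 : 0 ≤ (if π = 1 then s else 0) := by split_ifs; exacts [hs, le_rfl]
    have h2 : 0 ≤ (if π = Fin.revPerm then t else 0) := by split_ifs; exacts [ht, le_rfl]
    linarith
  · simp_rw [hval]
    rw [Finset.sum_add_distrib]
    simp [hst]
  · intro ε hε N
    obtain ⟨M, hM⟩ := exists_nat_ge (((K : ℝ) + 2) / ε)
    set n : ℕ := max M N with hn
    have hnR : (K : ℝ) + 2 ≤ ε * n := by
      rw [div_le_iff₀ hε] at hM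
      have : (M : ℝ) ≤ n := by exact_mod_cast le_max_left M N
      nlinarith
    set j : ℕ := ⌊t * n⌋₊ with hj
    have ht1 : t ≤ 1 := by linarith
    have hn0 : (0 : ℝ) ≤ n := Nat.cast_nonneg _
    have hjle : (j : ℝ) ≤ t * n := Nat.floor_le (mul_nonneg ht hn0)
    have hjge : t * n - 1 ≤ j := (Nat.sub_one_lt_floor _).le
    have hjn : j ≤ n := by
      have : (j : ℝ) ≤ n := by nlinarith
      exact_mod_cast this
    obtain ⟨σ, hσ⟩ := exists_vee n j
    refine ⟨n, le_max_right _ _, σ, vee_av hσ, fun π => ?_⟩
    rw [hval]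
    have c1 : (n : ℝ) - K - j ≤ cocc (1 : Pm (K + 1)) σ := by
      have h1 := vee_inc (k := K + 1) hσ
      have h2 : n ≤ cocc (1 : Pm (K + 1)) σ + K + j := by omega
      have h3 : (n : ℝ) ≤ cocc (1 : Pm (K + 1)) σ + K + j := by exact_mod_cast h2
      linarith
    have c2 : (j : ℝ) - K ≤ cocc (Fin.revPerm : Pm (K + 1)) σ := by
      have h1 := vee_dec (k := K + 1) hjn hσ
      have h2 : j ≤ cocc (Fin.revPerm : Pm (K + 1)) σ + K := by omega
      have h3 : (j : ℝ) ≤ cocc (Fin.revPerm : Pm (K + 1)) σ + K := by exact_mod_cast h2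
      linarith
    rcases Nat.eq_zero_or_pos K with hK | hK
    · subst hK
      have hπ : π = 1 := by
        ext i
        have h1 := (π i).2
        have h2 := ((1 : Pm (0 + 1)) i).2
        omega
      rw [if_pos hπ, if_pos (hπ.trans one_eq_rev), hst, hπ]
      have h3 := sum_cocc (k := 0 + 1) σ
      rw [Finset.sum_eq_single (1 : Pm (0 + 1)) (fun b _ hb => absurd (by
        ext i
        have h1 := (b i).2
        have h2 := ((1 : Pm (0 + 1)) i).2
        omega) hb) (fun h => absurd (Finset.mem_univ _) h)] at h3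
      have h4 : cocc (1 : Pm (0 + 1)) σ = n := by omega
      rw [h4]
      nlinarith
    · by_cases h1 : π = 1
      · subst h1
        rw [if_pos rfl, if_neg (one_ne_rev hK)]
        nlinarith
      · rw [if_neg h1]
        by_cases h2 : π = Fin.revPerm
        · subst h2
          rw [if_pos rfl]
          nlinarith
        · rw [if_neg h2]
          have : (0 : ℝ) ≤ cocc π σ := Nat.cast_nonneg _
          nlinarith

/-- the increasing permutations -/
theorem eInc_lower {B : Set (Pm 3)} (h : p123 ∉ B) {K : ℕ} :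
    eInc (K + 1) ∈ feasibleRegion B (K + 1) := by
  classical
  apply feas_of_lower (Nat.succ_pos K)
  · intro π
    unfold eInc
    rw [Pi.single_apply]
    split_ifs
    · exact zero_le_one
    · exact le_rfl
  · unfold eInc
    simp [Pi.single_apply]
  · intro ε hε N
    obtain ⟨M, hM⟩ := exists_nat_ge ((K : ℝ) / ε)
    set n : ℕ := max M N with hn
    have hnR : (K : ℝ) ≤ ε * n := by
      rw [div_le_iff₀ hε] at hM
      have : (M : ℝ) ≤ n := by exact_mod_cast le_max_left M N
      nlinarith
    have hn0 : (0 : ℝ) ≤ n := Nat.cast_nonneg _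
    have hσ : ∀ a b, a < b → b < n → (ent (1 : Pm n) a < ent (1 : Pm n) b ↔ 0 ≤ a) := by
      intro a b hab hb
      rw [ent_lt_iff _ (by omega) hb]
      simp [hab]
    refine ⟨n, le_max_right _ _, 1, ?_, fun π => ?_⟩
    · rintro τ hτ ⟨f, hf, h1⟩
      apply h
      have h2 : τ = p123 := by
        apply perm_ext_lt
        intro a b
        rw [← h1 a b]
        simp only [Equiv.Perm.coe_one, id_eq, hf.lt_iff_lt]
        revert a b
        decide
      rwa [← h2]
    · unfold eInc
      rw [Pi.single_apply]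
      by_cases hπ : π = 1
      · subst hπ
        rw [if_pos rfl]
        have h1 := vee_inc (k := K + 1) hσ
        have h2 : n ≤ cocc (1 : Pm (K + 1)) (1 : Pm n) + K := by omega
        have h3 : (n : ℝ) ≤ cocc (1 : Pm (K + 1)) (1 : Pm n) + K := by exact_mod_cast h2
        nlinarith
      · rw [if_neg hπ]
        have : (0 : ℝ) ≤ cocc π (1 : Pm n) := Nat.cast_nonneg _
        nlinarith

theorem p_rev : p123 * Fin.revPerm = p321 := by decide

theorem eInc_rev {k : ℕ} : (fun π => eInc k (π * Fin.revPerm)) = eDec k := by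
  classical
  ext π
  simp only [eInc, eDec, Pi.single_apply]
  have : π * Fin.revPerm = 1 ↔ π = Fin.revPerm := by
    constructor
    · intro h
      have h1 := congrArg (fun x => x * (Fin.revPerm : Pm k)) h
      simp only [mul_assoc, rev_rev, mul_one, one_mul] at h1
      exact h1
    · rintro rfl; exact rev_rev k
  simp only [this]

theorem eDec_rev {k : ℕ} : (fun π => eDec k (π * Fin.revPerm)) = eInc k := by
  rw [← eInc_rev]
  ext π
  simp only [mul_assoc, rev_rev, mul_one]

theorem eInc_comp {k : ℕ} : (fun π => eInc k (Fin.revPerm * π)) = eDec k := by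
  classical
  ext π
  simp only [eInc, eDec, Pi.single_apply]
  have : Fin.revPerm * π = 1 ↔ π = Fin.revPerm := by
    constructor
    · intro h
      have h1 := congrArg (fun x => (Fin.revPerm : Pm k) * x) h
      simp only [← mul_assoc, rev_rev, mul_one, one_mul] at h1
      exact h1
    · rintro rfl; exact rev_rev k
  simp only [this]

theorem eDec_comp {k : ℕ} : (fun π => eDec k (Fin.revPerm * π)) = eInc k := by
  rw [← eInc_comp]
  ext π
  simp only [← mul_assoc, rev_rev, one_mul]

theorem eDec_lower {B : Set (Pm 3)} (h : p321 ∉ B) {K : ℕ} :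
    eDec (K + 1) ∈ feasibleRegion B (K + 1) := by
  have h1 : eInc (K + 1) ∈ feasibleRegion {τ | τ * Fin.revPerm ∈ B} (K + 1) := by
    apply eInc_lower
    simp only [Set.mem_ofPred_eq, p_rev]
    exact h
  have h2 := feas_rev h1
  rw [eInc_rev] at h2
  refine feas_anti ?_ h2
  intro τ hτ
  simp only [Set.mem_ofPred_eq, mul_assoc, rev_rev, mul_one]
  exact hτ

/-- all four non-monotone patterns are avoided -/
theorem upper_four {B : Set (Pm 3)} {K : ℕ} (h1 : p132 ∈ B) (h2 : p213 ∈ B) (h3 : p231 ∈ B)
    (h4 : p312 ∈ B) {v : Pm (K + 1) → ℝ} (hv : v ∈ feasibleRegion B (K + 1)) :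
    v = eInc (K + 1) ∨ v = eDec (K + 1) := by
  classical
  -- there cannot be both an ascent and a descent
  have key : ∀ (n : ℕ) (σ : Pm n), Avoids B σ → (∃ r, r + 1 < n ∧ ent σ r < ent σ (r + 1)) →
      (∃ s, s + 1 < n ∧ ent σ (s + 1) < ent σ s) → False := by
    intro n σ hσ
    have step1 : ∀ r, r + 2 < n → ent σ r < ent σ (r + 1) → ent σ (r + 1) < ent σ (r + 2) := by
      intro r hr h5
      by_contra hc
      have h6 := ent_ne0 σ (show r + 1 < r + 2 by omega) hr
      have h7 := ent_ne0 σ (show r < r + 2 by omega) hr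
      rcases Nat.lt_or_ge (ent σ r) (ent σ (r + 2)) with h8 | h8
      · exact av132 hσ h1 (show r < r + 1 by omega) (show r + 1 < r + 2 by omega) hr h8 (by omega)
      · exact av231 hσ h3 (show r < r + 1 by omega) (show r + 1 < r + 2 by omega) hr (by omega) h5
    have step2 : ∀ r, r + 2 < n → ent σ (r + 1) < ent σ r → ent σ (r + 2) < ent σ (r + 1) := by
      intro r hr h5
      by_contra hc
      have h6 := ent_ne0 σ (show r + 1 < r + 2 by omega) hr
      have h7 := ent_ne0 σ (show r < r + 2 by omega) hr
      rcases Nat.lt_or_ge (ent σ r) (ent σ (r + 2)) with h8 | h8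
      · exact av213 hσ h2 (show r < r + 1 by omega) (show r + 1 < r + 2 by omega) hr h5 h8
      · exact av312 hσ h4 (show r < r + 1 by omega) (show r + 1 < r + 2 by omega) hr (by omega)
          (by omega)
    rintro ⟨r, hr1, hr2⟩ ⟨s, hs1, hs2⟩
    have all1 : ∀ d, r + d + 1 < n → ent σ (r + d) < ent σ (r + d + 1) := by
      intro d
      induction d with
      | zero => intro _; exact hr2
      | succ d ih =>
        intro hd
        exact step1 (r + d) (by omega) (ih (by omega))
    have all2 : ∀ d, s + d + 1 < n → ent σ (s + d + 1) < ent σ (s + d) := by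
      intro d
      induction d with
      | zero => intro _; exact hs2
      | succ d ih =>
        intro hd
        exact step2 (s + d) (by omega) (ih (by omega))
    rcases Nat.le_total r s with h | h
    · have := all1 (s - r) (by omega)
      have e : r + (s - r) = s := by omega
      rw [e] at this
      omega
    · have := all2 (r - s) (by omega)
      have e : s + (r - s) = r := by omega
      rw [e] at this
      omega
  have occ_pos : ∀ (n : ℕ) (σ : Pm n) (π : Pm (K + 1)), cocc π σ ≠ 0 → ∃ i, OccAt π σ i := by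
    intro n σ π hne
    by_contra hc
    push Not at hc
    apply hne
    unfold cocc
    rw [Set.ncard_eq_zero (occ_finite π σ), Set.eq_empty_iff_forall_notMem]
    exact hc
  have hz : ∀ π : Pm (K + 1), π ≠ 1 → π ≠ Fin.revPerm → v π = 0 := by
    intro π hπ1 hπ2
    apply tendsto_zero_of_cocc_le hv π 0
    intro n σ hσ
    by_contra hc
    obtain ⟨i, hi⟩ := occ_pos n σ π (by omega)
    obtain ⟨r, _, hr2, hr3⟩ := exists_asc hi hπ2
    obtain ⟨s, _, hs2, hs3⟩ := exists_desc hi hπ1
    have := hi.le
    exact key n σ hσ ⟨r, by omega, hr3⟩ ⟨s, by omega, hs3⟩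
  have hsum := (feas_flow hv).2.2.1
  by_cases hK : (1 : Pm (K + 1)) = Fin.revPerm
  · left
    rw [Finset.sum_eq_single (1 : Pm (K + 1)) (fun π _ hπ => hz π hπ (fun h => hπ (h.trans hK.symm)))
      (fun h => absurd (Finset.mem_univ _) h)] at hsum
    ext π
    unfold eInc
    by_cases hπ : π = 1
    · subst hπ; simp [hsum]
    · rw [hz π hπ (fun h => hπ (h.trans hK.symm)), Pi.single_eq_of_ne hπ]
  · have hprod : v 1 * v Fin.revPerm = 0 := by
      obtain ⟨_, n, σ, g1, g2, g3⟩ := hv
      have hL := (g3 1).mul (g3 Fin.revPerm)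
      have h0 : ∀ m, (cocc (1 : Pm (K + 1)) (σ m) : ℝ) / (n m : ℝ) *
          ((cocc (Fin.revPerm : Pm (K + 1)) (σ m) : ℝ) / (n m : ℝ)) = 0 := by
        intro m
        by_cases c1 : cocc (1 : Pm (K + 1)) (σ m) = 0
        · rw [c1]; simp
        · by_cases c2 : cocc (Fin.revPerm : Pm (K + 1)) (σ m) = 0
          · rw [c2]; simp
          · exfalso
            obtain ⟨i, hi⟩ := occ_pos _ _ _ c1
            obtain ⟨j, hj⟩ := occ_pos _ _ _ c2
            obtain ⟨r, _, hr2, hr3⟩ := exists_asc hi hK
            obtain ⟨s, _, hs2, hs3⟩ := exists_desc hj (fun h => hK h.symm)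
            have := hi.le
            have := hj.le
            exact key _ _ (g1 m).2 ⟨r, by omega, hr3⟩ ⟨s, by omega, hs3⟩
      simp only [h0] at hL
      exact tendsto_nhds_unique hL tendsto_const_nhds
    rw [← Finset.sum_subset (Finset.subset_univ ({1, Fin.revPerm} : Finset (Pm (K + 1)))),
      Finset.sum_pair hK] at hsum
    · rcases mul_eq_zero.1 hprod with h5 | h5
      · right
        ext π
        unfold eDec
        by_cases h6 : π = Fin.revPerm
        · subst h6; rw [Pi.single_eq_same]; linarith
        · rw [Pi.single_eq_of_ne h6]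
          by_cases h7 : π = 1
          · rw [h7]; exact h5
          · exact hz π h7 h6
      · left
        ext π
        unfold eInc
        by_cases h6 : π = 1
        · subst h6; rw [Pi.single_eq_same]; linarith
        · rw [Pi.single_eq_of_ne h6]
          by_cases h7 : π = Fin.revPerm
          · rw [h7]; exact h5
          · exact hz π h6 h7
    · intro π _ hπ
      simp only [Finset.mem_insert, Finset.mem_singleton, not_or] at hπ
      exact hz π hπ.1 hπ.2

/-- no long permutations avoid `123` and `321` -/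
theorem feas_empty {B : Set (Pm 3)} (h1 : p123 ∈ B) (h2 : p321 ∈ B) (k : ℕ) :
    feasibleRegion B k = ∅ := by
  rw [Set.eq_empty_iff_forall_notMem]
  rintro v ⟨_, n, σ, g1, g2, g3⟩
  obtain ⟨m, hm⟩ := (g2.eventually_ge_atTop 5).exists
  have hσ := (g1 m).2
  have a := fun {i j l : ℕ} => av123 hσ h1 (i := i) (j := j) (l := l)
  have b := fun {i j l : ℕ} => av321 hσ h2 (i := i) (j := j) (l := l)
  have ne : ∀ i j, i < j → j < n m → ent (σ m) i ≠ ent (σ m) j := fun i j hij hj =>
    ent_ne0 (σ m) hij hj
  have n01 := ne 0 1 (by omega) (by omega)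
  have n12 := ne 1 2 (by omega) (by omega)
  have n13 := ne 1 3 (by omega) (by omega)
  have n14 := ne 1 4 (by omega) (by omega)
  have n23 := ne 2 3 (by omega) (by omega)
  have n34 := ne 3 4 (by omega) (by omega)
  rcases lt_or_gt_of_ne n01 with h | h
  · have c2 : ent (σ m) 2 < ent (σ m) 1 := by
      by_contra hc
      exact a (show 0 < 1 by omega) (show 1 < 2 by omega) (by omega) h (by omega)
    have c3 : ent (σ m) 3 < ent (σ m) 1 := by
      by_contra hc
      exact a (show 0 < 1 by omega) (show 1 < 3 by omega) (by omega) h (by omega)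
    have d23 : ent (σ m) 2 < ent (σ m) 3 := by
      by_contra hc
      exact b (show 1 < 2 by omega) (show 2 < 3 by omega) (by omega) (by omega) c2
    have d34 : ent (σ m) 3 < ent (σ m) 4 := by
      by_contra hc
      exact b (show 1 < 3 by omega) (show 3 < 4 by omega) (by omega) (by omega) c3
    exact a (show 2 < 3 by omega) (show 3 < 4 by omega) (by omega) d23 d34
  · have c2 : ent (σ m) 1 < ent (σ m) 2 := by
      by_contra hc
      exact b (show 0 < 1 by omega) (show 1 < 2 by omega) (by omega) (by omega) h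
    have c3 : ent (σ m) 1 < ent (σ m) 3 := by
      by_contra hc
      exact b (show 0 < 1 by omega) (show 1 < 3 by omega) (by omega) (by omega) h
    have d23 : ent (σ m) 3 < ent (σ m) 2 := by
      by_contra hc
      exact a (show 1 < 2 by omega) (show 2 < 3 by omega) (by omega) c2 (by omega)
    have d34 : ent (σ m) 4 < ent (σ m) 3 := by
      by_contra hc
      exact a (show 1 < 3 by omega) (show 3 < 4 by omega) (by omega) c3 (by omega)
    exact b (show 2 < 3 by omega) (show 3 < 4 by omega) (by omega) d34 d23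

end Pool.Agent.Helper23.Feas
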