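import Pool.Agent.Helper23.Feas.Upper2

set_option autoImplicit false

namespace Pool.Agent.Helper23.Feas

open Filter Topology

theorem feas_anti {B B' : Set (Pm 3)} (h : B' ⊆ B) {k : ℕ} :
    feasibleRegion B k ⊆ feasibleRegion B' k := by
  rintro v ⟨h0, n, σ, h1, h2, h3⟩
  exact ⟨h0, n, σ, fun m => ⟨(h1 m).1, fun τ hτ => (h1 m).2 τ (h hτ)⟩, h2, h3⟩

theorem rev_rev (n : ℕ) : (Fin.revPerm : Pm n) * Fin.revPerm = 1 := by
  ext i; simp

theorem contains_rev {n j : ℕ} {σ : Pm n} {τ : Pm j} (h : Contains (σ * Fin.revPerm) τ) :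
    Contains σ (τ * Fin.revPerm) := by
  obtain ⟨f, hf, h1⟩ := h
  refine ⟨fun a => Fin.rev (f (Fin.rev a)), ?_, ?_⟩
  · intro a b hab
    rw [Fin.rev_lt_rev]
    apply hf
    rw [Fin.rev_lt_rev]
    exact hab
  · intro a b
    have := h1 (Fin.rev a) (Fin.rev b)
    simpa using this

theorem contains_comp {n j : ℕ} {σ : Pm n} {τ : Pm j} (h : Contains (Fin.revPerm * σ) τ) :
    Contains σ (Fin.revPerm * τ) := by
  obtain ⟨f, hf, h1⟩ := h
  refine ⟨f, hf, ?_⟩
  intro a b
  have := h1 b a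
  simp only [Equiv.Perm.coe_mul, Function.comp_apply, Fin.revPerm_apply, Fin.rev_lt_rev] at this ⊢
  exact this

theorem ent_rev {n : ℕ} (σ : Pm n) {r : ℕ} (hr : r < n) :
    ent (σ * Fin.revPerm) r = ent σ (n - 1 - r) := by
  rw [ent_of_lt _ hr, ent_of_lt _ (by omega)]
  simp only [Equiv.Perm.coe_mul, Function.comp_apply, Fin.revPerm_apply]
  congr 2
  apply Fin.ext
  simp only [Fin.val_rev]
  omega

theorem cocc_rev_le {n k : ℕ} (π : Pm k) (σ : Pm n) :
    cocc π (σ * Fin.revPerm) ≤ cocc (π * Fin.revPerm) σ := by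
  unfold cocc
  rw [← Set.InjOn.ncard_image (s := {i : ℕ | OccAt π (σ * Fin.revPerm) i})
    (f := fun i => n - k - i)]
  · apply Set.ncard_le_ncard _ (occ_finite _ _)
    rintro j ⟨i, hi, rfl⟩
    simp only [Set.mem_ofPred_eq] at hi ⊢
    rw [occ_iff] at hi ⊢
    obtain ⟨hi1, hi2⟩ := hi
    refine ⟨by omega, fun a b => ?_⟩
    have h1 := hi2 (Fin.rev a) (Fin.rev b)
    have ha := a.2
    have hb := b.2
    rw [ent_rev σ (by rw [Fin.val_rev]; omega), ent_rev σ (by rw [Fin.val_rev]; omega)] at h1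
    have e1 : n - 1 - (i + (Fin.rev a).1) = n - k - i + a.1 := by
      rw [Fin.val_rev]; omega
    have e2 : n - 1 - (i + (Fin.rev b).1) = n - k - i + b.1 := by
      rw [Fin.val_rev]; omega
    rw [e1, e2] at h1
    rw [h1]
    simp
  · intro i hi j hj hij
    have h1 := OccAt.le hi
    have h2 := OccAt.le hj
    simp only at hij
    omega

theorem cocc_rev {n k : ℕ} (π : Pm k) (σ : Pm n) :
    cocc π (σ * Fin.revPerm) = cocc (π * Fin.revPerm) σ := by
  apply le_antisymm (cocc_rev_le π σ)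
  have h := cocc_rev_le (π * Fin.revPerm) (σ * Fin.revPerm)
  rwa [mul_assoc, rev_rev, mul_one, mul_assoc, rev_rev, mul_one] at h

theorem cocc_comp {n k : ℕ} (π : Pm k) (σ : Pm n) :
    cocc π (Fin.revPerm * σ) = cocc (Fin.revPerm * π) σ := by
  unfold cocc
  congr 1
  ext i
  simp only [Set.mem_ofPred_eq]
  unfold OccAt
  apply exists_congr
  intro h
  constructor
  · intro h1 a b
    have := h1 b a
    simp only [Equiv.Perm.coe_mul, Function.comp_apply, Fin.revPerm_apply,
      Fin.rev_lt_rev] at this ⊢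
    exact this
  · intro h1 a b
    have := h1 b a
    simp only [Equiv.Perm.coe_mul, Function.comp_apply, Fin.revPerm_apply,
      Fin.rev_lt_rev] at this ⊢
    exact this

theorem feas_rev {B : Set (Pm 3)} {k : ℕ} {v : Pm k → ℝ} (hv : v ∈ feasibleRegion B k) :
    (fun π => v (π * Fin.revPerm)) ∈ feasibleRegion {τ | τ * Fin.revPerm ∈ B} k := by
  obtain ⟨h0, n, σ, h1, h2, h3⟩ := hv
  refine ⟨fun π => h0 _, n, fun m => σ m * Fin.revPerm, fun m => ⟨(h1 m).1, ?_⟩, h2, ?_⟩
  · intro τ hτ hc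
    exact (h1 m).2 _ hτ (contains_rev hc)
  · intro π
    simp only [cocc_rev]
    exact h3 _

theorem feas_comp {B : Set (Pm 3)} {k : ℕ} {v : Pm k → ℝ} (hv : v ∈ feasibleRegion B k) :
    (fun π => v (Fin.revPerm * π)) ∈ feasibleRegion {τ | Fin.revPerm * τ ∈ B} k := by
  obtain ⟨h0, n, σ, h1, h2, h3⟩ := hv
  refine ⟨fun π => h0 _, n, fun m => Fin.revPerm * σ m, fun m => ⟨(h1 m).1, ?_⟩, h2, ?_⟩
  · intro τ hτ hc
    exact (h1 m).2 _ hτ (contains_comp hc)
  · intro π
    simp only [cocc_comp]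
    exact h3 _

theorem beg_rev {K : ℕ} {π : Pm (K + 1)} {ρ : Pm K} :
    Beg (π * Fin.revPerm) ρ ↔ End π (ρ * Fin.revPerm) := by
  unfold Beg End
  constructor
  · intro h a b
    have := h (Fin.rev a) (Fin.rev b)
    simpa [Fin.rev_castSucc] using this
  · intro h a b
    have := h (Fin.rev a) (Fin.rev b)
    simpa [Fin.rev_castSucc] using this

theorem end_rev {K : ℕ} {π : Pm (K + 1)} {ρ : Pm K} :
    End (π * Fin.revPerm) ρ ↔ Beg π (ρ * Fin.revPerm) := by
  unfold Beg End
  constructor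
  · intro h a b
    have := h (Fin.rev a) (Fin.rev b)
    simpa [Fin.rev_succ] using this
  · intro h a b
    have := h (Fin.rev a) (Fin.rev b)
    simpa [Fin.rev_succ] using this

theorem beg_comp {K : ℕ} {π : Pm (K + 1)} {ρ : Pm K} :
    Beg (Fin.revPerm * π) ρ ↔ Beg π (Fin.revPerm * ρ) := by
  unfold Beg
  constructor
  · intro h a b
    have := h b a
    simpa using this
  · intro h a b
    have := h b a
    simpa using this

theorem end_comp {K : ℕ} {π : Pm (K + 1)} {ρ : Pm K} :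
    End (Fin.revPerm * π) ρ ↔ End π (Fin.revPerm * ρ) := by
  unfold End
  constructor
  · intro h a b
    have := h b a
    simpa using this
  · intro h a b
    have := h b a
    simpa using this

theorem sum_rev {K : ℕ} (g : Pm K → ℝ) : ∑ π : Pm K, g (π * Fin.revPerm) = ∑ π, g π :=
  Equiv.sum_comp (Equiv.mulRight (Fin.revPerm : Pm K)) g

theorem sum_comp' {K : ℕ} (g : Pm K → ℝ) : ∑ π : Pm K, g (Fin.revPerm * π) = ∑ π, g π :=
  Equiv.sum_comp (Equiv.mulLeft (Fin.revPerm : Pm K)) g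

theorem flow_rev {B : Set (Pm 3)} {K : ℕ} {v : Pm (K + 1) → ℝ} (hv : v ∈ flowPolytope B K) :
    (fun π => v (π * Fin.revPerm)) ∈ flowPolytope {τ | τ * Fin.revPerm ∈ B} K := by
  classical
  obtain ⟨h0, h1, h2, h3⟩ := hv
  refine ⟨fun π => h0 _, fun π hπ => h1 _ ?_, ?_, fun ρ => ?_⟩
  · intro hav
    apply hπ
    intro τ hτ hc
    refine hav _ hτ ?_
    apply contains_rev
    rwa [mul_assoc, rev_rev, mul_one]
  · rw [sum_rev v, h2]
  · have e1 : ∑ π : Pm (K + 1), (if Beg π ρ then v (π * Fin.revPerm) else 0) =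
        ∑ π, (if End π (ρ * Fin.revPerm) then v π else 0) := by
      rw [← sum_rev (fun π => if End π (ρ * Fin.revPerm) then v π else 0)]
      apply Finset.sum_congr rfl
      intro π _
      simp only [end_rev, mul_assoc, rev_rev, mul_one]
    have e2 : ∑ π : Pm (K + 1), (if End π ρ then v (π * Fin.revPerm) else 0) =
        ∑ π, (if Beg π (ρ * Fin.revPerm) then v π else 0) := by
      rw [← sum_rev (fun π => if Beg π (ρ * Fin.revPerm) then v π else 0)]
      apply Finset.sum_congr rfl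
      intro π _
      simp only [beg_rev, mul_assoc, rev_rev, mul_one]
    have h4 := h3 (ρ * Fin.revPerm)
    exact (e1.trans h4.symm).trans e2.symm

theorem flow_comp {B : Set (Pm 3)} {K : ℕ} {v : Pm (K + 1) → ℝ} (hv : v ∈ flowPolytope B K) :
    (fun π => v (Fin.revPerm * π)) ∈ flowPolytope {τ | Fin.revPerm * τ ∈ B} K := by
  classical
  obtain ⟨h0, h1, h2, h3⟩ := hv
  refine ⟨fun π => h0 _, fun π hπ => h1 _ ?_, ?_, fun ρ => ?_⟩
  · intro hav
    apply hπ
    intro τ hτ hc
    refine hav _ hτ ?_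
    apply contains_comp
    rwa [← mul_assoc, rev_rev, one_mul]
  · rw [sum_comp' v, h2]
  · have e1 : ∑ π : Pm (K + 1), (if Beg π ρ then v (Fin.revPerm * π) else 0) =
        ∑ π, (if Beg π (Fin.revPerm * ρ) then v π else 0) := by
      rw [← sum_comp' (fun π => if Beg π (Fin.revPerm * ρ) then v π else 0)]
      apply Finset.sum_congr rfl
      intro π _
      simp only [beg_comp, ← mul_assoc, rev_rev, one_mul]
    have e2 : ∑ π : Pm (K + 1), (if End π ρ then v (Fin.revPerm * π) else 0) =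
        ∑ π, (if End π (Fin.revPerm * ρ) then v π else 0) := by
      rw [← sum_comp' (fun π => if End π (Fin.revPerm * ρ) then v π else 0)]
      apply Finset.sum_congr rfl
      intro π _
      simp only [end_comp, ← mul_assoc, rev_rev, one_mul]
    have h4 := h3 (Fin.revPerm * ρ)
    exact (e1.trans h4).trans e2.symm

end Pool.Agent.Helper23.Feas
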