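import Pool.Agent.Helper23.Feas.Basic

set_option autoImplicit false

namespace Pool.Agent.Helper23.Feas

open Filter Topology

theorem Contains.of_occ {n k j : ℕ} {σ : Pm n} {π : Pm k} {τ : Pm j} {i : ℕ} (h : OccAt π σ i)
    (hc : Contains π τ) : Contains σ τ := by
  obtain ⟨hi, h1⟩ := h
  obtain ⟨f, hf, h2⟩ := hc
  refine ⟨fun a => ⟨i + (f a).1, lt_of_lt_of_le (Nat.add_lt_add_left (f a).2 i) hi⟩, ?_, ?_⟩
  · intro a b hab
    have := hf hab
    rw [Fin.lt_def] at this ⊢
    simpa using this
  · intro a b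
    rw [h1, h2]

theorem cocc_eq_zero {n k : ℕ} {B : Set (Pm 3)} {σ : Pm n} {π : Pm k} (hσ : Avoids B σ)
    (hπ : ¬ Avoids B π) : cocc π σ = 0 := by
  unfold cocc
  rw [Set.ncard_eq_zero (occ_finite π σ), Set.eq_empty_iff_forall_notMem]
  intro i hi
  apply hπ
  intro τ hτ hc
  exact hσ τ hτ (Contains.of_occ hi hc)

theorem beg_iff {n K : ℕ} {σ : Pm n} {π : Pm (K + 1)} {ρ : Pm K} {i : ℕ} (h : OccAt π σ i) :
    Beg π ρ ↔ OccAt ρ σ i := by
  obtain ⟨hi, h1⟩ := h
  constructor
  · intro hb
    refine ⟨by omega, fun a b => ?_⟩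
    rw [← hb a b, ← h1]
    rfl
  · rintro ⟨h2, h3⟩ a b
    rw [← h3 a b, ← h1]
    rfl

theorem end_iff {n K : ℕ} {σ : Pm n} {π : Pm (K + 1)} {ρ : Pm K} {i : ℕ} (h : OccAt π σ i) :
    End π ρ ↔ OccAt ρ σ (i + 1) := by
  obtain ⟨hi, h1⟩ := h
  have e : ∀ a : Fin K, (⟨i + (a.succ).1, lt_of_lt_of_le (Nat.add_lt_add_left a.succ.2 i) hi⟩ :
      Fin n) = ⟨i + 1 + a.1, by have := a.2; omega⟩ := by
    intro a
    apply Fin.ext
    simp only [Fin.val_succ]
    omega
  constructor
  · intro hb
    refine ⟨by omega, fun a b => ?_⟩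
    rw [← hb a b, ← h1, e a, e b]
  · rintro ⟨h2, h3⟩ a b
    rw [← h3 a b, ← h1, e a, e b]

open Classical in
theorem sum_beg {n K : ℕ} (σ : Pm n) (ρ : Pm K) :
    ∑ π : Pm (K + 1), (if Beg π ρ then cocc π σ else 0) =
      ((Finset.range (n + 1)).filter (fun i => OccAt ρ σ i ∧ i + (K + 1) ≤ n)).card := by
  rw [← Finset.sum_filter]
  simp_rw [cocc_eq]
  rw [← Finset.card_biUnion]
  · congr 1
    ext i
    simp only [Finset.mem_biUnion, Finset.mem_univ, true_and, Finset.mem_filter,
      Finset.mem_range]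
    constructor
    · rintro ⟨π, hb, hi, h⟩
      exact ⟨hi, (beg_iff h).1 hb, h.le⟩
    · rintro ⟨hi, ho, hle⟩
      obtain ⟨π, hπ⟩ := exists_occ (k := K + 1) σ i hle
      exact ⟨π, (beg_iff hπ).2 ho, hi, hπ⟩
  · intro π _ ρ' _ hne
    rw [Function.onFun, Finset.disjoint_left]
    intro i hi hi'
    exact hne ((Finset.mem_filter.1 hi).2.unique (Finset.mem_filter.1 hi').2)

open Classical in
theorem sum_end {n K : ℕ} (σ : Pm n) (ρ : Pm K) :
    ∑ π : Pm (K + 1), (if End π ρ then cocc π σ else 0) =
      ((Finset.range (n + 1)).filter (fun i => OccAt ρ σ (i + 1) ∧ i + (K + 1) ≤ n)).card := by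
  rw [← Finset.sum_filter]
  simp_rw [cocc_eq]
  rw [← Finset.card_biUnion]
  · congr 1
    ext i
    simp only [Finset.mem_biUnion, Finset.mem_univ, true_and, Finset.mem_filter,
      Finset.mem_range]
    constructor
    · rintro ⟨π, hb, hi, h⟩
      exact ⟨hi, (end_iff h).1 hb, h.le⟩
    · rintro ⟨hi, ho, hle⟩
      obtain ⟨π, hπ⟩ := exists_occ (k := K + 1) σ i hle
      exact ⟨π, (end_iff hπ).2 ho, hi, hπ⟩
  · intro π _ ρ' _ hne
    rw [Function.onFun, Finset.disjoint_left]
    intro i hi hi'
    exact hne ((Finset.mem_filter.1 hi).2.unique (Finset.mem_filter.1 hi').2)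

open Classical in
theorem beg_le_end {n K : ℕ} (σ : Pm n) (ρ : Pm K) :
    ∑ π : Pm (K + 1), (if Beg π ρ then cocc π σ else 0) ≤
      ∑ π : Pm (K + 1), (if End π ρ then cocc π σ else 0) + 1 := by
  rw [sum_beg, sum_end]
  calc ((Finset.range (n + 1)).filter (fun i => OccAt ρ σ i ∧ i + (K + 1) ≤ n)).card
      ≤ (insert 0 (((Finset.range (n + 1)).filter
          (fun i => OccAt ρ σ (i + 1) ∧ i + (K + 1) ≤ n)).image (fun i => i + 1))).card := by
        apply Finset.card_le_card
        intro i hi
        simp only [Finset.mem_filter, Finset.mem_range] at hi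
        rw [Finset.mem_insert, Finset.mem_image]
        rcases Nat.eq_zero_or_pos i with h0 | h0
        · left; exact h0
        · right
          refine ⟨i - 1, ?_, by omega⟩
          simp only [Finset.mem_filter, Finset.mem_range]
          refine ⟨by omega, ?_, by omega⟩
          rw [Nat.sub_add_cancel h0]; exact hi.2.1
    _ ≤ _ := by
        refine le_trans (Finset.card_insert_le _ _) ?_
        exact Nat.add_le_add_right Finset.card_image_le 1

open Classical in
theorem end_le_beg {n K : ℕ} (σ : Pm n) (ρ : Pm K) :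
    ∑ π : Pm (K + 1), (if End π ρ then cocc π σ else 0) ≤
      ∑ π : Pm (K + 1), (if Beg π ρ then cocc π σ else 0) + 1 := by
  rw [sum_beg, sum_end]
  calc ((Finset.range (n + 1)).filter (fun i => OccAt ρ σ (i + 1) ∧ i + (K + 1) ≤ n)).card
      = (((Finset.range (n + 1)).filter
          (fun i => OccAt ρ σ (i + 1) ∧ i + (K + 1) ≤ n)).image (fun i => i + 1)).card := by
        rw [Finset.card_image_of_injective _ (fun a b h => by simpa using h)]
    _ ≤ (insert (n - K) ((Finset.range (n + 1)).filter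
          (fun i => OccAt ρ σ i ∧ i + (K + 1) ≤ n))).card := by
        apply Finset.card_le_card
        intro i hi
        simp only [Finset.mem_image, Finset.mem_filter, Finset.mem_range] at hi
        obtain ⟨j, ⟨hj1, hj2, hj3⟩, rfl⟩ := hi
        rw [Finset.mem_insert]
        by_cases h : j + 1 = n - K
        · left; exact h
        · right
          simp only [Finset.mem_filter, Finset.mem_range]
          exact ⟨by omega, hj2, by omega⟩
    _ ≤ _ := Finset.card_insert_le _ _

theorem feas_flow {B : Set (Pm 3)} {K : ℕ} {v : Pm (K + 1) → ℝ}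
    (hv : v ∈ feasibleRegion B (K + 1)) : v ∈ flowPolytope B K := by
  classical
  refine ⟨fun π => (hv.1 π).1, ?_, ?_, ?_⟩
  · intro π hπ
    apply le_antisymm _ (hv.1 π).1
    have h := lin_le (B := B) (k := K + 1) (fun ρ => if ρ = π then 1 else 0) 0 0 (by
      intro n σ hσ
      simp [cocc_eq_zero hσ hπ]) hv
    simpa using h
  · apply le_antisymm
    · have h := lin_le (B := B) (k := K + 1) (fun _ => 1) 1 0 (by
        intro n σ hσ
        simp only [one_mul, add_zero]
        rw [← Nat.cast_sum]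
        exact_mod_cast sum_cocc_le σ (Nat.succ_pos K)) hv
      simpa using h
    · have h := lin_le (B := B) (k := K + 1) (fun _ => -1) (-1) K (by
        intro n σ hσ
        simp only [neg_mul, one_mul, Finset.sum_neg_distrib]
        rw [← Nat.cast_sum, sum_cocc]
        have : ((n + 1 - (K + 1) : ℕ) : ℝ) ≥ (n : ℝ) - K := by
          have : n ≤ (n + 1 - (K + 1)) + K := by omega
          have h2 : (n : ℝ) ≤ ((n + 1 - (K + 1) : ℕ) : ℝ) + (K : ℝ) := by exact_mod_cast this
          linarith
        linarith) hv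
      simp only [neg_mul, one_mul, Finset.sum_neg_distrib] at h
      linarith
  · intro ρ
    have key : ∀ w : Pm (K + 1) → ℝ, ∑ π : Pm (K + 1), ((if Beg π ρ then (1 : ℝ) else 0) -
        (if End π ρ then (1 : ℝ) else 0)) * w π = ∑ π, (if Beg π ρ then w π else 0) -
        ∑ π, (if End π ρ then w π else 0) := by
      intro w
      rw [← Finset.sum_sub_distrib]
      apply Finset.sum_congr rfl
      intro π _
      split_ifs <;> ring
    have cast1 : ∀ (n : ℕ) (σ : Pm n), ∑ π : Pm (K + 1), (if Beg π ρ then (cocc π σ : ℝ) else 0) =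
        ((∑ π : Pm (K + 1), (if Beg π ρ then cocc π σ else 0) : ℕ) : ℝ) := by
      intro n σ; push_cast; rfl
    have cast2 : ∀ (n : ℕ) (σ : Pm n), ∑ π : Pm (K + 1), (if End π ρ then (cocc π σ : ℝ) else 0) =
        ((∑ π : Pm (K + 1), (if End π ρ then cocc π σ else 0) : ℕ) : ℝ) := by
      intro n σ; push_cast; rfl
    apply le_antisymm
    · have h := lin_le (B := B) (k := K + 1) (fun π => (if Beg π ρ then (1 : ℝ) else 0) -
        (if End π ρ then (1 : ℝ) else 0)) 0 1 (by
          intro n σ hσ
          rw [key, cast1, cast2]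
          have := beg_le_end σ ρ
          have h2 : ((∑ π : Pm (K + 1), (if Beg π ρ then cocc π σ else 0) : ℕ) : ℝ) ≤
            ((∑ π : Pm (K + 1), (if End π ρ then cocc π σ else 0) : ℕ) : ℝ) + 1 := by
            exact_mod_cast this
          linarith) hv
      rw [key] at h
      linarith
    · have h := lin_le (B := B) (k := K + 1) (fun π => -((if Beg π ρ then (1 : ℝ) else 0) -
        (if End π ρ then (1 : ℝ) else 0))) 0 1 (by
          intro n σ hσ
          simp only [neg_mul, Finset.sum_neg_distrib]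
          rw [key, cast1, cast2]
          have := end_le_beg σ ρ
          have h2 : ((∑ π : Pm (K + 1), (if End π ρ then cocc π σ else 0) : ℕ) : ℝ) ≤
            ((∑ π : Pm (K + 1), (if Beg π ρ then cocc π σ else 0) : ℕ) : ℝ) + 1 := by
            exact_mod_cast this
          linarith) hv
      simp only [neg_mul, Finset.sum_neg_distrib] at h
      rw [key] at h
      linarith

end Pool.Agent.Helper23.Feas
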