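import Pool.Agent.Helper23.Feas.Ent

set_option autoImplicit false

namespace Pool.Agent.Helper23.Feas

open Filter Topology

theorem tendsto_zero_of_cocc_le {B : Set (Pm 3)} {k : ℕ} {v : Pm k → ℝ}
    (hv : v ∈ feasibleRegion B k) (π : Pm k) (C : ℕ)
    (h : ∀ (n : ℕ) (σ : Pm n), Avoids B σ → cocc π σ ≤ C) : v π = 0 := by
  classical
  apply le_antisymm _ (hv.1 π).1
  have h := lin_le (B := B) (k := k) (fun ρ => if ρ = π then 1 else 0) 0 C (by
    intro n σ hσ
    have := h n σ hσ
    have h2 : (cocc π σ : ℝ) ≤ C := by exact_mod_cast this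
    simpa using h2) hv
  simpa using h

/-- bound for classes in which `123` and `231` are avoided -/
theorem upper_123_231 {B : Set (Pm 3)} {K : ℕ} (h1 : p123 ∈ B) (h2 : p231 ∈ B)
    {v : Pm (K + 1) → ℝ} (hv : v ∈ feasibleRegion B (K + 1)) : v = eDec (K + 1) := by
  classical
  have hz : ∀ π : Pm (K + 1), π ≠ Fin.revPerm → v π = 0 := by
    intro π hπ
    apply tendsto_zero_of_cocc_le hv π (K + 1)
    intro n σ hσ
    by_cases hex : ∃ i, OccAt π σ i
    · obtain ⟨i0, hi0⟩ := hex
      obtain ⟨r, hr1, hr2, hr3⟩ := exists_asc hi0 hπ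
      apply cocc_le_of_interval r
      intro i hi
      obtain ⟨s, hs1, hs2, hs3⟩ := exists_asc hi hπ
      have hrn : r + 1 < n := lt_of_lt_of_le hr2 hi0.le
      have hsn : s + 1 < n := lt_of_lt_of_le hs2 hi.le
      have key : ∀ p q : ℕ, p < q → q + 1 < n → ent σ p < ent σ (p + 1) →
          ent σ q < ent σ (q + 1) → False := by
        intro p q hpq hq hp hq'
        rcases Nat.lt_or_ge (ent σ q) (ent σ p) with h3 | h3
        · rcases Nat.lt_or_ge (p + 1) q with h4 | h4
          · exact av231 hσ h2 (Nat.lt_succ_self p) h4 (by omega) h3 hp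
          · have : q = p + 1 := by omega
            rw [this] at h3; omega
        · have h5 : ent σ p ≠ ent σ q := fun he => by
            have := ent_inj σ (by omega) (by omega) he
            omega
          exact av123 hσ h1 hpq (Nat.lt_succ_self q) hq (by omega) hq'
      rcases lt_trichotomy r s with h3 | h3 | h3
      · exact (key r s h3 hsn hr3 hs3).elim
      · subst h3; omega
      · exact (key s r h3 hrn hs3 hr3).elim
    · have : {i : ℕ | OccAt π σ i} = ∅ := by
        rw [Set.eq_empty_iff_forall_notMem]
        intro i hi; exact hex ⟨i, hi⟩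
      unfold cocc
      rw [this, Set.ncard_empty]
      omega
  have hsum := (feas_flow hv).2.2.1
  rw [Finset.sum_eq_single (Fin.revPerm : Pm (K + 1)) (fun π _ hπ => hz π hπ)
    (fun h => absurd (Finset.mem_univ _) h)] at hsum
  ext π
  unfold eDec
  by_cases hπ : π = Fin.revPerm
  · subst hπ; simp [hsum]
  · rw [hz π hπ, Pi.single_eq_of_ne hπ]

/-- bound for classes in which `132` and `231` are avoided -/
theorem upper_132_231 {B : Set (Pm 3)} {K : ℕ} (h1 : p132 ∈ B) (h2 : p231 ∈ B)
    {v : Pm (K + 1) → ℝ} (hv : v ∈ feasibleRegion B (K + 1)) :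
    v ∈ segment ℝ (eInc (K + 1)) (eDec (K + 1)) := by
  classical
  have hz : ∀ π : Pm (K + 1), π ≠ Fin.revPerm → π ≠ 1 → v π = 0 := by
    intro π hπ hπ1
    apply tendsto_zero_of_cocc_le hv π (K + 1)
    intro n σ hσ
    have peak : ∀ i j l : ℕ, i < j → j < l → l < n → ent σ i < ent σ j → ent σ l < ent σ j →
        False := by
      intro i j l hij hjl hl g1 g2
      rcases Nat.lt_or_ge (ent σ l) (ent σ i) with h3 | h3
      · exact av231 hσ h2 hij hjl hl h3 g1
      · have h5 : ent σ i ≠ ent σ l := fun he => by
          have := ent_inj σ (by omega) (by omega) he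
          omega
        exact av132 hσ h1 hij hjl hl (by omega) g2
    have mono : ∀ r s : ℕ, r < s → s + 1 < n → ent σ r < ent σ (r + 1) →
        ¬ ent σ (s + 1) < ent σ s := by
      intro r s hrs hs g1 g2
      rcases Nat.lt_or_ge (ent σ r) (ent σ s) with h3 | h3
      · exact peak r s (s + 1) hrs (Nat.lt_succ_self s) hs h3 g2
      · have h5 : ent σ r ≠ ent σ s := fun he => by
          have := ent_inj σ (by omega) (by omega) he
          omega
        have h6 : r + 1 ≠ s := fun he => by rw [← he] at h3; omega
        exact peak r (r + 1) s (Nat.lt_succ_self r) (by omega) (by omega) g1 (by omega)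
    by_cases hex : ∃ i, OccAt π σ i
    · obtain ⟨i0, hi0⟩ := hex
      obtain ⟨r0, hr1, hr2, hr3⟩ := exists_asc hi0 hπ
      have hA : ∃ r, r + 1 < n ∧ ent σ r < ent σ (r + 1) :=
        ⟨r0, lt_of_lt_of_le hr2 hi0.le, hr3⟩
      apply cocc_le_of_interval (Nat.find hA)
      intro i hi
      obtain ⟨hm1, hm2⟩ := Nat.find_spec hA
      obtain ⟨s, hs1, hs2, hs3⟩ := exists_asc hi hπ
      obtain ⟨t, ht1, ht2, ht3⟩ := exists_desc hi hπ1
      have hle : Nat.find hA ≤ s := Nat.find_min' hA ⟨lt_of_lt_of_le hs2 hi.le, hs3⟩
      refine ⟨?_, by omega⟩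
      by_contra hlt
      push Not at hlt
      have ht : t + 1 < n := lt_of_lt_of_le ht2 hi.le
      have h9 : Nat.find hA < t := by omega
      exact mono _ t h9 ht hm2 ht3
    · have : {i : ℕ | OccAt π σ i} = ∅ := by
        rw [Set.eq_empty_iff_forall_notMem]
        intro i hi; exact hex ⟨i, hi⟩
      unfold cocc
      rw [this, Set.ncard_empty]
      omega
  obtain ⟨hpos, -, hsum, -⟩ := feas_flow hv
  by_cases hK : (1 : Pm (K + 1)) = Fin.revPerm
  · have hv1 : v = eInc (K + 1) := by
      rw [Finset.sum_eq_single (1 : Pm (K + 1)) (fun π _ hπ => hz π (fun h => hπ (h.trans hK.symm))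
        hπ) (fun h => absurd (Finset.mem_univ _) h)] at hsum
      ext π
      unfold eInc
      by_cases hπ : π = 1
      · subst hπ; simp [hsum]
      · rw [hz π (fun h => hπ (h.trans hK.symm)) hπ, Pi.single_eq_of_ne hπ]
    rw [hv1]
    exact left_mem_segment ℝ _ _
  · refine ⟨v 1, v Fin.revPerm, hpos _, hpos _, ?_, ?_⟩
    · rw [← hsum, ← Finset.sum_subset (Finset.subset_univ ({1, Fin.revPerm} : Finset (Pm (K + 1))))]
      · rw [Finset.sum_pair hK]
      · intro π _ hπ
        simp only [Finset.mem_insert, Finset.mem_singleton, not_or] at hπ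
        exact hz π hπ.2 hπ.1
    · ext π
      simp only [eInc, eDec, Pi.add_apply, Pi.smul_apply, smul_eq_mul]
      by_cases h3 : π = 1
      · subst h3
        rw [Pi.single_eq_same, Pi.single_eq_of_ne hK]; ring
      · by_cases h4 : π = Fin.revPerm
        · subst h4
          rw [Pi.single_eq_same, Pi.single_eq_of_ne h3]; ring
        · rw [Pi.single_eq_of_ne h3, Pi.single_eq_of_ne h4, hz π h4 h3]; ring

/-- the extra inequality, in the two cases with `123` -/
theorem upper_ineq1 {B : Set (Pm 3)} {K : ℕ} (h1 : p123 ∈ B)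
    {v : Pm (K + 1) → ℝ} (hv : v ∈ feasibleRegion B (K + 1)) :
    v (Fin.revPerm * finRotate (K + 1)) ≤ v Fin.revPerm := by
  classical
  rcases Nat.eq_zero_or_pos K with hK | hK
  · subst hK
    refine le_of_eq (congrArg v (Equiv.ext (fun x => Fin.ext ?_)))
    have e1 := ((Fin.revPerm * finRotate (0 + 1) : Pm (0 + 1)) x).2
    have e2 := ((Fin.revPerm : Pm (0 + 1)) x).2
    omega
  have key : ∀ (n : ℕ) (σ : Pm n), Avoids B σ →
      cocc (Fin.revPerm * finRotate (K + 1)) σ ≤ cocc (Fin.revPerm : Pm (K + 1)) σ + 1 := by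
    intro n σ hσ
    have hsub : {i : ℕ | OccAt (Fin.revPerm * finRotate (K + 1)) σ i} ⊆
        insert 0 ((fun i => i + 1) '' {i : ℕ | OccAt (Fin.revPerm : Pm (K + 1)) σ i}) := by
      intro i hi
      rcases Nat.eq_zero_or_pos i with h0 | h0
      · left; exact h0
      · right
        refine ⟨i - 1, ?_, Nat.sub_add_cancel h0⟩
        obtain ⟨j, rfl⟩ : ∃ j, i = j + 1 := ⟨i - 1, by omega⟩
        simp only [Nat.add_sub_cancel]
        change OccAt _ _ _ at hi
        change OccAt _ _ _
        rw [occ_iff] at hi ⊢
        obtain ⟨hle, hcmp⟩ := hi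
        refine ⟨by omega, ?_⟩
        have rot : ∀ a : ℕ, (ha : a < K) → (finRotate (K + 1)) ⟨a, by omega⟩ =
            ⟨a + 1, by omega⟩ := fun a ha => finRotate_of_lt ha
        have rotl : (finRotate (K + 1)) ⟨K, by omega⟩ = ⟨0, by omega⟩ := finRotate_last'
        -- consecutive decreasing part of the window
        have hdec : ∀ a b : ℕ, a < b → b < K → ent σ (j + 1 + b) < ent σ (j + 1 + a) := by
          intro a b hab hb
          have h3 := hcmp ⟨b, by omega⟩ ⟨a, by omega⟩
          simp only [Equiv.Perm.coe_mul, Function.comp_apply, rot a (by omega), rot b hb,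
            Fin.revPerm_apply, Fin.rev_lt_rev] at h3
          exact h3.2 (by simp only [Fin.mk_lt_mk]; omega)
        have htop : ∀ a : ℕ, a < K → ent σ (j + 1 + a) < ent σ (j + 1 + K) := by
          intro a ha
          have h3 := hcmp ⟨a, by omega⟩ ⟨K, by omega⟩
          simp only [Equiv.Perm.coe_mul, Function.comp_apply, rot a ha, rotl,
            Fin.revPerm_apply, Fin.rev_lt_rev] at h3
          exact h3.2 (by simp only [Fin.mk_lt_mk]; omega)
        have hfirst : ent σ (j + 1) < ent σ j := by
          by_contra hcon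
          push Not at hcon
          have h5 : ent σ j ≠ ent σ (j + 1) := fun he => by
            have := ent_inj σ (by omega) (by omega) he
            omega
          have h6 := htop 0 hK
          exact av123 hσ h1 (show j < j + 1 by omega) (show j + 1 < j + 1 + K by omega)
            (by omega) (by omega) h6
        have hall : ∀ a b : ℕ, a < b → b < K + 1 → ent σ (j + b) < ent σ (j + a) := by
          intro a b hab hb
          rcases Nat.eq_zero_or_pos a with h7 | h7
          · subst h7
            rcases Nat.lt_or_ge 1 b with h8 | h8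
            · have h9 := hdec 0 (b - 1) (by omega) (by omega)
              have e1 : j + 1 + (b - 1) = j + b := by omega
              rw [e1] at h9
              have e2 : j + 1 + 0 = j + 1 := rfl
              rw [e2] at h9
              exact h9.trans hfirst
            · have : b = 1 := by omega
              subst this; exact hfirst
          · have h9 := hdec (a - 1) (b - 1) (by omega) (by omega)
            have e1 : j + 1 + (b - 1) = j + b := by omega
            have e2 : j + 1 + (a - 1) = j + a := by omega
            rwa [e1, e2] at h9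
        intro a b
        simp only [Fin.revPerm_apply, Fin.rev_lt_rev]
        rcases lt_trichotomy a.1 b.1 with h7 | h7 | h7
        · have := hall a.1 b.1 h7 b.2
          exact iff_of_false (by omega) (by rw [Fin.lt_def]; omega)
        · have : a = b := Fin.ext h7
          subst this; simp
        · have := hall b.1 a.1 h7 a.2
          exact iff_of_true this (by rw [Fin.lt_def]; exact h7)
    unfold cocc
    refine le_trans (Set.ncard_le_ncard hsub (Set.Finite.insert _ ((occ_finite _ σ).image _))) ?_
    refine le_trans (Set.ncard_insert_le _ _) ?_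
    rw [Set.ncard_image_of_injective _ (fun a b h => by simpa using h)]
  have h := lin_le (B := B) (k := K + 1) (fun ρ => (if ρ = Fin.revPerm * finRotate (K + 1)
    then (1 : ℝ) else 0) - (if ρ = Fin.revPerm then (1 : ℝ) else 0)) 0 1 (by
    intro n σ hσ
    have := key n σ hσ
    have h2 : (cocc (Fin.revPerm * finRotate (K + 1)) σ : ℝ) ≤
      cocc (Fin.revPerm : Pm (K + 1)) σ + 1 := by exact_mod_cast this
    simp only [sub_mul, ite_mul, one_mul, zero_mul, Finset.sum_sub_distrib, Finset.sum_ite_eq',
      Finset.mem_univ, if_true]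
    linarith) hv
  simp only [sub_mul, ite_mul, one_mul, zero_mul, Finset.sum_sub_distrib, Finset.sum_ite_eq',
      Finset.mem_univ, if_true] at h
  linarith

end Pool.Agent.Helper23.Feas
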