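import Pool.Agent.Helper23.Feas.Machine

set_option autoImplicit false

namespace Pool.Agent.Helper23.Feas

open Filter Topology

/-- consecutive windows overlap correctly -/
def Ov {K : ℕ} (a b : Pm (K + 1)) : Prop :=
  ∀ i j : ℕ, i < K → j < K → (ent a (i + 1) < ent a (j + 1) ↔ ent b i < ent b j)

theorem ov_of {K : ℕ} {a b : Pm (K + 1)} {ρ : Pm K} (h1 : End a ρ) (h2 : Beg b ρ) : Ov a b := by
  intro i j hi hj
  have e1 := h1 ⟨i, hi⟩ ⟨j, hj⟩
  have e2 := h2 ⟨i, hi⟩ ⟨j, hj⟩
  rw [ent_lt_iff a (by omega) (by omega), ent_lt_iff b (by omega) (by omega)]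
  exact e1.trans e2.symm

def mkw (g : ℕ → Bool) (n : ℕ) : List Bool := (List.range n).map g

theorem mkw_length (g : ℕ → Bool) (n : ℕ) : (mkw g n).length = n := by simp [mkw]

theorem mkw_get (g : ℕ → Bool) (n r : ℕ) (h : r < n) : (mkw g n)[r]? = some (g r) := by
  simp [mkw, h]

def RA3 (l : List Bool) (i j : ℕ) : Prop := ∃ r, i ≤ r ∧ r < j ∧ l[r]? = some true

def RA5 (l : List Bool) (i _j : ℕ) : Prop := l[i]? = some true

def RA1 (l : List Bool) (i j : ℕ) : Prop :=
  (∀ r, i ≤ r → r < j → l[r]? = some false) ∧ l[j]? = some true

theorem loc3 : LocalRule RA3 := by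
  constructor
  · intro l1 l2 a b hab hb
    unfold RA3
    constructor
    · rintro ⟨r, h1, h2, h3⟩
      rw [List.getElem?_append_left (by omega)] at h3
      exact ⟨r, h1, h2, h3⟩
    · rintro ⟨r, h1, h2, h3⟩
      refine ⟨r, h1, h2, ?_⟩
      rw [List.getElem?_append_left (by omega)]; exact h3
  · intro l1 l2 a b hab hb
    unfold RA3
    constructor
    · rintro ⟨r, h1, h2, h3⟩
      rw [List.getElem?_append_right (by omega)] at h3
      exact ⟨r - l1.length, by omega, by omega, h3⟩
    · rintro ⟨r, h1, h2, h3⟩
      refine ⟨l1.length + r, by omega, by omega, ?_⟩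
      rw [List.getElem?_append_right (by omega)]
      simpa using h3

theorem loc5 : LocalRule RA5 := by
  constructor
  · intro l1 l2 a b hab hb
    unfold RA5
    rw [List.getElem?_append_left (by omega)]
  · intro l1 l2 a b hab hb
    unfold RA5
    rw [List.getElem?_append_right (by omega)]
    simp

theorem loc1 : LocalRule RA1 := by
  constructor
  · intro l1 l2 a b hab hb
    unfold RA1
    rw [List.getElem?_append_left hb]
    constructor
    · rintro ⟨h1, h2⟩
      refine ⟨fun r hr1 hr2 => ?_, h2⟩
      have := h1 r hr1 hr2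
      rwa [List.getElem?_append_left (by omega)] at this
    · rintro ⟨h1, h2⟩
      refine ⟨fun r hr1 hr2 => ?_, h2⟩
      rw [List.getElem?_append_left (by omega)]
      exact h1 r hr1 hr2
  · intro l1 l2 a b hab hb
    unfold RA1
    rw [List.getElem?_append_right (by omega)]
    simp only [Nat.add_sub_cancel_left]
    constructor
    · rintro ⟨h1, h2⟩
      refine ⟨fun r hr1 hr2 => ?_, h2⟩
      have := h1 (l1.length + r) (by omega) (by omega)
      rw [List.getElem?_append_right (by omega)] at this
      simpa using this
    · rintro ⟨h1, h2⟩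
      refine ⟨fun r hr1 hr2 => ?_, h2⟩
      rw [List.getElem?_append_right (by omega)]
      exact h1 _ (by omega) (by omega)

/-- number of letters `true` before position `i` -/
def ups (l : List Bool) (i : ℕ) : ℕ := ((Finset.range i).filter (fun r => l[r]? = some true)).card

theorem ups_mono (l : List Bool) {i j : ℕ} (h : i ≤ j) : ups l i ≤ ups l j := by
  apply Finset.card_le_card
  intro r hr
  simp only [Finset.mem_filter, Finset.mem_range] at hr ⊢
  exact ⟨by omega, hr.2⟩

theorem ups_lt (l : List Bool) {i j r : ℕ} (h1 : i ≤ r) (h2 : r < j) (h3 : l[r]? = some true) :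
    ups l i < ups l j := by
  apply Finset.card_lt_card
  rw [Finset.ssubset_iff_of_subset]
  · exact ⟨r, by simp [h2, h3], by simp; omega⟩
  · intro r hr
    simp only [Finset.mem_filter, Finset.mem_range] at hr ⊢
    exact ⟨by omega, hr.2⟩

theorem ups_eq (l : List Bool) {i j : ℕ} (h : i ≤ j)
    (h2 : ∀ r, i ≤ r → r < j → l[r]? ≠ some true) : ups l i = ups l j := by
  unfold ups
  congr 1
  ext r
  simp only [Finset.mem_filter, Finset.mem_range]
  constructor
  · rintro ⟨h3, h4⟩; exact ⟨by omega, h4⟩
  · rintro ⟨h3, h4⟩
    refine ⟨?_, h4⟩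
    by_contra hc
    exact h2 r (by omega) h3 h4

/-- from an integer valued function to a permutation with given comparisons -/
theorem perm_of_val (l : List Bool) (Rl : List Bool → ℕ → ℕ → Prop) (val : ℕ → ℤ)
    (h : ∀ i j, i < j → j < l.length → (Rl l i j → val i < val j) ∧ (¬ Rl l i j → val j < val i)) :
    ∃ σ : Pm l.length, ∀ i j, i < j → j < l.length → (ent σ i < ent σ j ↔ Rl l i j) := by
  have hinj : Function.Injective (fun a : Fin l.length => val a.1) := by
    intro a b hab
    simp only at hab
    rcases lt_trichotomy a.1 b.1 with h1 | h1 | h1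
    · have := h a.1 b.1 h1 b.2
      by_cases hR : Rl l a.1 b.1
      · have := this.1 hR; omega
      · have := this.2 hR; omega
    · exact Fin.ext h1
    · have := h b.1 a.1 h1 a.2
      by_cases hR : Rl l b.1 a.1
      · have := this.1 hR; omega
      · have := this.2 hR; omega
  obtain ⟨σ, hσ⟩ := exists_perm _ hinj
  refine ⟨σ, fun i j hij hj => ?_⟩
  rw [ent_lt_iff σ (by omega) hj, hσ]
  simp only
  constructor
  · intro h1
    by_contra hR
    have := (h i j hij hj).2 hR
    omega
  · intro hR; exact (h i j hij hj).1 hR

theorem real3 (l : List Bool) : ∃ σ : Pm l.length, Avoids {p231, p312} σ ∧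
    ∀ i j, i < j → j < l.length → (ent σ i < ent σ j ↔ RA3 l i j) := by
  obtain ⟨σ, hσ⟩ := perm_of_val l RA3
    (fun i => (ups l i : ℤ) * ((l.length : ℤ) + 1) - i) (by
      intro i j hij hj
      constructor
      · rintro ⟨r, h1, h2, h3⟩
        have h4 := ups_lt l h1 h2 h3
        have h5 : ((ups l i : ℤ) + 1) * ((l.length : ℤ) + 1) ≤ (ups l j : ℤ) * ((l.length : ℤ) + 1) :=
          mul_le_mul_of_nonneg_right (by exact_mod_cast h4) (by positivity)
        have h6 : (j : ℤ) < l.length := by exact_mod_cast hj
        nlinarith
      · intro hR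
        have h4 : ups l i = ups l j := ups_eq l hij.le (fun r hr1 hr2 hr3 => hR ⟨r, hr1, hr2, hr3⟩)
        rw [h4]
        omega)
  refine ⟨σ, ?_, hσ⟩
  rintro τ (rfl | rfl)
  · apply not_contains3
    rintro i j m hij hjm hm ⟨h1, h2, -⟩
    have h1' := (hσ i j hij (by omega)).1 (h1.2 (by decide))
    have h2' : ¬ RA3 l i m := fun h => by
      have := h2.1 ((hσ i m (by omega) hm).2 h)
      exact absurd this (by decide)
    obtain ⟨r, hr1, hr2, hr3⟩ := h1'
    exact h2' ⟨r, hr1, by omega, hr3⟩
  · apply not_contains3
    rintro i j m hij hjm hm ⟨-, h2, h3⟩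
    have h1' := (hσ j m hjm hm).1 (h3.2 (by decide))
    have h2' : ¬ RA3 l i m := fun h => by
      have := h2.1 ((hσ i m (by omega) hm).2 h)
      exact absurd this (by decide)
    obtain ⟨r, hr1, hr2, hr3⟩ := h1'
    exact h2' ⟨r, by omega, by omega, hr3⟩

theorem real5 (l : List Bool) : ∃ σ : Pm l.length, Avoids {p213, p231} σ ∧
    ∀ i j, i < j → j < l.length → (ent σ i < ent σ j ↔ RA5 l i j) := by
  obtain ⟨σ, hσ⟩ := perm_of_val l RA5
    (fun i => if l[i]? = some true then -((l.length : ℤ) - i) else (l.length : ℤ) - i) (by
      intro i j hij hj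
      have h6 : (j : ℤ) < l.length := by exact_mod_cast hj
      have h7 : (i : ℤ) < j := by exact_mod_cast hij
      constructor
      · intro hR
        unfold RA5 at hR
        simp only [hR, if_true]
        split_ifs <;> omega
      · intro hR
        unfold RA5 at hR
        simp only [hR, if_false]
        split_ifs <;> omega)
  refine ⟨σ, ?_, hσ⟩
  rintro τ (rfl | rfl)
  · apply not_contains3
    rintro i j m hij hjm hm ⟨h1, h2, -⟩
    have h2' := (hσ i m (by omega) hm).1 (h2.2 (by decide))
    have := h1.1 ((hσ i j hij (by omega)).2 h2')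
    exact absurd this (by decide)
  · apply not_contains3
    rintro i j m hij hjm hm ⟨h1, h2, -⟩
    have h1' := (hσ i j hij (by omega)).1 (h1.2 (by decide))
    have := h2.1 ((hσ i m (by omega) hm).2 h1')
    exact absurd this (by decide)

/-- words without two consecutive letters `false` ending with `true` (or empty) -/
def NoFF (l : List Bool) : Prop :=
  (∀ r, l[r]? = some false → l[r + 1]? = some true)

theorem noFF_nil : NoFF [] := by intro r h; simp at h

theorem noFF_append (l1 l2 : List Bool) (h1 : NoFF l1) (h2 : NoFF l2) : NoFF (l1 ++ l2) := by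
  intro r hr
  rcases Nat.lt_or_ge r l1.length with h | h
  · rw [List.getElem?_append_left h] at hr
    have h3 := h1 r hr
    have h4 : r + 1 < l1.length := by
      by_contra hc
      rw [List.getElem?_eq_none (by omega)] at h3
      simp at h3
    rw [List.getElem?_append_left h4]
    exact h3
  · rw [List.getElem?_append_right h] at hr
    rw [List.getElem?_append_right (by omega)]
    have h3 := h2 _ hr
    have e : r + 1 - l1.length = r - l1.length + 1 := by omega
    rw [e]; exact h3

theorem real1 (l : List Bool) : ∃ σ : Pm l.length, (Avoids {p123, p132} σ ∧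
    (NoFF l → Avoids {p123, p132, p213} σ)) ∧
    ∀ i j, i < j → j < l.length → (ent σ i < ent σ j ↔ RA1 l i j) := by
  obtain ⟨σ, hσ⟩ := perm_of_val l RA1
    (fun i => -((ups l i : ℤ) * (2 * (l.length : ℤ) + 2)) +
      (if l[i]? = some true then (l.length : ℤ) + 1 else - i)) (by
      intro i j hij hj
      have h6 : (j : ℤ) < l.length := by exact_mod_cast hj
      have h7 : (i : ℤ) < j := by exact_mod_cast hij
      constructor
      · rintro ⟨hR1, hR2⟩
        have h4 : ups l i = ups l j := ups_eq l hij.le (fun r hr1 hr2 hr3 => by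
          rw [hR1 r hr1 hr2] at hr3; simp at hr3)
        have h5 : l[i]? ≠ some true := by rw [hR1 i le_rfl hij]; simp
        simp only [h5, hR2, if_true, if_false, h4]
        omega
      · intro hR
        by_cases hex : ∃ r, i ≤ r ∧ r < j ∧ l[r]? = some true
        · obtain ⟨r, hr1, hr2, hr3⟩ := hex
          have h4 := ups_lt l hr1 hr2 hr3
          have h5 : ((ups l i : ℤ) + 1) * (2 * (l.length : ℤ) + 2) ≤
              (ups l j : ℤ) * (2 * (l.length : ℤ) + 2) :=
            mul_le_mul_of_nonneg_right (by exact_mod_cast h4) (by positivity)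
          have h8 : (if l[i]? = some true then (l.length : ℤ) + 1 else -(i : ℤ)) ≥ -(i : ℤ) := by
            split_ifs <;> omega
          have h9 : (if l[j]? = some true then (l.length : ℤ) + 1 else -(j : ℤ)) ≤
              (l.length : ℤ) + 1 := by
            split_ifs <;> omega
          nlinarith
        · push Not at hex
          have h4 : ups l i = ups l j := ups_eq l hij.le hex
          have h5 : l[i]? ≠ some true := hex i le_rfl hij
          have h9 : l[j]? ≠ some true := by
            intro h9
            apply hR
            refine ⟨fun r hr1 hr2 => ?_, h9⟩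
            have h10 := hex r hr1 hr2
            have h11 : r < l.length := by omega
            rw [List.getElem?_eq_getElem h11] at h10 ⊢
            cases h12 : l[r] with
            | false => rfl
            | true => rw [h12] at h10; exact absurd rfl h10
          simp only [h5, h9, if_false, h4]
          omega)
  have av : ∀ τ, (τ = p123 ∨ τ = p132) → ¬ Contains σ τ := by
    rintro τ (rfl | rfl)
    · apply not_contains3
      rintro i j m hij hjm hm ⟨h1, -, h3⟩
      have h1' := (hσ i j hij (by omega)).1 (h1.2 (by decide))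
      have h3' := (hσ j m hjm hm).1 (h3.2 (by decide))
      have := h3'.1 j le_rfl hjm
      rw [h1'.2] at this
      simp at this
    · apply not_contains3
      rintro i j m hij hjm hm ⟨h1, h2, -⟩
      have h1' := (hσ i j hij (by omega)).1 (h1.2 (by decide))
      have h3' := (hσ i m (by omega) hm).1 (h2.2 (by decide))
      have := h3'.1 j hij.le hjm
      rw [h1'.2] at this
      simp at this
  refine ⟨σ, ⟨?_, ?_⟩, hσ⟩
  · rintro τ (rfl | rfl)
    · exact av _ (Or.inl rfl)
    · exact av _ (Or.inr rfl)
  · intro hFF
    rintro τ (rfl | rfl | rfl)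
    · exact av _ (Or.inl rfl)
    · exact av _ (Or.inr rfl)
    · apply not_contains3
      rintro i j m hij hjm hm ⟨-, h2, -⟩
      have h2' := (hσ i m (by omega) hm).1 (h2.2 (by decide))
      have h3 := h2'.1 i le_rfl (by omega)
      have h4 := hFF i h3
      rw [h2'.1 (i + 1) (by omega) (by omega)] at h4
      simp at h4

/-- the walk as a function on the naturals -/
def ext {K m : ℕ} (f : Fin (m + 1) → Pm (K + 1)) (i : ℕ) : Pm (K + 1) :=
  f ⟨min i m, by omega⟩

theorem ext_eq {K m : ℕ} (f : Fin (m + 1) → Pm (K + 1)) (i : Fin (m + 1)) : ext f i.1 = f i := by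
  unfold ext
  congr 1
  apply Fin.ext
  have := i.2
  simp only
  omega

/-- the word of ascents of a walk -/
def gAsc {K m : ℕ} (f : Fin (m + 1) → Pm (K + 1)) (r : ℕ) : Bool :=
  if r < m then decide (ent (ext f r) 0 < ent (ext f r) 1)
  else decide (ent (ext f m) (r - m) < ent (ext f m) (r - m + 1))

theorem gAsc_spec {K m : ℕ} (f : Fin (m + 1) → Pm (K + 1))
    (hov : ∀ i, i < m → Ov (ext f i) (ext f (i + 1))) :
    ∀ d i, i + d = m → ∀ a, a < K →
      (gAsc f (i + a) = true ↔ ent (ext f i) a < ent (ext f i) (a + 1)) := by
  intro d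
  induction d with
  | zero =>
    intro i hi a ha
    have : i = m := by omega
    subst this
    unfold gAsc
    rw [if_neg (by omega)]
    simp
  | succ d ih =>
    intro i hi a ha
    rcases Nat.eq_zero_or_pos a with h0 | h0
    · subst h0
      unfold gAsc
      rw [if_pos (by omega)]
      simp
    · have h1 := ih (i + 1) (by omega) (a - 1) (by omega)
      have e : i + 1 + (a - 1) = i + a := by omega
      have e2 : a - 1 + 1 = a := by omega
      rw [e, e2] at h1
      rw [h1]
      have h2 := hov i (by omega) (a - 1) a (by omega) ha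
      rw [e2] at h2
      exact h2.symm

theorem struct3 {K : ℕ} {x : Pm (K + 1)} (hx : Avoids {p231, p312} x) (a b : ℕ) (hab : a < b)
    (hb : b < K + 1) : ent x a < ent x b ↔ ∃ r, a ≤ r ∧ r < b ∧ ent x r < ent x (r + 1) := by
  have ne : ∀ p q, p < q → q < K + 1 → ent x p ≠ ent x q := by
    intro p q hpq hq he
    have := ent_inj x (by omega) hq he
    omega
  -- if `x p > x q`, everything in between lies between the values
  have btw : ∀ p q r, p < r → r < q → q < K + 1 → ent x q < ent x p →
      ent x r < ent x p ∧ ent x q < ent x r := by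
    intro p q r h1 h2 h3 h4
    constructor
    · by_contra hc
      have := ne p r h1 (by omega)
      exact av231 hx (by simp) h1 h2 h3 h4 (by omega)
    · by_contra hc
      have := ne r q h2 h3
      exact av312 hx (by simp) h1 h2 h3 (by omega) h4
  constructor
  · intro h
    by_contra hc
    push Not at hc
    have hdec : ∀ d, a + d + 1 < b + 1 → ent x (a + d + 1) < ent x a := by
      intro d
      induction d with
      | zero =>
        intro hd
        have := hc a le_rfl hab
        have := ne a (a + 1) (by omega) (by omega)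
        simp only [Nat.add_zero]
        omega
      | succ d ih =>
        intro hd
        have h1 := ih (by omega)
        have h2 := hc (a + d + 1) (by omega) (by omega)
        have e : a + (d + 1) + 1 = a + d + 1 + 1 := by omega
        have := ne (a + d + 1) (a + d + 1 + 1) (by omega) (by omega)
        rw [e]; omega
    have h1 := hdec (b - a - 1) (by omega)
    have e : a + (b - a - 1) + 1 = b := by omega
    rw [e] at h1
    omega
  · rintro ⟨r, h1, h2, h3⟩
    by_contra hc
    have hba : ent x b < ent x a := by
      have := ne a b hab hb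
      omega
    have h4 : ent x b < ent x r := by
      rcases Nat.eq_or_lt_of_le h1 with h5 | h5
      · rw [← h5]; exact hba
      · exact (btw a b r h5 h2 hb hba).2
    rcases Nat.lt_or_ge (r + 1) b with h5 | h5
    · have := (btw r b (r + 1) (by omega) h5 hb h4).1
      omega
    · have : r + 1 = b := by omega
      rw [this] at h3
      omega

theorem struct5 {K : ℕ} {x : Pm (K + 1)} (hx : Avoids {p213, p231} x) (a b : ℕ) (hab : a < b)
    (hb : b < K + 1) : ent x a < ent x b ↔ ent x a < ent x (a + 1) := by
  have ne : ∀ p q, p < q → q < K + 1 → ent x p ≠ ent x q := by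
    intro p q hpq hq he
    have := ent_inj x (by omega) hq he
    omega
  rcases Nat.lt_or_ge (a + 1) b with h5 | h5
  · have h6 := ne a b hab hb
    have h7 := ne a (a + 1) (by omega) (by omega)
    constructor
    · intro h
      by_contra hc
      exact av213 hx (by simp) (show a < a + 1 by omega) h5 hb (by omega) h
    · intro h
      by_contra hc
      exact av231 hx (by simp) (show a < a + 1 by omega) h5 hb (by omega) h
  · have : a + 1 = b := by omega
    rw [this]

end Pool.Agent.Helper23.Feas
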